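import Pool.Agent.Y439.Col.OMain
import Pool.Agent.Y439.Col.L2Data

set_option autoImplicit false

namespace Pool.Agent.Y439.Col.L2

theorem psd_ok : psdOK rows = true := by decide +kernel

theorem tab_ok : tabOK val rows ((8388608 : ℕ) : ℤ) = true := by decide +kernel

theorem good : Good val rows 8388608 := good_of tab_ok psd_ok

theorem mt_ok : (allb 432 fun i => Nat.ble (mt i) 2534160) = true := by decide +kernel

theorem sym_ok : symOK (mqC mt 8388608 0 3 0 1 2 1) = true := by decide +kernel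

theorem chk000 : (allb 3 fun C3 => !(Nat.ble 0 C3) ||
    (allb 3 fun C4 => !(Nat.ble C3 C4) ||
      chkT false val (mqC mt 8388608 0 3 0 1 2 1) 240000 (50 * 240000 + 75 * 8388608 + 30 * 8388608) 5800 0 0 0 C3 C4)) = true := by
  decide +kernel

theorem chk001 : (allb 3 fun C3 => !(Nat.ble 1 C3) ||
    (allb 3 fun C4 => !(Nat.ble C3 C4) ||
      chkT false val (mqC mt 8388608 0 3 0 1 2 1) 240000 (50 * 240000 + 75 * 8388608 + 30 * 8388608) 5800 0 0 1 C3 C4)) = true := by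
  decide +kernel

theorem chk002 : (allb 3 fun C3 => !(Nat.ble 2 C3) ||
    (allb 3 fun C4 => !(Nat.ble C3 C4) ||
      chkT false val (mqC mt 8388608 0 3 0 1 2 1) 240000 (50 * 240000 + 75 * 8388608 + 30 * 8388608) 5800 0 0 2 C3 C4)) = true := by
  decide +kernel

theorem chk011 : (allb 3 fun C3 => !(Nat.ble 1 C3) ||
    (allb 3 fun C4 => !(Nat.ble C3 C4) ||
      chkT false val (mqC mt 8388608 0 3 0 1 2 1) 240000 (50 * 240000 + 75 * 8388608 + 30 * 8388608) 5800 0 1 1 C3 C4)) = true := by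
  decide +kernel

theorem chk012 : (allb 3 fun C3 => !(Nat.ble 2 C3) ||
    (allb 3 fun C4 => !(Nat.ble C3 C4) ||
      chkT false val (mqC mt 8388608 0 3 0 1 2 1) 240000 (50 * 240000 + 75 * 8388608 + 30 * 8388608) 5800 0 1 2 C3 C4)) = true := by
  decide +kernel

theorem chk022 : (allb 3 fun C3 => !(Nat.ble 2 C3) ||
    (allb 3 fun C4 => !(Nat.ble C3 C4) ||
      chkT false val (mqC mt 8388608 0 3 0 1 2 1) 240000 (50 * 240000 + 75 * 8388608 + 30 * 8388608) 5800 0 2 2 C3 C4)) = true := by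
  decide +kernel

theorem chk111 : (allb 3 fun C3 => !(Nat.ble 1 C3) ||
    (allb 3 fun C4 => !(Nat.ble C3 C4) ||
      chkT false val (mqC mt 8388608 0 3 0 1 2 1) 240000 (50 * 240000 + 75 * 8388608 + 30 * 8388608) 5800 1 1 1 C3 C4)) = true := by
  decide +kernel

theorem chk112 : (allb 3 fun C3 => !(Nat.ble 2 C3) ||
    (allb 3 fun C4 => !(Nat.ble C3 C4) ||
      chkT false val (mqC mt 8388608 0 3 0 1 2 1) 240000 (50 * 240000 + 75 * 8388608 + 30 * 8388608) 5800 1 1 2 C3 C4)) = true := by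
  decide +kernel

theorem chk122 : (allb 3 fun C3 => !(Nat.ble 2 C3) ||
    (allb 3 fun C4 => !(Nat.ble C3 C4) ||
      chkT false val (mqC mt 8388608 0 3 0 1 2 1) 240000 (50 * 240000 + 75 * 8388608 + 30 * 8388608) 5800 1 2 2 C3 C4)) = true := by
  decide +kernel

theorem chk222 : (allb 3 fun C3 => !(Nat.ble 2 C3) ||
    (allb 3 fun C4 => !(Nat.ble C3 C4) ||
      chkT false val (mqC mt 8388608 0 3 0 1 2 1) 240000 (50 * 240000 + 75 * 8388608 + 30 * 8388608) 5800 2 2 2 C3 C4)) = true := by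
  decide +kernel

theorem chk (C0 C1 C2 C3 C4 : ℕ) (h01 : C0 ≤ C1) (h12 : C1 ≤ C2) (h23 : C2 ≤ C3) (h34 : C3 ≤ C4)
    (h4 : C4 < 3) : chkT false val (mqC mt 8388608 0 3 0 1 2 1) 240000 (50 * 240000 + 75 * 8388608 + 30 * 8388608) 5800 C0 C1 C2 C3 C4 = true := by
  have key : ∀ a : ℕ, a ≤ C3 → ∀ f : ℕ → ℕ → Bool,
      (allb 3 fun C3 => !(Nat.ble a C3) || (allb 3 fun C4 => !(Nat.ble C3 C4) || f C3 C4)) = true →
      f C3 C4 = true := by
    intro a ha f h
    have g3 := or_elim_le (allb_elim h C3 (by omega)) ha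
    exact or_elim_le (allb_elim g3 C4 (by omega)) h34
  have c0 : C0 = 0 ∨ C0 = 1 ∨ C0 = 2 := by omega
  have c1 : C1 = 0 ∨ C1 = 1 ∨ C1 = 2 := by omega
  have c2 : C2 = 0 ∨ C2 = 1 ∨ C2 = 2 := by omega
  rcases c0 with rfl | rfl | rfl <;> rcases c1 with rfl | rfl | rfl <;>
    rcases c2 with rfl | rfl | rfl
  · exact key 0 h23 (fun C3 C4 => chkT false val (mqC mt 8388608 0 3 0 1 2 1) 240000 (50 * 240000 + 75 * 8388608 + 30 * 8388608) 5800 0 0 0 C3 C4) chk000
  · exact key 1 h23 (fun C3 C4 => chkT false val (mqC mt 8388608 0 3 0 1 2 1) 240000 (50 * 240000 + 75 * 8388608 + 30 * 8388608) 5800 0 0 1 C3 C4) chk001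
  · exact key 2 h23 (fun C3 C4 => chkT false val (mqC mt 8388608 0 3 0 1 2 1) 240000 (50 * 240000 + 75 * 8388608 + 30 * 8388608) 5800 0 0 2 C3 C4) chk002
  · omega
  · exact key 1 h23 (fun C3 C4 => chkT false val (mqC mt 8388608 0 3 0 1 2 1) 240000 (50 * 240000 + 75 * 8388608 + 30 * 8388608) 5800 0 1 1 C3 C4) chk011
  · exact key 2 h23 (fun C3 C4 => chkT false val (mqC mt 8388608 0 3 0 1 2 1) 240000 (50 * 240000 + 75 * 8388608 + 30 * 8388608) 5800 0 1 2 C3 C4) chk012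
  · omega
  · omega
  · exact key 2 h23 (fun C3 C4 => chkT false val (mqC mt 8388608 0 3 0 1 2 1) 240000 (50 * 240000 + 75 * 8388608 + 30 * 8388608) 5800 0 2 2 C3 C4) chk022
  · omega
  · omega
  · omega
  · omega
  · exact key 1 h23 (fun C3 C4 => chkT false val (mqC mt 8388608 0 3 0 1 2 1) 240000 (50 * 240000 + 75 * 8388608 + 30 * 8388608) 5800 1 1 1 C3 C4) chk111
  · exact key 2 h23 (fun C3 C4 => chkT false val (mqC mt 8388608 0 3 0 1 2 1) 240000 (50 * 240000 + 75 * 8388608 + 30 * 8388608) 5800 1 1 2 C3 C4) chk112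
  · omega
  · omega
  · exact key 2 h23 (fun C3 C4 => chkT false val (mqC mt 8388608 0 3 0 1 2 1) 240000 (50 * 240000 + 75 * 8388608 + 30 * 8388608) 5800 1 2 2 C3 C4) chk122
  · omega
  · omega
  · omega
  · omega
  · omega
  · omega
  · omega
  · omega
  · exact key 2 h23 (fun C3 C4 => chkT false val (mqC mt 8388608 0 3 0 1 2 1) 240000 (50 * 240000 + 75 * 8388608 + 30 * 8388608) 5800 2 2 2 C3 C4) chk222

theorem final {V : Type*} [Fintype V] (c : V → ℕ) (hc : ∀ x, c x < 3) (e : V → V → V → ℕ)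
    (e1 : ∀ x y z, e x y z ≤ 1)
    (s1 : ∀ x y z, e x y z = e y x z) (s2 : ∀ x y z, e x y z = e x z y)
    (hK : ∀ x y z w, e x y z = 0 ∨ e x y w = 0 ∨ e x z w = 0 ∨ e y z w = 0) :
    90 * 240000 * (Fintype.card V ^ 2 * ∑ a, ∑ b, ∑ d, e a b d) +
      5800 * (Fintype.card V ^ 2 * ∑ a, ∑ b, ∑ d, wg c e a b d) ≤
      50 * 240000 * Fintype.card V ^ 5 +
        30 * (2534160 * (Fintype.card V ^ 2 * ∑ x, ∑ y, dfcC 0 3 0 1 2 1 c e x y)) :=
  mainC good 240000 5800 mt 8388608 2534160 0 3 0 1 2 1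
    (fun i hi => Nat.le_of_ble_eq_true (allb_elim mt_ok i hi)) (by norm_num) (by norm_num)
    sym_ok chk c hc e e1 s1 s2 hK

end Pool.Agent.Y439.Col.L2
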