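import Pool.Agent.Y439.Col.MMain
import Pool.Agent.Y439.Col.U3Data

set_option autoImplicit false

namespace Pool.Agent.Y439.Col.U3

theorem psd_ok : psdOK rows = true := by decide +kernel

theorem tab_ok : tabOK val rows ((2097152 : ℕ) : ℤ) = true := by decide +kernel

theorem good : Good val rows 2097152 := good_of tab_ok psd_ok

theorem mt_ok : (allb 432 fun i => Nat.ble (mt i) 269784) = true := by decide +kernel

theorem sym_ok : symOK (mq mt 4194304 9 11 1 9) = true := by decide +kernel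

/-- The check for all sorted colourings. -/
theorem chk_ok : (allb 3 fun C0 => allb 3 fun C1 => !(Nat.ble C0 C1) ||
    (allb 3 fun C2 => !(Nat.ble C1 C2) ||
      (allb 3 fun C3 => !(Nat.ble C2 C3) ||
        (allb 3 fun C4 => !(Nat.ble C3 C4) ||
          chkM false val (mq mt 4194304 9 11 1 9) 36000
            (50 * 36000 + 75 * 2097152 + 30 * 4194304) C0 C1 C2 C3 C4)))) = true := by
  decide +kernel

theorem chk (C0 C1 C2 C3 C4 : ℕ) (h01 : C0 ≤ C1) (h12 : C1 ≤ C2) (h23 : C2 ≤ C3) (h34 : C3 ≤ C4)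
    (h4 : C4 < 3) : chkM false val (mq mt 4194304 9 11 1 9) 36000
      (50 * 36000 + 75 * 2097152 + 30 * 4194304) C0 C1 C2 C3 C4 = true := by
  have g1 := or_elim_le (allb_elim (allb_elim chk_ok C0 (by omega)) C1 (by omega)) h01
  have g2 := or_elim_le (allb_elim g1 C2 (by omega)) h12
  have g3 := or_elim_le (allb_elim g2 C3 (by omega)) h23
  exact or_elim_le (allb_elim g3 C4 (by omega)) h34

theorem final {V : Type*} [Fintype V] (c : V → ℕ) (hc : ∀ x, c x < 3) (e : V → V → V → ℕ)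
    (e1 : ∀ x y z, e x y z ≤ 1)
    (s1 : ∀ x y z, e x y z = e y x z) (s2 : ∀ x y z, e x y z = e x z y)
    (hK : ∀ x y z w, e x y z = 0 ∨ e x y w = 0 ∨ e x z w = 0 ∨ e y z w = 0) :
    90 * 36000 * (Fintype.card V ^ 2 * ∑ a, ∑ b, ∑ d, e a b d) ≤
      50 * 36000 * Fintype.card V ^ 5 +
        30 * (269784 * (Fintype.card V ^ 2 * ∑ x, ∑ y, dfc 9 11 1 9 c e x y)) :=
  mainM good false 36000 mt 4194304 269784 9 11 1 9
    (fun i hi => Nat.le_of_ble_eq_true (allb_elim mt_ok i hi)) (by norm_num) (by norm_num)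
    sym_ok chk c hc e e1 s1 s2 (fun h => absurd h (by decide)) hK

end Pool.Agent.Y439.Col.U3
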