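import Pool.Agent.Y439.Col.Main

set_option autoImplicit false

namespace Pool.Agent.Y439.Col

/-- Conjunction over the numbers below `n`. -/
def allb : ℕ → (ℕ → Bool) → Bool
  | 0, _ => true
  | n + 1, f => f n && allb n f

theorem allb_elim {f : ℕ → Bool} : ∀ {n : ℕ}, allb n f = true → ∀ i < n, f i = true
  | 0, _, i, hi => absurd hi (Nat.not_lt_zero i)
  | n + 1, h, i, hi => by
      unfold allb at h
      rw [Bool.and_eq_true] at h
      rcases Nat.lt_succ_iff_lt_or_eq.1 hi with h1 | h1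
      · exact allb_elim h.2 i h1
      · rw [h1]; exact h.1

/-- All entries of the table agree with the matrices. -/
def tabOK (val : ℕ → ℕ → ℕ → ℕ) (rows : ℕ → List (List ℤ)) (OFF : ℤ) : Bool :=
  allb 19 fun t => allb 24 fun f => allb 24 fun g =>
    decide (Int.ofNat (val t f g) = ent (rows t) f g + OFF)

def psdOK (rows : ℕ → List (List ℤ)) : Bool := allb 19 fun t => psd 24 1 (rows t)

theorem good_of {val : ℕ → ℕ → ℕ → ℕ} {rows : ℕ → List (List ℤ)} {OFF : ℕ}
    (h1 : tabOK val rows (OFF : ℤ) = true) (h2 : psdOK rows = true) : Good val rows OFF where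
  hval := fun t ht f hf g hg => of_decide_eq_true (allb_elim (allb_elim (allb_elim h1 t ht) f hf) g hg)
  hpsd := fun t ht => allb_elim h2 t ht

/-- The check for all sorted colourings. -/
def chkAll (ind : Bool) (val : ℕ → ℕ → ℕ → ℕ) (W K lam : ℕ) (pt : Pat) : Bool :=
  allb 3 fun C0 => allb 3 fun C1 => !(Nat.ble C0 C1) ||
    (allb 3 fun C2 => !(Nat.ble C1 C2) ||
      (allb 3 fun C3 => !(Nat.ble C2 C3) ||
        (allb 3 fun C4 => !(Nat.ble C3 C4) || chk ind val W K lam pt C0 C1 C2 C3 C4)))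

theorem or_elim_le {a b : ℕ} {y : Bool} (h : (!(Nat.ble a b) || y) = true) (hab : a ≤ b) :
    y = true := by
  refine or_elim' h ?_
  rw [Nat.ble_eq_true_of_le hab]
  decide

theorem chk_of_all {ind : Bool} {val : ℕ → ℕ → ℕ → ℕ} {W K lam : ℕ} {pt : Pat}
    (h : chkAll ind val W K lam pt = true) (C0 C1 C2 C3 C4 : ℕ) (h01 : C0 ≤ C1) (h12 : C1 ≤ C2)
    (h23 : C2 ≤ C3) (h34 : C3 ≤ C4) (h4 : C4 < 3) : chk ind val W K lam pt C0 C1 C2 C3 C4 = true := by
  have g1 := or_elim_le (allb_elim (allb_elim h C0 (by omega)) C1 (by omega)) h01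
  have g2 := or_elim_le (allb_elim g1 C2 (by omega)) h12
  have g3 := or_elim_le (allb_elim g2 C3 (by omega)) h23
  exact or_elim_le (allb_elim g3 C4 (by omega)) h34

end Pool.Agent.Y439.Col
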