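import Pool.Agent.Y439.Col.SMain
import Pool.Agent.Y439.Col.Tools

set_option autoImplicit false

/-!
The inequality of `SMain` with one check for both parts (partly generated).
-/

namespace Pool.Agent.Y439.Col
open Finset

/-- The smaller of `n` and 1. -/
def sg (n : ℕ) : ℕ := Nat.sub 1 (Nat.sub 1 n)

/-- The inequality for all states with the given colours, with margin `g` except for those of
Turán's construction and its reverse. -/
def chkB (ind : Bool) (val : ℕ → ℕ → ℕ → ℕ) (mv : ℕ → ℕ → ℕ → ℕ → ℕ → ℕ → ℕ → ℕ → ℕ → ℕ → ℕ)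
    (W K g C0 C1 C2 C3 C4 : ℕ) : Bool :=
  b2 (ind && inn C0 C1 C2) fun b012 =>
  b2 (ind && inn C0 C1 C3) fun b013 =>
  b2 (ind && inn C0 C2 C3) fun b023 =>
  b2 (ind && inn C1 C2 C3) fun b123 =>
  (k4 b012 b013 b023 b123 || (
  b2 (ind && inn C0 C1 C4) fun b014 =>
  b2 (ind && inn C0 C2 C4) fun b024 =>
  b2 (ind && inn C1 C2 C4) fun b124 =>
  (k4 b012 b014 b024 b124 || (
  b2 (ind && inn C0 C3 C4) fun b034 =>
  b2 (ind && inn C1 C3 C4) fun b134 =>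
  (k4 b013 b014 b034 b134 || (
  b2 (ind && inn C2 C3 C4) fun b234 =>
  (k4 b023 b024 b034 b234 || (
  (k4 b123 b124 b134 b234 || (
  Nat.ble (Nat.add (Nat.add (F10 val W C0 C1 C2 C3 C4 b012 b013 b014 b023 b024 b034 b123 b124 b134 b234)
    (M30 mv C0 C1 C2 C3 C4 b012 b013 b014 b023 b024 b034 b123 b124 b134 b234))
    (Nat.mul g (sg (Nat.mul (W10 C0 C1 C2 C3 C4 b012 b013 b014 b023 b024 b034 b123 b124 b134 b234)
      (W10' C0 C1 C2 C3 C4 b012 b013 b014 b023 b024 b034 b123 b124 b134 b234))))) K))))))))))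

theorem chkB_sound (ind : Bool) (val : ℕ → ℕ → ℕ → ℕ) (mv : ℕ → ℕ → ℕ → ℕ → ℕ → ℕ → ℕ → ℕ → ℕ → ℕ → ℕ)
    (W K g C0 C1 C2 C3 C4 b012 b013 b014 b023 b024 b034 b123 b124 b134 b234 : ℕ)
    (h : chkB ind val mv W K g C0 C1 C2 C3 C4 = true)
    (h012 : b012 ≤ 1) (i012 : (ind && inn C0 C1 C2) = true → b012 = 0)
    (h013 : b013 ≤ 1) (i013 : (ind && inn C0 C1 C3) = true → b013 = 0)
    (h023 : b023 ≤ 1) (i023 : (ind && inn C0 C2 C3) = true → b023 = 0)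
    (h123 : b123 ≤ 1) (i123 : (ind && inn C1 C2 C3) = true → b123 = 0)
    (h014 : b014 ≤ 1) (i014 : (ind && inn C0 C1 C4) = true → b014 = 0)
    (h024 : b024 ≤ 1) (i024 : (ind && inn C0 C2 C4) = true → b024 = 0)
    (h124 : b124 ≤ 1) (i124 : (ind && inn C1 C2 C4) = true → b124 = 0)
    (h034 : b034 ≤ 1) (i034 : (ind && inn C0 C3 C4) = true → b034 = 0)
    (h134 : b134 ≤ 1) (i134 : (ind && inn C1 C3 C4) = true → b134 = 0)
    (h234 : b234 ≤ 1) (i234 : (ind && inn C2 C3 C4) = true → b234 = 0)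
    (k0123 : ¬ k4 b012 b013 b023 b123 = true)
    (k0124 : ¬ k4 b012 b014 b024 b124 = true)
    (k0134 : ¬ k4 b013 b014 b034 b134 = true)
    (k0234 : ¬ k4 b023 b024 b034 b234 = true)
    (k1234 : ¬ k4 b123 b124 b134 b234 = true) :
    F10 val W C0 C1 C2 C3 C4 b012 b013 b014 b023 b024 b034 b123 b124 b134 b234 +
      M30 mv C0 C1 C2 C3 C4 b012 b013 b014 b023 b024 b034 b123 b124 b134 b234 +
      g * sg (W10 C0 C1 C2 C3 C4 b012 b013 b014 b023 b024 b034 b123 b124 b134 b234 *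
        W10' C0 C1 C2 C3 C4 b012 b013 b014 b023 b024 b034 b123 b124 b134 b234) ≤ K := by
  unfold chkB at h
  replace h := b2_elim h h012 i012
  replace h := b2_elim h h013 i013
  replace h := b2_elim h h023 i023
  replace h := b2_elim h h123 i123
  replace h := or_elim' h k0123
  replace h := b2_elim h h014 i014
  replace h := b2_elim h h024 i024
  replace h := b2_elim h h124 i124
  replace h := or_elim' h k0124
  replace h := b2_elim h h034 i034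
  replace h := b2_elim h h134 i134
  replace h := or_elim' h k0134
  replace h := b2_elim h h234 i234
  replace h := or_elim' h k0234
  replace h := or_elim' h k1234
  exact Nat.le_of_ble_eq_true h

variable {V : Type*} [Fintype V] {val : ℕ → ℕ → ℕ → ℕ} {rows : ℕ → List (List ℤ)} {OFF : ℕ}

/-- The pointwise inequality with margin. -/
theorem keyB (hG : Good val rows OFF) (ind : Bool) (W K g : ℕ)
    (mv : ℕ → ℕ → ℕ → ℕ → ℕ → ℕ → ℕ → ℕ → ℕ → ℕ → ℕ) (hmv : symOK mv = true)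
    (hchk : ∀ C0 C1 C2 C3 C4 : ℕ, C0 ≤ C1 → C1 ≤ C2 → C2 ≤ C3 → C3 ≤ C4 → C4 < 3 →
      chkB ind val mv W K g C0 C1 C2 C3 C4 = true)
    (c : V → ℕ) (hc : ∀ x, c x < 3) (e : V → V → V → ℕ) (e1 : ∀ x y z, e x y z ≤ 1)
    (s1 : ∀ x y z, e x y z = e y x z) (s2 : ∀ x y z, e x y z = e x z y)
    (hin : ind = true → ∀ x y z, c x = c y → c y = c z → e x y z = 0)
    (hK : ∀ x y z w, e x y z = 0 ∨ e x y w = 0 ∨ e x z w = 0 ∨ e y z w = 0)
    (x0 x1 x2 x3 x4 : V) :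
    S60 (v3 val c e) x0 x1 x2 x3 x4 + S15 (v1 val c e) x0 x1 x2 x3 x4 +
      9 * W * S10 e x0 x1 x2 x3 x4 + S30 (mg mv c e) x0 x1 x2 x3 x4 +
      g * sg (S10 (wg c e) x0 x1 x2 x3 x4 * S10 (wg' c e) x0 x1 x2 x3 x4) ≤ K := by
  have hv3 : ∀ a b d u v, v3 val c e a b d u v = v3 val c e a b d v u := fun a b d u v =>
    hG.comm (ty_lt _ _ _ _ (e1 _ _ _)) (f3_lt _ _ _ _ _ (e1 _ _ _) (e1 _ _ _) (e1 _ _ _))
      (f3_lt _ _ _ _ _ (e1 _ _ _) (e1 _ _ _) (e1 _ _ _))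
  have hk1 : ∀ a y z u w, v1 val c e a y z u w = v1 val c e a z y u w := fun a y z u w => by
    unfold v1 w1
    rw [f1_comm (c a) (c y) (c z), s2 a y z]
  have hk2 : ∀ a y z u w, v1 val c e a y z u w = v1 val c e a y z w u := fun a y z u w => by
    unfold v1 w1
    rw [f1_comm (c a) (c u) (c w), s2 a u w]
  have hk3 : ∀ a y z u w, v1 val c e a y z u w = v1 val c e a u w y z := fun a y z u w =>
    hG.comm (by norm_num) (f1_lt _ _ _ _ (e1 _ _ _)) (f1_lt _ _ _ _ (e1 _ _ _))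
  have hm1 : ∀ x y u w z, mg mv c e x y u w z = mg mv c e y x u w z := fun x y u w z => by
    unfold mg
    rw [(symOK_elim hmv (hc x) (hc y) (hc u) (hc w) (hc z) (e1 x y u) (e1 x y w) (e1 x u w)
      (e1 y u w) (e1 x y z)).1, s1 x y u, s1 x y w, s1 x y z]
  have hm2 : ∀ x y u w z, mg mv c e x y u w z = mg mv c e x y w u z := fun x y u w z => by
    unfold mg
    rw [(symOK_elim hmv (hc x) (hc y) (hc u) (hc w) (hc z) (e1 x y u) (e1 x y w) (e1 x u w)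
      (e1 y u w) (e1 x y z)).2, s2 x u w, s2 y u w]
  have t1 : ∀ x y z, wg c e x y z = wg c e y x z := fun x y z => by
    unfold wg
    rw [(wf_sym (hc x) (hc y) (hc z)).1, s1 x y z]
  have t2 : ∀ x y z, wg c e x y z = wg c e x z y := fun x y z => by
    unfold wg
    rw [(wf_sym (hc x) (hc y) (hc z)).2, s2 x y z]
  have t1' : ∀ x y z, wg' c e x y z = wg' c e y x z := fun x y z => by
    unfold wg'
    rw [(wf'_sym (hc x) (hc y) (hc z)).1, s1 x y z]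
  have t2' : ∀ x y z, wg' c e x y z = wg' c e x z y := fun x y z => by
    unfold wg'
    rw [(wf'_sym (hc x) (hc y) (hc z)).2, s2 x y z]
  revert x0 x1 x2 x3 x4
  apply wlog5 c

  · intro x0 x1 x2 x3 x4 h
    rwa [S60_sw0 _ hv3, S15_sw0 _ hk1 hk2 hk3, S10_sw0 _ s1 s2, S30_sw0 _ hm1 hm2, S10_sw0 _ t1 t2, S10_sw0 _ t1' t2'] at h
  · intro x0 x1 x2 x3 x4 h
    rwa [S60_sw1 _ hv3, S15_sw1 _ hk1 hk2 hk3, S10_sw1 _ s1 s2, S30_sw1 _ hm1 hm2, S10_sw1 _ t1 t2, S10_sw1 _ t1' t2'] at h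
  · intro x0 x1 x2 x3 x4 h
    rwa [S60_sw2 _ hv3, S15_sw2 _ hk1 hk2 hk3, S10_sw2 _ s1 s2, S30_sw2 _ hm1 hm2, S10_sw2 _ t1 t2, S10_sw2 _ t1' t2'] at h
  · intro x0 x1 x2 x3 x4 h
    rwa [S60_sw3 _ hv3, S15_sw3 _ hk1 hk2 hk3, S10_sw3 _ s1 s2, S30_sw3 _ hm1 hm2, S10_sw3 _ t1 t2, S10_sw3 _ t1' t2'] at h
  · intro x0 x1 x2 x3 x4 c01 c12 c23 c34
    rw [← F10_eq val W c e s1 s2, ← M30_eq mv c e s1 s2]
    have inn_of : ∀ x y z : V, (ind && inn (c x) (c y) (c z)) = true → e x y z = 0 := by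
      intro x y z h
      rw [Bool.and_eq_true] at h
      obtain ⟨h1, h2⟩ := h
      unfold inn at h2
      rw [Bool.and_eq_true] at h2
      exact hin h1 x y z (Nat.eq_of_beq_eq_true h2.1) (Nat.eq_of_beq_eq_true h2.2)
    have k4_of : ∀ x y z w : V, ¬ k4 (e x y z) (e x y w) (e x z w) (e y z w) = true := by
      intro x y z w h
      unfold k4 at h
      have h1 := Nat.eq_of_beq_eq_true h
      have h2 : (e x y z * e x y w) * (e x z w * e y z w) = 1 := h1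
      rcases hK x y z w with h3 | h3 | h3 | h3 <;> rw [h3] at h2 <;> simp at h2
    exact chkB_sound ind val mv W K g _ _ _ _ _ _ _ _ _ _ _ _ _ _ _
      (hchk _ _ _ _ _ c01 c12 c23 c34 (hc x4))
      (e1 _ _ _) (inn_of _ _ _) (e1 _ _ _) (inn_of _ _ _) (e1 _ _ _) (inn_of _ _ _)
      (e1 _ _ _) (inn_of _ _ _) (e1 _ _ _) (inn_of _ _ _) (e1 _ _ _) (inn_of _ _ _)
      (e1 _ _ _) (inn_of _ _ _) (e1 _ _ _) (inn_of _ _ _) (e1 _ _ _) (inn_of _ _ _)
      (e1 _ _ _) (inn_of _ _ _)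
      (k4_of _ _ _ _) (k4_of _ _ _ _) (k4_of _ _ _ _) (k4_of _ _ _ _) (k4_of _ _ _ _)

/-- The inequality with the number of bad 5-tuples. -/
theorem mainB (hG : Good val rows OFF) (ind : Bool) (W g : ℕ) (mt : ℕ → ℕ) (O T p q r s : ℕ)
    (hT : ∀ i < 432, mt i ≤ T) (hq : T * q ≤ O) (hs : T * s ≤ O)
    (hmv : symOK (mq mt O p q r s) = true)
    (hchk : ∀ C0 C1 C2 C3 C4 : ℕ, C0 ≤ C1 → C1 ≤ C2 → C2 ≤ C3 → C3 ≤ C4 → C4 < 3 →
      chkB ind val (mq mt O p q r s) W (50 * W + 75 * OFF + 30 * O) g C0 C1 C2 C3 C4 = true)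
    (c : V → ℕ) (hc : ∀ x, c x < 3) (e : V → V → V → ℕ) (e1 : ∀ x y z, e x y z ≤ 1)
    (s1 : ∀ x y z, e x y z = e y x z) (s2 : ∀ x y z, e x y z = e x z y)
    (hin : ind = true → ∀ x y z, c x = c y → c y = c z → e x y z = 0)
    (hK : ∀ x y z w, e x y z = 0 ∨ e x y w = 0 ∨ e x z w = 0 ∨ e y z w = 0) :
    90 * W * (Fintype.card V ^ 2 * ∑ a, ∑ b, ∑ d, e a b d) + g * ∑ x, bad c e x ≤
      50 * W * Fintype.card V ^ 5 +
        30 * (T * (Fintype.card V ^ 2 * ∑ x, ∑ y, dfc p q r s c e x y)) := by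
  have hsum : ∑ x : Fin 5 → V, (S60 (v3 val c e) (x 0) (x 1) (x 2) (x 3) (x 4) +
      S15 (v1 val c e) (x 0) (x 1) (x 2) (x 3) (x 4) + 9 * W * S10 e (x 0) (x 1) (x 2) (x 3) (x 4) +
      S30 (mg (mq mt O p q r s) c e) (x 0) (x 1) (x 2) (x 3) (x 4) + g * bad c e x) ≤
      ∑ _x : Fin 5 → V, (50 * W + 75 * OFF + 30 * O) := by
    refine sum_le_sum fun x _ => ?_
    have hb : bad c e x = sg (S10 (wg c e) (x 0) (x 1) (x 2) (x 3) (x 4) *
        S10 (wg' c e) (x 0) (x 1) (x 2) (x 3) (x 4)) := by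
      unfold bad
      split_ifs with hb
      · rw [hb]; rfl
      · obtain ⟨k, hk⟩ := Nat.exists_eq_succ_of_ne_zero hb
        rw [hk]
        show 1 = 1 - (1 - (k + 1))
        omega
    rw [hb]
    exact keyB hG ind W _ g _ hmv hchk c hc e e1 s1 s2 hin hK _ _ _ _ _
  rw [sum_add_distrib, sum_add_distrib, sum_add_distrib, sum_add_distrib, ← mul_sum, ← mul_sum,
    sum_S60, sum_S15, sum_S10, sum_S30, e_sum, sum_const, card_univ, smul_eq_mul, Fintype.card_fun,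
    Fintype.card_fin] at hsum
  have h3 := v3_sum hG c e e1
  have h1 := v1_sum hG c e e1
  have hm := mg_sum mt O T p q r s hT hq hs c hc e e1
  nlinarith [hsum, h3, h1, hm]

end Pool.Agent.Y439.Col
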