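import Pool.Agent.Y439.Col.Sums

set_option autoImplicit false

/-!
The functional on coloured five-vertex states (generated) and the main inequality for
three-coloured 3-graphs from a kernel check of all states with sorted colours.
-/

namespace Pool.Agent.Y439.Col
open Finset

/-- Colour of `y` relative to the colour of `a`. -/
def rc (a y : ℕ) : ℕ := Nat.mod (Nat.sub (Nat.add y 3) a) 3

/-- Index of a flag over a triple. -/
def f3 (a y p q r : ℕ) : ℕ :=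
  Nat.add (Nat.mul 8 (rc a y)) (Nat.add p (Nat.add (Nat.mul 2 q) (Nat.mul 4 r)))

/-- Index of the type of a triple. -/
def ty (a b d t : ℕ) : ℕ := Nat.add (Nat.mul 6 (rc a b)) (Nat.add (Nat.mul 2 (rc a d)) t)

/-- Index of a flag over a vertex. -/
def f1 (a y z p : ℕ) : ℕ :=
  Nat.add (Nat.mul 2 (Nat.add (Nat.add (rc a y) (rc a z)) (Nat.mul (rc a y) (rc a z)))) p

def w3 (val : ℕ → ℕ → ℕ → ℕ) (ca cb cd cu cv t p q r p' q' r' : ℕ) : ℕ :=
  val (ty ca cb cd t) (f3 ca cu p q r) (f3 ca cv p' q' r')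

def w1 (val : ℕ → ℕ → ℕ → ℕ) (ca cy cz p cu cw q : ℕ) : ℕ :=
  val 18 (f1 ca cy cz p) (f1 ca cu cw q)

theorem rc_lt (a y : ℕ) : rc a y < 3 := Nat.mod_lt _ (by norm_num)

theorem f3_lt (a y p q r : ℕ) (hp : p ≤ 1) (hq : q ≤ 1) (hr : r ≤ 1) : f3 a y p q r < 24 := by
  have := rc_lt a y
  show 8 * rc a y + (p + (2 * q + 4 * r)) < 24
  omega

theorem ty_lt (a b d t : ℕ) (ht : t ≤ 1) : ty a b d t < 19 := by
  have := rc_lt a b
  have := rc_lt a d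
  show 6 * rc a b + (2 * rc a d + t) < 19
  omega

theorem f1_lt (a y z p : ℕ) (hp : p ≤ 1) : f1 a y z p < 24 := by
  have h1 := rc_lt a y
  have h2 := rc_lt a z
  show 2 * (rc a y + rc a z + rc a y * rc a z) + p < 24
  have : rc a y * rc a z ≤ 2 * 2 := Nat.mul_le_mul (by omega) (by omega)
  omega

theorem f1_comm (a y z p : ℕ) : f1 a y z p = f1 a z y p := by
  show 2 * (rc a y + rc a z + rc a y * rc a z) + p = 2 * (rc a z + rc a y + rc a z * rc a y) + p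
  ring

def F10 (val : ℕ → ℕ → ℕ → ℕ) (W C0 C1 C2 C3 C4 b012 b013 b014 b023 b024 b034 b123 b124 b134 b234 : ℕ) : ℕ :=
    ((w3 val C0 C1 C2 C3 C4 b012 b013 b023 b123 b014 b024 b124 +
     w3 val C0 C1 C3 C2 C4 b013 b012 b023 b123 b014 b034 b134 +
     w3 val C0 C1 C4 C2 C3 b014 b012 b024 b124 b013 b034 b134 +
     w3 val C0 C2 C1 C3 C4 b012 b023 b013 b123 b024 b014 b124 +
     w3 val C0 C2 C3 C1 C4 b023 b012 b013 b123 b024 b034 b234 +
     w3 val C0 C2 C4 C1 C3 b024 b012 b014 b124 b023 b034 b234 +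
     w3 val C0 C3 C1 C2 C4 b013 b023 b012 b123 b034 b014 b134 +
     w3 val C0 C3 C2 C1 C4 b023 b013 b012 b123 b034 b024 b234 +
     w3 val C0 C3 C4 C1 C2 b034 b013 b014 b134 b023 b024 b234 +
     w3 val C0 C4 C1 C2 C3 b014 b024 b012 b124 b034 b013 b134 +
     w3 val C0 C4 C2 C1 C3 b024 b014 b012 b124 b034 b023 b234 +
     w3 val C0 C4 C3 C1 C2 b034 b014 b013 b134 b024 b023 b234) +
    (w3 val C1 C0 C2 C3 C4 b012 b013 b123 b023 b014 b124 b024 +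
     w3 val C1 C0 C3 C2 C4 b013 b012 b123 b023 b014 b134 b034 +
     w3 val C1 C0 C4 C2 C3 b014 b012 b124 b024 b013 b134 b034 +
     w3 val C1 C2 C0 C3 C4 b012 b123 b013 b023 b124 b014 b024 +
     w3 val C1 C2 C3 C0 C4 b123 b012 b013 b023 b124 b134 b234 +
     w3 val C1 C2 C4 C0 C3 b124 b012 b014 b024 b123 b134 b234 +
     w3 val C1 C3 C0 C2 C4 b013 b123 b012 b023 b134 b014 b034 +
     w3 val C1 C3 C2 C0 C4 b123 b013 b012 b023 b134 b124 b234 +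
     w3 val C1 C3 C4 C0 C2 b134 b013 b014 b034 b123 b124 b234 +
     w3 val C1 C4 C0 C2 C3 b014 b124 b012 b024 b134 b013 b034 +
     w3 val C1 C4 C2 C0 C3 b124 b014 b012 b024 b134 b123 b234 +
     w3 val C1 C4 C3 C0 C2 b134 b014 b013 b034 b124 b123 b234) +
    (w3 val C2 C0 C1 C3 C4 b012 b023 b123 b013 b024 b124 b014 +
     w3 val C2 C0 C3 C1 C4 b023 b012 b123 b013 b024 b234 b034 +
     w3 val C2 C0 C4 C1 C3 b024 b012 b124 b014 b023 b234 b034 +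
     w3 val C2 C1 C0 C3 C4 b012 b123 b023 b013 b124 b024 b014 +
     w3 val C2 C1 C3 C0 C4 b123 b012 b023 b013 b124 b234 b134 +
     w3 val C2 C1 C4 C0 C3 b124 b012 b024 b014 b123 b234 b134 +
     w3 val C2 C3 C0 C1 C4 b023 b123 b012 b013 b234 b024 b034 +
     w3 val C2 C3 C1 C0 C4 b123 b023 b012 b013 b234 b124 b134 +
     w3 val C2 C3 C4 C0 C1 b234 b023 b024 b034 b123 b124 b134 +
     w3 val C2 C4 C0 C1 C3 b024 b124 b012 b014 b234 b023 b034 +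
     w3 val C2 C4 C1 C0 C3 b124 b024 b012 b014 b234 b123 b134 +
     w3 val C2 C4 C3 C0 C1 b234 b024 b023 b034 b124 b123 b134) +
    (w3 val C3 C0 C1 C2 C4 b013 b023 b123 b012 b034 b134 b014 +
     w3 val C3 C0 C2 C1 C4 b023 b013 b123 b012 b034 b234 b024 +
     w3 val C3 C0 C4 C1 C2 b034 b013 b134 b014 b023 b234 b024 +
     w3 val C3 C1 C0 C2 C4 b013 b123 b023 b012 b134 b034 b014 +
     w3 val C3 C1 C2 C0 C4 b123 b013 b023 b012 b134 b234 b124 +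
     w3 val C3 C1 C4 C0 C2 b134 b013 b034 b014 b123 b234 b124 +
     w3 val C3 C2 C0 C1 C4 b023 b123 b013 b012 b234 b034 b024 +
     w3 val C3 C2 C1 C0 C4 b123 b023 b013 b012 b234 b134 b124 +
     w3 val C3 C2 C4 C0 C1 b234 b023 b034 b024 b123 b134 b124 +
     w3 val C3 C4 C0 C1 C2 b034 b134 b013 b014 b234 b023 b024 +
     w3 val C3 C4 C1 C0 C2 b134 b034 b013 b014 b234 b123 b124 +
     w3 val C3 C4 C2 C0 C1 b234 b034 b023 b024 b134 b123 b124) +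
    (w3 val C4 C0 C1 C2 C3 b014 b024 b124 b012 b034 b134 b013 +
     w3 val C4 C0 C2 C1 C3 b024 b014 b124 b012 b034 b234 b023 +
     w3 val C4 C0 C3 C1 C2 b034 b014 b134 b013 b024 b234 b023 +
     w3 val C4 C1 C0 C2 C3 b014 b124 b024 b012 b134 b034 b013 +
     w3 val C4 C1 C2 C0 C3 b124 b014 b024 b012 b134 b234 b123 +
     w3 val C4 C1 C3 C0 C2 b134 b014 b034 b013 b124 b234 b123 +
     w3 val C4 C2 C0 C1 C3 b024 b124 b014 b012 b234 b034 b023 +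
     w3 val C4 C2 C1 C0 C3 b124 b024 b014 b012 b234 b134 b123 +
     w3 val C4 C2 C3 C0 C1 b234 b024 b034 b023 b124 b134 b123 +
     w3 val C4 C3 C0 C1 C2 b034 b134 b014 b013 b234 b024 b023 +
     w3 val C4 C3 C1 C0 C2 b134 b034 b014 b013 b234 b124 b123 +
     w3 val C4 C3 C2 C0 C1 b234 b034 b024 b023 b134 b124 b123)) +
    (w1 val C0 C1 C2 b012 C3 C4 b034 + w1 val C0 C1 C3 b013 C2 C4 b024 +
    w1 val C0 C1 C4 b014 C2 C3 b023 + w1 val C1 C0 C2 b012 C3 C4 b134 +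
    w1 val C1 C0 C3 b013 C2 C4 b124 + w1 val C1 C0 C4 b014 C2 C3 b123 +
    w1 val C2 C0 C1 b012 C3 C4 b234 + w1 val C2 C0 C3 b023 C1 C4 b124 +
    w1 val C2 C0 C4 b024 C1 C3 b123 + w1 val C3 C0 C1 b013 C2 C4 b234 +
    w1 val C3 C0 C2 b023 C1 C4 b134 + w1 val C3 C0 C4 b034 C1 C2 b123 +
    w1 val C4 C0 C1 b014 C2 C3 b234 + w1 val C4 C0 C2 b024 C1 C3 b134 +
    w1 val C4 C0 C3 b034 C1 C2 b124) +
    9 * W * (b012 + b013 + b014 + b023 + b024 + b034 + b123 + b124 + b134 + b234)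

/-- The type of a test for a pattern on five vertices: colours, then the triples. -/
abbrev Pat := ℕ → ℕ → ℕ → ℕ → ℕ → ℕ → ℕ → ℕ → ℕ → ℕ → ℕ → ℕ → ℕ → ℕ → ℕ → ℕ

def P10 (pt : Pat) (C0 C1 C2 C3 C4 b012 b013 b014 b023 b024 b034 b123 b124 b134 b234 : ℕ) : ℕ :=
    (pt C0 C1 C2 C3 C4 b012 b013 b014 b023 b024 b034 b123 b124 b134 b234 +
     pt C0 C1 C2 C4 C3 b012 b014 b013 b024 b023 b034 b124 b123 b134 b234 +
     pt C0 C1 C3 C2 C4 b013 b012 b014 b023 b034 b024 b123 b134 b124 b234 +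
     pt C0 C1 C3 C4 C2 b013 b014 b012 b034 b023 b024 b134 b123 b124 b234 +
     pt C0 C1 C4 C2 C3 b014 b012 b013 b024 b034 b023 b124 b134 b123 b234 +
     pt C0 C1 C4 C3 C2 b014 b013 b012 b034 b024 b023 b134 b124 b123 b234 +
     pt C0 C2 C1 C3 C4 b012 b023 b024 b013 b014 b034 b123 b124 b234 b134 +
     pt C0 C2 C1 C4 C3 b012 b024 b023 b014 b013 b034 b124 b123 b234 b134 +
     pt C0 C2 C3 C1 C4 b023 b012 b024 b013 b034 b014 b123 b234 b124 b134 +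
     pt C0 C2 C3 C4 C1 b023 b024 b012 b034 b013 b014 b234 b123 b124 b134 +
     pt C0 C2 C4 C1 C3 b024 b012 b023 b014 b034 b013 b124 b234 b123 b134 +
     pt C0 C2 C4 C3 C1 b024 b023 b012 b034 b014 b013 b234 b124 b123 b134) +
    (pt C0 C3 C1 C2 C4 b013 b023 b034 b012 b014 b024 b123 b134 b234 b124 +
     pt C0 C3 C1 C4 C2 b013 b034 b023 b014 b012 b024 b134 b123 b234 b124 +
     pt C0 C3 C2 C1 C4 b023 b013 b034 b012 b024 b014 b123 b234 b134 b124 +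
     pt C0 C3 C2 C4 C1 b023 b034 b013 b024 b012 b014 b234 b123 b134 b124 +
     pt C0 C3 C4 C1 C2 b034 b013 b023 b014 b024 b012 b134 b234 b123 b124 +
     pt C0 C3 C4 C2 C1 b034 b023 b013 b024 b014 b012 b234 b134 b123 b124 +
     pt C0 C4 C1 C2 C3 b014 b024 b034 b012 b013 b023 b124 b134 b234 b123 +
     pt C0 C4 C1 C3 C2 b014 b034 b024 b013 b012 b023 b134 b124 b234 b123 +
     pt C0 C4 C2 C1 C3 b024 b014 b034 b012 b023 b013 b124 b234 b134 b123 +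
     pt C0 C4 C2 C3 C1 b024 b034 b014 b023 b012 b013 b234 b124 b134 b123 +
     pt C0 C4 C3 C1 C2 b034 b014 b024 b013 b023 b012 b134 b234 b124 b123 +
     pt C0 C4 C3 C2 C1 b034 b024 b014 b023 b013 b012 b234 b134 b124 b123) +
    (pt C1 C0 C2 C3 C4 b012 b013 b014 b123 b124 b134 b023 b024 b034 b234 +
     pt C1 C0 C2 C4 C3 b012 b014 b013 b124 b123 b134 b024 b023 b034 b234 +
     pt C1 C0 C3 C2 C4 b013 b012 b014 b123 b134 b124 b023 b034 b024 b234 +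
     pt C1 C0 C3 C4 C2 b013 b014 b012 b134 b123 b124 b034 b023 b024 b234 +
     pt C1 C0 C4 C2 C3 b014 b012 b013 b124 b134 b123 b024 b034 b023 b234 +
     pt C1 C0 C4 C3 C2 b014 b013 b012 b134 b124 b123 b034 b024 b023 b234 +
     pt C1 C2 C0 C3 C4 b012 b123 b124 b013 b014 b134 b023 b024 b234 b034 +
     pt C1 C2 C0 C4 C3 b012 b124 b123 b014 b013 b134 b024 b023 b234 b034 +
     pt C1 C2 C3 C0 C4 b123 b012 b124 b013 b134 b014 b023 b234 b024 b034 +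
     pt C1 C2 C3 C4 C0 b123 b124 b012 b134 b013 b014 b234 b023 b024 b034 +
     pt C1 C2 C4 C0 C3 b124 b012 b123 b014 b134 b013 b024 b234 b023 b034 +
     pt C1 C2 C4 C3 C0 b124 b123 b012 b134 b014 b013 b234 b024 b023 b034) +
    (pt C1 C3 C0 C2 C4 b013 b123 b134 b012 b014 b124 b023 b034 b234 b024 +
     pt C1 C3 C0 C4 C2 b013 b134 b123 b014 b012 b124 b034 b023 b234 b024 +
     pt C1 C3 C2 C0 C4 b123 b013 b134 b012 b124 b014 b023 b234 b034 b024 +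
     pt C1 C3 C2 C4 C0 b123 b134 b013 b124 b012 b014 b234 b023 b034 b024 +
     pt C1 C3 C4 C0 C2 b134 b013 b123 b014 b124 b012 b034 b234 b023 b024 +
     pt C1 C3 C4 C2 C0 b134 b123 b013 b124 b014 b012 b234 b034 b023 b024 +
     pt C1 C4 C0 C2 C3 b014 b124 b134 b012 b013 b123 b024 b034 b234 b023 +
     pt C1 C4 C0 C3 C2 b014 b134 b124 b013 b012 b123 b034 b024 b234 b023 +
     pt C1 C4 C2 C0 C3 b124 b014 b134 b012 b123 b013 b024 b234 b034 b023 +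
     pt C1 C4 C2 C3 C0 b124 b134 b014 b123 b012 b013 b234 b024 b034 b023 +
     pt C1 C4 C3 C0 C2 b134 b014 b124 b013 b123 b012 b034 b234 b024 b023 +
     pt C1 C4 C3 C2 C0 b134 b124 b014 b123 b013 b012 b234 b034 b024 b023) +
    (pt C2 C0 C1 C3 C4 b012 b023 b024 b123 b124 b234 b013 b014 b034 b134 +
     pt C2 C0 C1 C4 C3 b012 b024 b023 b124 b123 b234 b014 b013 b034 b134 +
     pt C2 C0 C3 C1 C4 b023 b012 b024 b123 b234 b124 b013 b034 b014 b134 +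
     pt C2 C0 C3 C4 C1 b023 b024 b012 b234 b123 b124 b034 b013 b014 b134 +
     pt C2 C0 C4 C1 C3 b024 b012 b023 b124 b234 b123 b014 b034 b013 b134 +
     pt C2 C0 C4 C3 C1 b024 b023 b012 b234 b124 b123 b034 b014 b013 b134 +
     pt C2 C1 C0 C3 C4 b012 b123 b124 b023 b024 b234 b013 b014 b134 b034 +
     pt C2 C1 C0 C4 C3 b012 b124 b123 b024 b023 b234 b014 b013 b134 b034 +
     pt C2 C1 C3 C0 C4 b123 b012 b124 b023 b234 b024 b013 b134 b014 b034 +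
     pt C2 C1 C3 C4 C0 b123 b124 b012 b234 b023 b024 b134 b013 b014 b034 +
     pt C2 C1 C4 C0 C3 b124 b012 b123 b024 b234 b023 b014 b134 b013 b034 +
     pt C2 C1 C4 C3 C0 b124 b123 b012 b234 b024 b023 b134 b014 b013 b034) +
    (pt C2 C3 C0 C1 C4 b023 b123 b234 b012 b024 b124 b013 b034 b134 b014 +
     pt C2 C3 C0 C4 C1 b023 b234 b123 b024 b012 b124 b034 b013 b134 b014 +
     pt C2 C3 C1 C0 C4 b123 b023 b234 b012 b124 b024 b013 b134 b034 b014 +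
     pt C2 C3 C1 C4 C0 b123 b234 b023 b124 b012 b024 b134 b013 b034 b014 +
     pt C2 C3 C4 C0 C1 b234 b023 b123 b024 b124 b012 b034 b134 b013 b014 +
     pt C2 C3 C4 C1 C0 b234 b123 b023 b124 b024 b012 b134 b034 b013 b014 +
     pt C2 C4 C0 C1 C3 b024 b124 b234 b012 b023 b123 b014 b034 b134 b013 +
     pt C2 C4 C0 C3 C1 b024 b234 b124 b023 b012 b123 b034 b014 b134 b013 +
     pt C2 C4 C1 C0 C3 b124 b024 b234 b012 b123 b023 b014 b134 b034 b013 +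
     pt C2 C4 C1 C3 C0 b124 b234 b024 b123 b012 b023 b134 b014 b034 b013 +
     pt C2 C4 C3 C0 C1 b234 b024 b124 b023 b123 b012 b034 b134 b014 b013 +
     pt C2 C4 C3 C1 C0 b234 b124 b024 b123 b023 b012 b134 b034 b014 b013) +
    (pt C3 C0 C1 C2 C4 b013 b023 b034 b123 b134 b234 b012 b014 b024 b124 +
     pt C3 C0 C1 C4 C2 b013 b034 b023 b134 b123 b234 b014 b012 b024 b124 +
     pt C3 C0 C2 C1 C4 b023 b013 b034 b123 b234 b134 b012 b024 b014 b124 +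
     pt C3 C0 C2 C4 C1 b023 b034 b013 b234 b123 b134 b024 b012 b014 b124 +
     pt C3 C0 C4 C1 C2 b034 b013 b023 b134 b234 b123 b014 b024 b012 b124 +
     pt C3 C0 C4 C2 C1 b034 b023 b013 b234 b134 b123 b024 b014 b012 b124 +
     pt C3 C1 C0 C2 C4 b013 b123 b134 b023 b034 b234 b012 b014 b124 b024 +
     pt C3 C1 C0 C4 C2 b013 b134 b123 b034 b023 b234 b014 b012 b124 b024 +
     pt C3 C1 C2 C0 C4 b123 b013 b134 b023 b234 b034 b012 b124 b014 b024 +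
     pt C3 C1 C2 C4 C0 b123 b134 b013 b234 b023 b034 b124 b012 b014 b024 +
     pt C3 C1 C4 C0 C2 b134 b013 b123 b034 b234 b023 b014 b124 b012 b024 +
     pt C3 C1 C4 C2 C0 b134 b123 b013 b234 b034 b023 b124 b014 b012 b024) +
    (pt C3 C2 C0 C1 C4 b023 b123 b234 b013 b034 b134 b012 b024 b124 b014 +
     pt C3 C2 C0 C4 C1 b023 b234 b123 b034 b013 b134 b024 b012 b124 b014 +
     pt C3 C2 C1 C0 C4 b123 b023 b234 b013 b134 b034 b012 b124 b024 b014 +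
     pt C3 C2 C1 C4 C0 b123 b234 b023 b134 b013 b034 b124 b012 b024 b014 +
     pt C3 C2 C4 C0 C1 b234 b023 b123 b034 b134 b013 b024 b124 b012 b014 +
     pt C3 C2 C4 C1 C0 b234 b123 b023 b134 b034 b013 b124 b024 b012 b014 +
     pt C3 C4 C0 C1 C2 b034 b134 b234 b013 b023 b123 b014 b024 b124 b012 +
     pt C3 C4 C0 C2 C1 b034 b234 b134 b023 b013 b123 b024 b014 b124 b012 +
     pt C3 C4 C1 C0 C2 b134 b034 b234 b013 b123 b023 b014 b124 b024 b012 +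
     pt C3 C4 C1 C2 C0 b134 b234 b034 b123 b013 b023 b124 b014 b024 b012 +
     pt C3 C4 C2 C0 C1 b234 b034 b134 b023 b123 b013 b024 b124 b014 b012 +
     pt C3 C4 C2 C1 C0 b234 b134 b034 b123 b023 b013 b124 b024 b014 b012) +
    (pt C4 C0 C1 C2 C3 b014 b024 b034 b124 b134 b234 b012 b013 b023 b123 +
     pt C4 C0 C1 C3 C2 b014 b034 b024 b134 b124 b234 b013 b012 b023 b123 +
     pt C4 C0 C2 C1 C3 b024 b014 b034 b124 b234 b134 b012 b023 b013 b123 +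
     pt C4 C0 C2 C3 C1 b024 b034 b014 b234 b124 b134 b023 b012 b013 b123 +
     pt C4 C0 C3 C1 C2 b034 b014 b024 b134 b234 b124 b013 b023 b012 b123 +
     pt C4 C0 C3 C2 C1 b034 b024 b014 b234 b134 b124 b023 b013 b012 b123 +
     pt C4 C1 C0 C2 C3 b014 b124 b134 b024 b034 b234 b012 b013 b123 b023 +
     pt C4 C1 C0 C3 C2 b014 b134 b124 b034 b024 b234 b013 b012 b123 b023 +
     pt C4 C1 C2 C0 C3 b124 b014 b134 b024 b234 b034 b012 b123 b013 b023 +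
     pt C4 C1 C2 C3 C0 b124 b134 b014 b234 b024 b034 b123 b012 b013 b023 +
     pt C4 C1 C3 C0 C2 b134 b014 b124 b034 b234 b024 b013 b123 b012 b023 +
     pt C4 C1 C3 C2 C0 b134 b124 b014 b234 b034 b024 b123 b013 b012 b023) +
    (pt C4 C2 C0 C1 C3 b024 b124 b234 b014 b034 b134 b012 b023 b123 b013 +
     pt C4 C2 C0 C3 C1 b024 b234 b124 b034 b014 b134 b023 b012 b123 b013 +
     pt C4 C2 C1 C0 C3 b124 b024 b234 b014 b134 b034 b012 b123 b023 b013 +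
     pt C4 C2 C1 C3 C0 b124 b234 b024 b134 b014 b034 b123 b012 b023 b013 +
     pt C4 C2 C3 C0 C1 b234 b024 b124 b034 b134 b014 b023 b123 b012 b013 +
     pt C4 C2 C3 C1 C0 b234 b124 b024 b134 b034 b014 b123 b023 b012 b013 +
     pt C4 C3 C0 C1 C2 b034 b134 b234 b014 b024 b124 b013 b023 b123 b012 +
     pt C4 C3 C0 C2 C1 b034 b234 b134 b024 b014 b124 b023 b013 b123 b012 +
     pt C4 C3 C1 C0 C2 b134 b034 b234 b014 b124 b024 b013 b123 b023 b012 +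
     pt C4 C3 C1 C2 C0 b134 b234 b034 b124 b014 b024 b123 b013 b023 b012 +
     pt C4 C3 C2 C0 C1 b234 b034 b134 b024 b124 b014 b023 b123 b013 b012 +
     pt C4 C3 C2 C1 C0 b234 b134 b034 b124 b024 b014 b123 b023 b013 b012)

variable {V : Type*}

def v3 (val : ℕ → ℕ → ℕ → ℕ) (c : V → ℕ) (e : V → V → V → ℕ) (a b d u v : V) : ℕ :=
  w3 val (c a) (c b) (c d) (c u) (c v) (e a b d) (e a b u) (e a d u) (e b d u) (e a b v)
    (e a d v) (e b d v)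

def v1 (val : ℕ → ℕ → ℕ → ℕ) (c : V → ℕ) (e : V → V → V → ℕ) (a y z u w : V) : ℕ :=
  w1 val (c a) (c y) (c z) (e a y z) (c u) (c w) (e a u w)

def pg (pt : Pat) (c : V → ℕ) (e : V → V → V → ℕ) (x0 x1 x2 x3 x4 : V) : ℕ :=
  pt (c x0) (c x1) (c x2) (c x3) (c x4) (e x0 x1 x2) (e x0 x1 x3) (e x0 x1 x4) (e x0 x2 x3) (e x0 x2 x4) (e x0 x3 x4) (e x1 x2 x3) (e x1 x2 x4) (e x1 x3 x4) (e x2 x3 x4)

theorem F10_eq (val : ℕ → ℕ → ℕ → ℕ) (W : ℕ) (c : V → ℕ) (e : V → V → V → ℕ)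
    (s1 : ∀ x y z, e x y z = e y x z) (s2 : ∀ x y z, e x y z = e x z y) (x0 x1 x2 x3 x4 : V) :
    F10 val W (c x0) (c x1) (c x2) (c x3) (c x4)
      (e x0 x1 x2) (e x0 x1 x3) (e x0 x1 x4) (e x0 x2 x3) (e x0 x2 x4) (e x0 x3 x4) (e x1 x2 x3) (e x1 x2 x4) (e x1 x3 x4) (e x2 x3 x4) =
    S60 (v3 val c e) x0 x1 x2 x3 x4 + S15 (v1 val c e) x0 x1 x2 x3 x4 +
      9 * W * S10 e x0 x1 x2 x3 x4 := by
  have q021 : e x0 x2 x1 = e x0 x1 x2 := s2 _ _ _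
  have q102 : e x1 x0 x2 = e x0 x1 x2 := s1 _ _ _
  have q120 : e x1 x2 x0 = e x0 x1 x2 := (s2 _ _ _).trans (s1 _ _ _)
  have q201 : e x2 x0 x1 = e x0 x1 x2 := (s1 _ _ _).trans (s2 _ _ _)
  have q210 : e x2 x1 x0 = e x0 x1 x2 := (s2 _ _ _).trans ((s1 _ _ _).trans (s2 _ _ _))
  have q031 : e x0 x3 x1 = e x0 x1 x3 := s2 _ _ _
  have q103 : e x1 x0 x3 = e x0 x1 x3 := s1 _ _ _
  have q130 : e x1 x3 x0 = e x0 x1 x3 := (s2 _ _ _).trans (s1 _ _ _)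
  have q301 : e x3 x0 x1 = e x0 x1 x3 := (s1 _ _ _).trans (s2 _ _ _)
  have q310 : e x3 x1 x0 = e x0 x1 x3 := (s2 _ _ _).trans ((s1 _ _ _).trans (s2 _ _ _))
  have q041 : e x0 x4 x1 = e x0 x1 x4 := s2 _ _ _
  have q104 : e x1 x0 x4 = e x0 x1 x4 := s1 _ _ _
  have q140 : e x1 x4 x0 = e x0 x1 x4 := (s2 _ _ _).trans (s1 _ _ _)
  have q401 : e x4 x0 x1 = e x0 x1 x4 := (s1 _ _ _).trans (s2 _ _ _)
  have q410 : e x4 x1 x0 = e x0 x1 x4 := (s2 _ _ _).trans ((s1 _ _ _).trans (s2 _ _ _))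
  have q032 : e x0 x3 x2 = e x0 x2 x3 := s2 _ _ _
  have q203 : e x2 x0 x3 = e x0 x2 x3 := s1 _ _ _
  have q230 : e x2 x3 x0 = e x0 x2 x3 := (s2 _ _ _).trans (s1 _ _ _)
  have q302 : e x3 x0 x2 = e x0 x2 x3 := (s1 _ _ _).trans (s2 _ _ _)
  have q320 : e x3 x2 x0 = e x0 x2 x3 := (s2 _ _ _).trans ((s1 _ _ _).trans (s2 _ _ _))
  have q042 : e x0 x4 x2 = e x0 x2 x4 := s2 _ _ _
  have q204 : e x2 x0 x4 = e x0 x2 x4 := s1 _ _ _
  have q240 : e x2 x4 x0 = e x0 x2 x4 := (s2 _ _ _).trans (s1 _ _ _)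
  have q402 : e x4 x0 x2 = e x0 x2 x4 := (s1 _ _ _).trans (s2 _ _ _)
  have q420 : e x4 x2 x0 = e x0 x2 x4 := (s2 _ _ _).trans ((s1 _ _ _).trans (s2 _ _ _))
  have q043 : e x0 x4 x3 = e x0 x3 x4 := s2 _ _ _
  have q304 : e x3 x0 x4 = e x0 x3 x4 := s1 _ _ _
  have q340 : e x3 x4 x0 = e x0 x3 x4 := (s2 _ _ _).trans (s1 _ _ _)
  have q403 : e x4 x0 x3 = e x0 x3 x4 := (s1 _ _ _).trans (s2 _ _ _)
  have q430 : e x4 x3 x0 = e x0 x3 x4 := (s2 _ _ _).trans ((s1 _ _ _).trans (s2 _ _ _))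
  have q132 : e x1 x3 x2 = e x1 x2 x3 := s2 _ _ _
  have q213 : e x2 x1 x3 = e x1 x2 x3 := s1 _ _ _
  have q231 : e x2 x3 x1 = e x1 x2 x3 := (s2 _ _ _).trans (s1 _ _ _)
  have q312 : e x3 x1 x2 = e x1 x2 x3 := (s1 _ _ _).trans (s2 _ _ _)
  have q321 : e x3 x2 x1 = e x1 x2 x3 := (s2 _ _ _).trans ((s1 _ _ _).trans (s2 _ _ _))
  have q142 : e x1 x4 x2 = e x1 x2 x4 := s2 _ _ _
  have q214 : e x2 x1 x4 = e x1 x2 x4 := s1 _ _ _
  have q241 : e x2 x4 x1 = e x1 x2 x4 := (s2 _ _ _).trans (s1 _ _ _)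
  have q412 : e x4 x1 x2 = e x1 x2 x4 := (s1 _ _ _).trans (s2 _ _ _)
  have q421 : e x4 x2 x1 = e x1 x2 x4 := (s2 _ _ _).trans ((s1 _ _ _).trans (s2 _ _ _))
  have q143 : e x1 x4 x3 = e x1 x3 x4 := s2 _ _ _
  have q314 : e x3 x1 x4 = e x1 x3 x4 := s1 _ _ _
  have q341 : e x3 x4 x1 = e x1 x3 x4 := (s2 _ _ _).trans (s1 _ _ _)
  have q413 : e x4 x1 x3 = e x1 x3 x4 := (s1 _ _ _).trans (s2 _ _ _)
  have q431 : e x4 x3 x1 = e x1 x3 x4 := (s2 _ _ _).trans ((s1 _ _ _).trans (s2 _ _ _))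
  have q243 : e x2 x4 x3 = e x2 x3 x4 := s2 _ _ _
  have q324 : e x3 x2 x4 = e x2 x3 x4 := s1 _ _ _
  have q342 : e x3 x4 x2 = e x2 x3 x4 := (s2 _ _ _).trans (s1 _ _ _)
  have q423 : e x4 x2 x3 = e x2 x3 x4 := (s1 _ _ _).trans (s2 _ _ _)
  have q432 : e x4 x3 x2 = e x2 x3 x4 := (s2 _ _ _).trans ((s1 _ _ _).trans (s2 _ _ _))
  simp only [F10, S60, S15, S10, v3, v1, q021, q102, q120, q201, q210, q031, q103, q130, q301, q310, q041, q104, q140, q401, q410,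
    q032, q203, q230, q302, q320, q042, q204, q240, q402, q420, q043, q304, q340, q403, q430,
    q132, q213, q231, q312, q321, q142, q214, q241, q412, q421, q143, q314, q341, q413, q431,
    q243, q324, q342, q423, q432]

theorem P10_eq (pt : Pat) (c : V → ℕ) (e : V → V → V → ℕ)
    (s1 : ∀ x y z, e x y z = e y x z) (s2 : ∀ x y z, e x y z = e x z y) (x0 x1 x2 x3 x4 : V) :
    P10 pt (c x0) (c x1) (c x2) (c x3) (c x4)
      (e x0 x1 x2) (e x0 x1 x3) (e x0 x1 x4) (e x0 x2 x3) (e x0 x2 x4) (e x0 x3 x4) (e x1 x2 x3) (e x1 x2 x4) (e x1 x3 x4) (e x2 x3 x4) =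
    S120 (pg pt c e) x0 x1 x2 x3 x4 := by
  have q021 : e x0 x2 x1 = e x0 x1 x2 := s2 _ _ _
  have q102 : e x1 x0 x2 = e x0 x1 x2 := s1 _ _ _
  have q120 : e x1 x2 x0 = e x0 x1 x2 := (s2 _ _ _).trans (s1 _ _ _)
  have q201 : e x2 x0 x1 = e x0 x1 x2 := (s1 _ _ _).trans (s2 _ _ _)
  have q210 : e x2 x1 x0 = e x0 x1 x2 := (s2 _ _ _).trans ((s1 _ _ _).trans (s2 _ _ _))
  have q031 : e x0 x3 x1 = e x0 x1 x3 := s2 _ _ _
  have q103 : e x1 x0 x3 = e x0 x1 x3 := s1 _ _ _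
  have q130 : e x1 x3 x0 = e x0 x1 x3 := (s2 _ _ _).trans (s1 _ _ _)
  have q301 : e x3 x0 x1 = e x0 x1 x3 := (s1 _ _ _).trans (s2 _ _ _)
  have q310 : e x3 x1 x0 = e x0 x1 x3 := (s2 _ _ _).trans ((s1 _ _ _).trans (s2 _ _ _))
  have q041 : e x0 x4 x1 = e x0 x1 x4 := s2 _ _ _
  have q104 : e x1 x0 x4 = e x0 x1 x4 := s1 _ _ _
  have q140 : e x1 x4 x0 = e x0 x1 x4 := (s2 _ _ _).trans (s1 _ _ _)
  have q401 : e x4 x0 x1 = e x0 x1 x4 := (s1 _ _ _).trans (s2 _ _ _)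
  have q410 : e x4 x1 x0 = e x0 x1 x4 := (s2 _ _ _).trans ((s1 _ _ _).trans (s2 _ _ _))
  have q032 : e x0 x3 x2 = e x0 x2 x3 := s2 _ _ _
  have q203 : e x2 x0 x3 = e x0 x2 x3 := s1 _ _ _
  have q230 : e x2 x3 x0 = e x0 x2 x3 := (s2 _ _ _).trans (s1 _ _ _)
  have q302 : e x3 x0 x2 = e x0 x2 x3 := (s1 _ _ _).trans (s2 _ _ _)
  have q320 : e x3 x2 x0 = e x0 x2 x3 := (s2 _ _ _).trans ((s1 _ _ _).trans (s2 _ _ _))
  have q042 : e x0 x4 x2 = e x0 x2 x4 := s2 _ _ _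
  have q204 : e x2 x0 x4 = e x0 x2 x4 := s1 _ _ _
  have q240 : e x2 x4 x0 = e x0 x2 x4 := (s2 _ _ _).trans (s1 _ _ _)
  have q402 : e x4 x0 x2 = e x0 x2 x4 := (s1 _ _ _).trans (s2 _ _ _)
  have q420 : e x4 x2 x0 = e x0 x2 x4 := (s2 _ _ _).trans ((s1 _ _ _).trans (s2 _ _ _))
  have q043 : e x0 x4 x3 = e x0 x3 x4 := s2 _ _ _
  have q304 : e x3 x0 x4 = e x0 x3 x4 := s1 _ _ _
  have q340 : e x3 x4 x0 = e x0 x3 x4 := (s2 _ _ _).trans (s1 _ _ _)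
  have q403 : e x4 x0 x3 = e x0 x3 x4 := (s1 _ _ _).trans (s2 _ _ _)
  have q430 : e x4 x3 x0 = e x0 x3 x4 := (s2 _ _ _).trans ((s1 _ _ _).trans (s2 _ _ _))
  have q132 : e x1 x3 x2 = e x1 x2 x3 := s2 _ _ _
  have q213 : e x2 x1 x3 = e x1 x2 x3 := s1 _ _ _
  have q231 : e x2 x3 x1 = e x1 x2 x3 := (s2 _ _ _).trans (s1 _ _ _)
  have q312 : e x3 x1 x2 = e x1 x2 x3 := (s1 _ _ _).trans (s2 _ _ _)
  have q321 : e x3 x2 x1 = e x1 x2 x3 := (s2 _ _ _).trans ((s1 _ _ _).trans (s2 _ _ _))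
  have q142 : e x1 x4 x2 = e x1 x2 x4 := s2 _ _ _
  have q214 : e x2 x1 x4 = e x1 x2 x4 := s1 _ _ _
  have q241 : e x2 x4 x1 = e x1 x2 x4 := (s2 _ _ _).trans (s1 _ _ _)
  have q412 : e x4 x1 x2 = e x1 x2 x4 := (s1 _ _ _).trans (s2 _ _ _)
  have q421 : e x4 x2 x1 = e x1 x2 x4 := (s2 _ _ _).trans ((s1 _ _ _).trans (s2 _ _ _))
  have q143 : e x1 x4 x3 = e x1 x3 x4 := s2 _ _ _
  have q314 : e x3 x1 x4 = e x1 x3 x4 := s1 _ _ _
  have q341 : e x3 x4 x1 = e x1 x3 x4 := (s2 _ _ _).trans (s1 _ _ _)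
  have q413 : e x4 x1 x3 = e x1 x3 x4 := (s1 _ _ _).trans (s2 _ _ _)
  have q431 : e x4 x3 x1 = e x1 x3 x4 := (s2 _ _ _).trans ((s1 _ _ _).trans (s2 _ _ _))
  have q243 : e x2 x4 x3 = e x2 x3 x4 := s2 _ _ _
  have q324 : e x3 x2 x4 = e x2 x3 x4 := s1 _ _ _
  have q342 : e x3 x4 x2 = e x2 x3 x4 := (s2 _ _ _).trans (s1 _ _ _)
  have q423 : e x4 x2 x3 = e x2 x3 x4 := (s1 _ _ _).trans (s2 _ _ _)
  have q432 : e x4 x3 x2 = e x2 x3 x4 := (s2 _ _ _).trans ((s1 _ _ _).trans (s2 _ _ _))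
  simp only [P10, S120, pg, q021, q102, q120, q201, q210, q031, q103, q130, q301, q310, q041, q104, q140, q401, q410,
    q032, q203, q230, q302, q320, q042, q204, q240, q402, q420, q043, q304, q340, q403, q430,
    q132, q213, q231, q312, q321, q142, q214, q241, q412, q421, q143, q314, q341, q413, q431,
    q243, q324, q342, q423, q432]

/-- Conjunction over the values 0 and 1 (only 0 if `i`). -/
def b2 (i : Bool) (f : ℕ → Bool) : Bool := f 0 && (i || f 1)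

theorem b2_elim {i : Bool} {f : ℕ → Bool} (h : b2 i f = true) {b : ℕ} (hb : b ≤ 1)
    (hi : i = true → b = 0) : f b = true := by
  unfold b2 at h
  rw [Bool.and_eq_true, Bool.or_eq_true] at h
  rcases Nat.le_one_iff_eq_zero_or_eq_one.1 hb with rfl | rfl
  · exact h.1
  · rcases h.2 with h2 | h2
    · exact absurd (hi h2) one_ne_zero
    · exact h2

/-- The three colours are equal. -/
def inn (a b d : ℕ) : Bool := Nat.beq a b && Nat.beq b d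

/-- The four triples are all edges. -/
def k4 (a b d u : ℕ) : Bool := Nat.beq (Nat.mul (Nat.mul a b) (Nat.mul d u)) 1

theorem or_elim' {x y : Bool} (h : (x || y) = true) (hx : ¬ x = true) : y = true := by
  rcases (Bool.or_eq_true x y).mp h with h1 | h1
  · exact absurd h1 hx
  · exact h1

/-- The inequality for one state. -/
def leaf (val : ℕ → ℕ → ℕ → ℕ) (W K lam : ℕ) (pt : Pat)
    (C0 C1 C2 C3 C4 b012 b013 b014 b023 b024 b034 b123 b124 b134 b234 : ℕ) : Bool :=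
  Nat.ble (F10 val W C0 C1 C2 C3 C4 b012 b013 b014 b023 b024 b034 b123 b124 b134 b234) K ||
  Nat.ble (F10 val W C0 C1 C2 C3 C4 b012 b013 b014 b023 b024 b034 b123 b124 b134 b234)
    (K + lam * P10 pt C0 C1 C2 C3 C4 b012 b013 b014 b023 b024 b034 b123 b124 b134 b234)

/-- The inequality for all states with the given colours. -/
def chk (ind : Bool) (val : ℕ → ℕ → ℕ → ℕ) (W K lam : ℕ) (pt : Pat) (C0 C1 C2 C3 C4 : ℕ) : Bool :=
  b2 (ind && inn C0 C1 C2) fun b012 =>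
  b2 (ind && inn C0 C1 C3) fun b013 =>
  b2 (ind && inn C0 C2 C3) fun b023 =>
  b2 (ind && inn C1 C2 C3) fun b123 =>
  (k4 b012 b013 b023 b123 || (
  b2 (ind && inn C0 C1 C4) fun b014 =>
  b2 (ind && inn C0 C2 C4) fun b024 =>
  b2 (ind && inn C1 C2 C4) fun b124 =>
  (k4 b012 b014 b024 b124 || (
  b2 (ind && inn C0 C3 C4) fun b034 =>
  b2 (ind && inn C1 C3 C4) fun b134 =>
  (k4 b013 b014 b034 b134 || (
  b2 (ind && inn C2 C3 C4) fun b234 =>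
  (k4 b023 b024 b034 b234 || (
  (k4 b123 b124 b134 b234 || (
  leaf val W K lam pt C0 C1 C2 C3 C4 b012 b013 b014 b023 b024 b034 b123 b124 b134 b234))))))))))

theorem chk_sound (ind : Bool) (val : ℕ → ℕ → ℕ → ℕ) (W K lam : ℕ) (pt : Pat)
    (C0 C1 C2 C3 C4 b012 b013 b014 b023 b024 b034 b123 b124 b134 b234 : ℕ)
    (h : chk ind val W K lam pt C0 C1 C2 C3 C4 = true)
    (h012 : b012 ≤ 1) (i012 : (ind && inn C0 C1 C2) = true → b012 = 0)
    (h013 : b013 ≤ 1) (i013 : (ind && inn C0 C1 C3) = true → b013 = 0)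
    (h023 : b023 ≤ 1) (i023 : (ind && inn C0 C2 C3) = true → b023 = 0)
    (h123 : b123 ≤ 1) (i123 : (ind && inn C1 C2 C3) = true → b123 = 0)
    (h014 : b014 ≤ 1) (i014 : (ind && inn C0 C1 C4) = true → b014 = 0)
    (h024 : b024 ≤ 1) (i024 : (ind && inn C0 C2 C4) = true → b024 = 0)
    (h124 : b124 ≤ 1) (i124 : (ind && inn C1 C2 C4) = true → b124 = 0)
    (h034 : b034 ≤ 1) (i034 : (ind && inn C0 C3 C4) = true → b034 = 0)
    (h134 : b134 ≤ 1) (i134 : (ind && inn C1 C3 C4) = true → b134 = 0)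
    (h234 : b234 ≤ 1) (i234 : (ind && inn C2 C3 C4) = true → b234 = 0)
    (k0123 : ¬ k4 b012 b013 b023 b123 = true)
    (k0124 : ¬ k4 b012 b014 b024 b124 = true)
    (k0134 : ¬ k4 b013 b014 b034 b134 = true)
    (k0234 : ¬ k4 b023 b024 b034 b234 = true)
    (k1234 : ¬ k4 b123 b124 b134 b234 = true) :
    F10 val W C0 C1 C2 C3 C4 b012 b013 b014 b023 b024 b034 b123 b124 b134 b234 ≤
      K + lam * P10 pt C0 C1 C2 C3 C4 b012 b013 b014 b023 b024 b034 b123 b124 b134 b234 := by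
  unfold chk at h
  replace h := b2_elim h h012 i012
  replace h := b2_elim h h013 i013
  replace h := b2_elim h h023 i023
  replace h := b2_elim h h123 i123
  replace h := or_elim' h k0123
  replace h := b2_elim h h014 i014
  replace h := b2_elim h h024 i024
  replace h := b2_elim h h124 i124
  replace h := or_elim' h k0124
  replace h := b2_elim h h034 i034
  replace h := b2_elim h h134 i134
  replace h := or_elim' h k0134
  replace h := b2_elim h h234 i234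
  replace h := or_elim' h k0234
  replace h := or_elim' h k1234
  unfold leaf at h
  rcases (Bool.or_eq_true _ _).mp h with h1 | h1
  · exact (Nat.le_of_ble_eq_true h1).trans (Nat.le_add_right _ _)
  · exact Nat.le_of_ble_eq_true h1

end Pool.Agent.Y439.Col
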