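import Pool.Agent.Y439.Col.Tri

set_option autoImplicit false

/-!
Certificates with multipliers for lower bounds on the transversal codegrees and upper bounds on the
codegrees inside the classes (partly generated).
-/

namespace Pool.Agent.Y439.Col
open Finset

/-- Sum over a pair of positions and a third position, the two others in increasing order. -/
def S30 {α : Type*} (h : α → α → α → α → α → ℕ) (x0 x1 x2 x3 x4 : α) : ℕ :=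
    (h x0 x1 x3 x4 x2 + h x0 x1 x2 x4 x3 + h x0 x1 x2 x3 x4 + h x0 x2 x3 x4 x1 +
     h x0 x2 x1 x4 x3 + h x0 x2 x1 x3 x4 + h x0 x3 x2 x4 x1 + h x0 x3 x1 x4 x2 +
     h x0 x3 x1 x2 x4 + h x0 x4 x2 x3 x1 + h x0 x4 x1 x3 x2 + h x0 x4 x1 x2 x3) +
    (h x1 x2 x3 x4 x0 + h x1 x2 x0 x4 x3 + h x1 x2 x0 x3 x4 + h x1 x3 x2 x4 x0 +
     h x1 x3 x0 x4 x2 + h x1 x3 x0 x2 x4 + h x1 x4 x2 x3 x0 + h x1 x4 x0 x3 x2 +
     h x1 x4 x0 x2 x3 + h x2 x3 x1 x4 x0 + h x2 x3 x0 x4 x1 + h x2 x3 x0 x1 x4) +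
    (h x2 x4 x1 x3 x0 + h x2 x4 x0 x3 x1 + h x2 x4 x0 x1 x3 + h x3 x4 x1 x2 x0 +
     h x3 x4 x0 x2 x1 + h x3 x4 x0 x1 x2)

theorem S30_sw0 {α : Type*} (h : α → α → α → α → α → ℕ)
    (h1 : ∀ x y u w z, h x y u w z = h y x u w z) (h2 : ∀ x y u w z, h x y u w z = h x y w u z)
    (x0 x1 x2 x3 x4 : α) : S30 h x1 x0 x2 x3 x4 = S30 h x0 x1 x2 x3 x4 := by
  simp only [S30, fun u w z => h1 x1 x0 u w z, fun x y z => h2 x y x1 x0 z]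
  ring

theorem S30_sw1 {α : Type*} (h : α → α → α → α → α → ℕ)
    (h1 : ∀ x y u w z, h x y u w z = h y x u w z) (h2 : ∀ x y u w z, h x y u w z = h x y w u z)
    (x0 x1 x2 x3 x4 : α) : S30 h x0 x2 x1 x3 x4 = S30 h x0 x1 x2 x3 x4 := by
  simp only [S30, fun u w z => h1 x2 x1 u w z, fun x y z => h2 x y x2 x1 z]
  ring

theorem S30_sw2 {α : Type*} (h : α → α → α → α → α → ℕ)
    (h1 : ∀ x y u w z, h x y u w z = h y x u w z) (h2 : ∀ x y u w z, h x y u w z = h x y w u z)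
    (x0 x1 x2 x3 x4 : α) : S30 h x0 x1 x3 x2 x4 = S30 h x0 x1 x2 x3 x4 := by
  simp only [S30, fun u w z => h1 x3 x2 u w z, fun x y z => h2 x y x3 x2 z]
  ring

theorem S30_sw3 {α : Type*} (h : α → α → α → α → α → ℕ)
    (h1 : ∀ x y u w z, h x y u w z = h y x u w z) (h2 : ∀ x y u w z, h x y u w z = h x y w u z)
    (x0 x1 x2 x3 x4 : α) : S30 h x0 x1 x2 x4 x3 = S30 h x0 x1 x2 x3 x4 := by
  simp only [S30, fun u w z => h1 x4 x3 u w z, fun x y z => h2 x y x4 x3 z]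
  ring

theorem sum_S30 {V : Type*} [Fintype V] (h : V → V → V → V → V → ℕ) :
    ∑ x : Fin 5 → V, S30 h (x 0) (x 1) (x 2) (x 3) (x 4) =
      30 * ∑ x : Fin 5 → V, h (x 0) (x 1) (x 2) (x 3) (x 4) := by
  have r := fun (p : Fin 5 → Fin 5) (hp : Function.Injective p) =>
    reidx (fun x : Fin 5 → V => h (x 0) (x 1) (x 2) (x 3) (x 4)) p hp
  have h0 : ∑ x : Fin 5 → V, h (x 0) (x 1) (x 3) (x 4) (x 2) =
      ∑ x : Fin 5 → V, h (x 0) (x 1) (x 2) (x 3) (x 4) := r ![0,1,3,4,2] (by decide)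
  have h1 : ∑ x : Fin 5 → V, h (x 0) (x 1) (x 2) (x 4) (x 3) =
      ∑ x : Fin 5 → V, h (x 0) (x 1) (x 2) (x 3) (x 4) := r ![0,1,2,4,3] (by decide)
  have h3 : ∑ x : Fin 5 → V, h (x 0) (x 2) (x 3) (x 4) (x 1) =
      ∑ x : Fin 5 → V, h (x 0) (x 1) (x 2) (x 3) (x 4) := r ![0,2,3,4,1] (by decide)
  have h4 : ∑ x : Fin 5 → V, h (x 0) (x 2) (x 1) (x 4) (x 3) =
      ∑ x : Fin 5 → V, h (x 0) (x 1) (x 2) (x 3) (x 4) := r ![0,2,1,4,3] (by decide)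
  have h5 : ∑ x : Fin 5 → V, h (x 0) (x 2) (x 1) (x 3) (x 4) =
      ∑ x : Fin 5 → V, h (x 0) (x 1) (x 2) (x 3) (x 4) := r ![0,2,1,3,4] (by decide)
  have h6 : ∑ x : Fin 5 → V, h (x 0) (x 3) (x 2) (x 4) (x 1) =
      ∑ x : Fin 5 → V, h (x 0) (x 1) (x 2) (x 3) (x 4) := r ![0,3,2,4,1] (by decide)
  have h7 : ∑ x : Fin 5 → V, h (x 0) (x 3) (x 1) (x 4) (x 2) =
      ∑ x : Fin 5 → V, h (x 0) (x 1) (x 2) (x 3) (x 4) := r ![0,3,1,4,2] (by decide)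
  have h8 : ∑ x : Fin 5 → V, h (x 0) (x 3) (x 1) (x 2) (x 4) =
      ∑ x : Fin 5 → V, h (x 0) (x 1) (x 2) (x 3) (x 4) := r ![0,3,1,2,4] (by decide)
  have h9 : ∑ x : Fin 5 → V, h (x 0) (x 4) (x 2) (x 3) (x 1) =
      ∑ x : Fin 5 → V, h (x 0) (x 1) (x 2) (x 3) (x 4) := r ![0,4,2,3,1] (by decide)
  have h10 : ∑ x : Fin 5 → V, h (x 0) (x 4) (x 1) (x 3) (x 2) =
      ∑ x : Fin 5 → V, h (x 0) (x 1) (x 2) (x 3) (x 4) := r ![0,4,1,3,2] (by decide)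
  have h11 : ∑ x : Fin 5 → V, h (x 0) (x 4) (x 1) (x 2) (x 3) =
      ∑ x : Fin 5 → V, h (x 0) (x 1) (x 2) (x 3) (x 4) := r ![0,4,1,2,3] (by decide)
  have h12 : ∑ x : Fin 5 → V, h (x 1) (x 2) (x 3) (x 4) (x 0) =
      ∑ x : Fin 5 → V, h (x 0) (x 1) (x 2) (x 3) (x 4) := r ![1,2,3,4,0] (by decide)
  have h13 : ∑ x : Fin 5 → V, h (x 1) (x 2) (x 0) (x 4) (x 3) =
      ∑ x : Fin 5 → V, h (x 0) (x 1) (x 2) (x 3) (x 4) := r ![1,2,0,4,3] (by decide)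
  have h14 : ∑ x : Fin 5 → V, h (x 1) (x 2) (x 0) (x 3) (x 4) =
      ∑ x : Fin 5 → V, h (x 0) (x 1) (x 2) (x 3) (x 4) := r ![1,2,0,3,4] (by decide)
  have h15 : ∑ x : Fin 5 → V, h (x 1) (x 3) (x 2) (x 4) (x 0) =
      ∑ x : Fin 5 → V, h (x 0) (x 1) (x 2) (x 3) (x 4) := r ![1,3,2,4,0] (by decide)
  have h16 : ∑ x : Fin 5 → V, h (x 1) (x 3) (x 0) (x 4) (x 2) =
      ∑ x : Fin 5 → V, h (x 0) (x 1) (x 2) (x 3) (x 4) := r ![1,3,0,4,2] (by decide)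
  have h17 : ∑ x : Fin 5 → V, h (x 1) (x 3) (x 0) (x 2) (x 4) =
      ∑ x : Fin 5 → V, h (x 0) (x 1) (x 2) (x 3) (x 4) := r ![1,3,0,2,4] (by decide)
  have h18 : ∑ x : Fin 5 → V, h (x 1) (x 4) (x 2) (x 3) (x 0) =
      ∑ x : Fin 5 → V, h (x 0) (x 1) (x 2) (x 3) (x 4) := r ![1,4,2,3,0] (by decide)
  have h19 : ∑ x : Fin 5 → V, h (x 1) (x 4) (x 0) (x 3) (x 2) =
      ∑ x : Fin 5 → V, h (x 0) (x 1) (x 2) (x 3) (x 4) := r ![1,4,0,3,2] (by decide)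
  have h20 : ∑ x : Fin 5 → V, h (x 1) (x 4) (x 0) (x 2) (x 3) =
      ∑ x : Fin 5 → V, h (x 0) (x 1) (x 2) (x 3) (x 4) := r ![1,4,0,2,3] (by decide)
  have h21 : ∑ x : Fin 5 → V, h (x 2) (x 3) (x 1) (x 4) (x 0) =
      ∑ x : Fin 5 → V, h (x 0) (x 1) (x 2) (x 3) (x 4) := r ![2,3,1,4,0] (by decide)
  have h22 : ∑ x : Fin 5 → V, h (x 2) (x 3) (x 0) (x 4) (x 1) =
      ∑ x : Fin 5 → V, h (x 0) (x 1) (x 2) (x 3) (x 4) := r ![2,3,0,4,1] (by decide)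
  have h23 : ∑ x : Fin 5 → V, h (x 2) (x 3) (x 0) (x 1) (x 4) =
      ∑ x : Fin 5 → V, h (x 0) (x 1) (x 2) (x 3) (x 4) := r ![2,3,0,1,4] (by decide)
  have h24 : ∑ x : Fin 5 → V, h (x 2) (x 4) (x 1) (x 3) (x 0) =
      ∑ x : Fin 5 → V, h (x 0) (x 1) (x 2) (x 3) (x 4) := r ![2,4,1,3,0] (by decide)
  have h25 : ∑ x : Fin 5 → V, h (x 2) (x 4) (x 0) (x 3) (x 1) =
      ∑ x : Fin 5 → V, h (x 0) (x 1) (x 2) (x 3) (x 4) := r ![2,4,0,3,1] (by decide)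
  have h26 : ∑ x : Fin 5 → V, h (x 2) (x 4) (x 0) (x 1) (x 3) =
      ∑ x : Fin 5 → V, h (x 0) (x 1) (x 2) (x 3) (x 4) := r ![2,4,0,1,3] (by decide)
  have h27 : ∑ x : Fin 5 → V, h (x 3) (x 4) (x 1) (x 2) (x 0) =
      ∑ x : Fin 5 → V, h (x 0) (x 1) (x 2) (x 3) (x 4) := r ![3,4,1,2,0] (by decide)
  have h28 : ∑ x : Fin 5 → V, h (x 3) (x 4) (x 0) (x 2) (x 1) =
      ∑ x : Fin 5 → V, h (x 0) (x 1) (x 2) (x 3) (x 4) := r ![3,4,0,2,1] (by decide)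
  have h29 : ∑ x : Fin 5 → V, h (x 3) (x 4) (x 0) (x 1) (x 2) =
      ∑ x : Fin 5 → V, h (x 0) (x 1) (x 2) (x 3) (x 4) := r ![3,4,0,1,2] (by decide)
  simp only [S30, sum_add_distrib]
  simp only [h0, h1, h3, h4, h5, h6, h7, h8, h9, h10, h11, h12, h13, h14, h15, h16, h17, h18, h19, h20, h21, h22, h23, h24, h25, h26, h27, h28, h29]
  ring

/-- Kind of a vertex `z` relative to a pair `x y`: 1 and 2 for an edge and a non-edge in the third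
class of a pair from two classes, 3 and 4 for a non-edge and an edge inside the class of a pair. -/
def kind : ℕ → ℕ → ℕ → ℕ
  | 0, 0, 0 => 3
  | 0, 0, _ + 1 => 4
  | 1, 2, 0 => 2
  | 1, 2, _ + 1 => 1
  | 2, 1, 0 => 2
  | 2, 1, _ + 1 => 1
  | _, _, _ => 0

/-- Index of a four-vertex state with a marked pair. -/
def mix (ry ru rw b1 b2 b3 b4 : ℕ) : ℕ :=
  Nat.add (Nat.mul 16 (Nat.add (Nat.mul 3 (Nat.add (Nat.mul 3 ry) ru)) rw))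
    (Nat.add (Nat.add b1 (Nat.mul 2 b2)) (Nat.add (Nat.mul 4 b3) (Nat.mul 8 b4)))

/-- The contribution of kind `k` with multiplier `t`, shifted by `O`. -/
def mk' (O p q r s t : ℕ) : ℕ → ℕ
  | 1 => Nat.add O (Nat.mul t p)
  | 2 => Nat.sub O (Nat.mul t q)
  | 3 => Nat.add O (Nat.mul t r)
  | 4 => Nat.sub O (Nat.mul t s)
  | _ => O

def mq (mt : ℕ → ℕ) (O p q r s cx cy cu cw cz b1 b2 b3 b4 e : ℕ) : ℕ :=
  mk' O p q r s (mt (mix (rc cx cy) (rc cx cu) (rc cx cw) b1 b2 b3 b4))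
    (kind (rc cx cy) (rc cx cz) e)

def M30 (mv : ℕ → ℕ → ℕ → ℕ → ℕ → ℕ → ℕ → ℕ → ℕ → ℕ → ℕ)
    (C0 C1 C2 C3 C4 b012 b013 b014 b023 b024 b034 b123 b124 b134 b234 : ℕ) : ℕ :=
    (mv C0 C1 C3 C4 C2 b013 b014 b034 b134 b012 + mv C0 C1 C2 C4 C3 b012 b014 b024 b124 b013 +
     mv C0 C1 C2 C3 C4 b012 b013 b023 b123 b014 + mv C0 C2 C3 C4 C1 b023 b024 b034 b234 b012 +
     mv C0 C2 C1 C4 C3 b012 b024 b014 b124 b023 + mv C0 C2 C1 C3 C4 b012 b023 b013 b123 b024 +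
     mv C0 C3 C2 C4 C1 b023 b034 b024 b234 b013 + mv C0 C3 C1 C4 C2 b013 b034 b014 b134 b023 +
     mv C0 C3 C1 C2 C4 b013 b023 b012 b123 b034 + mv C0 C4 C2 C3 C1 b024 b034 b023 b234 b014 +
     mv C0 C4 C1 C3 C2 b014 b034 b013 b134 b024 + mv C0 C4 C1 C2 C3 b014 b024 b012 b124 b034) +
    (mv C1 C2 C3 C4 C0 b123 b124 b134 b234 b012 + mv C1 C2 C0 C4 C3 b012 b124 b014 b024 b123 +
     mv C1 C2 C0 C3 C4 b012 b123 b013 b023 b124 + mv C1 C3 C2 C4 C0 b123 b134 b124 b234 b013 +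
     mv C1 C3 C0 C4 C2 b013 b134 b014 b034 b123 + mv C1 C3 C0 C2 C4 b013 b123 b012 b023 b134 +
     mv C1 C4 C2 C3 C0 b124 b134 b123 b234 b014 + mv C1 C4 C0 C3 C2 b014 b134 b013 b034 b124 +
     mv C1 C4 C0 C2 C3 b014 b124 b012 b024 b134 + mv C2 C3 C1 C4 C0 b123 b234 b124 b134 b023 +
     mv C2 C3 C0 C4 C1 b023 b234 b024 b034 b123 + mv C2 C3 C0 C1 C4 b023 b123 b012 b013 b234) +
    (mv C2 C4 C1 C3 C0 b124 b234 b123 b134 b024 + mv C2 C4 C0 C3 C1 b024 b234 b023 b034 b124 +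
     mv C2 C4 C0 C1 C3 b024 b124 b012 b014 b234 + mv C3 C4 C1 C2 C0 b134 b234 b123 b124 b034 +
     mv C3 C4 C0 C2 C1 b034 b234 b023 b024 b134 + mv C3 C4 C0 C1 C2 b034 b134 b013 b014 b234)

variable {V : Type*}

def mg (mv : ℕ → ℕ → ℕ → ℕ → ℕ → ℕ → ℕ → ℕ → ℕ → ℕ → ℕ) (c : V → ℕ) (e : V → V → V → ℕ)
    (x y u w z : V) : ℕ :=
  mv (c x) (c y) (c u) (c w) (c z) (e x y u) (e x y w) (e x u w) (e y u w) (e x y z)

theorem M30_eq (mv : ℕ → ℕ → ℕ → ℕ → ℕ → ℕ → ℕ → ℕ → ℕ → ℕ → ℕ)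
    (c : V → ℕ) (e : V → V → V → ℕ)
    (s1 : ∀ x y z, e x y z = e y x z) (s2 : ∀ x y z, e x y z = e x z y) (x0 x1 x2 x3 x4 : V) :
    M30 mv (c x0) (c x1) (c x2) (c x3) (c x4)
      (e x0 x1 x2) (e x0 x1 x3) (e x0 x1 x4) (e x0 x2 x3) (e x0 x2 x4) (e x0 x3 x4) (e x1 x2 x3) (e x1 x2 x4) (e x1 x3 x4) (e x2 x3 x4) = S30 (mg mv c e) x0 x1 x2 x3 x4 := by
  have q021 : e x0 x2 x1 = e x0 x1 x2 := s2 _ _ _
  have q102 : e x1 x0 x2 = e x0 x1 x2 := s1 _ _ _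
  have q120 : e x1 x2 x0 = e x0 x1 x2 := (s2 _ _ _).trans (s1 _ _ _)
  have q201 : e x2 x0 x1 = e x0 x1 x2 := (s1 _ _ _).trans (s2 _ _ _)
  have q210 : e x2 x1 x0 = e x0 x1 x2 := (s2 _ _ _).trans ((s1 _ _ _).trans (s2 _ _ _))
  have q031 : e x0 x3 x1 = e x0 x1 x3 := s2 _ _ _
  have q103 : e x1 x0 x3 = e x0 x1 x3 := s1 _ _ _
  have q130 : e x1 x3 x0 = e x0 x1 x3 := (s2 _ _ _).trans (s1 _ _ _)
  have q301 : e x3 x0 x1 = e x0 x1 x3 := (s1 _ _ _).trans (s2 _ _ _)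
  have q310 : e x3 x1 x0 = e x0 x1 x3 := (s2 _ _ _).trans ((s1 _ _ _).trans (s2 _ _ _))
  have q041 : e x0 x4 x1 = e x0 x1 x4 := s2 _ _ _
  have q104 : e x1 x0 x4 = e x0 x1 x4 := s1 _ _ _
  have q140 : e x1 x4 x0 = e x0 x1 x4 := (s2 _ _ _).trans (s1 _ _ _)
  have q401 : e x4 x0 x1 = e x0 x1 x4 := (s1 _ _ _).trans (s2 _ _ _)
  have q410 : e x4 x1 x0 = e x0 x1 x4 := (s2 _ _ _).trans ((s1 _ _ _).trans (s2 _ _ _))
  have q032 : e x0 x3 x2 = e x0 x2 x3 := s2 _ _ _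
  have q203 : e x2 x0 x3 = e x0 x2 x3 := s1 _ _ _
  have q230 : e x2 x3 x0 = e x0 x2 x3 := (s2 _ _ _).trans (s1 _ _ _)
  have q302 : e x3 x0 x2 = e x0 x2 x3 := (s1 _ _ _).trans (s2 _ _ _)
  have q320 : e x3 x2 x0 = e x0 x2 x3 := (s2 _ _ _).trans ((s1 _ _ _).trans (s2 _ _ _))
  have q042 : e x0 x4 x2 = e x0 x2 x4 := s2 _ _ _
  have q204 : e x2 x0 x4 = e x0 x2 x4 := s1 _ _ _
  have q240 : e x2 x4 x0 = e x0 x2 x4 := (s2 _ _ _).trans (s1 _ _ _)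
  have q402 : e x4 x0 x2 = e x0 x2 x4 := (s1 _ _ _).trans (s2 _ _ _)
  have q420 : e x4 x2 x0 = e x0 x2 x4 := (s2 _ _ _).trans ((s1 _ _ _).trans (s2 _ _ _))
  have q043 : e x0 x4 x3 = e x0 x3 x4 := s2 _ _ _
  have q304 : e x3 x0 x4 = e x0 x3 x4 := s1 _ _ _
  have q340 : e x3 x4 x0 = e x0 x3 x4 := (s2 _ _ _).trans (s1 _ _ _)
  have q403 : e x4 x0 x3 = e x0 x3 x4 := (s1 _ _ _).trans (s2 _ _ _)
  have q430 : e x4 x3 x0 = e x0 x3 x4 := (s2 _ _ _).trans ((s1 _ _ _).trans (s2 _ _ _))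
  have q132 : e x1 x3 x2 = e x1 x2 x3 := s2 _ _ _
  have q213 : e x2 x1 x3 = e x1 x2 x3 := s1 _ _ _
  have q231 : e x2 x3 x1 = e x1 x2 x3 := (s2 _ _ _).trans (s1 _ _ _)
  have q312 : e x3 x1 x2 = e x1 x2 x3 := (s1 _ _ _).trans (s2 _ _ _)
  have q321 : e x3 x2 x1 = e x1 x2 x3 := (s2 _ _ _).trans ((s1 _ _ _).trans (s2 _ _ _))
  have q142 : e x1 x4 x2 = e x1 x2 x4 := s2 _ _ _
  have q214 : e x2 x1 x4 = e x1 x2 x4 := s1 _ _ _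
  have q241 : e x2 x4 x1 = e x1 x2 x4 := (s2 _ _ _).trans (s1 _ _ _)
  have q412 : e x4 x1 x2 = e x1 x2 x4 := (s1 _ _ _).trans (s2 _ _ _)
  have q421 : e x4 x2 x1 = e x1 x2 x4 := (s2 _ _ _).trans ((s1 _ _ _).trans (s2 _ _ _))
  have q143 : e x1 x4 x3 = e x1 x3 x4 := s2 _ _ _
  have q314 : e x3 x1 x4 = e x1 x3 x4 := s1 _ _ _
  have q341 : e x3 x4 x1 = e x1 x3 x4 := (s2 _ _ _).trans (s1 _ _ _)
  have q413 : e x4 x1 x3 = e x1 x3 x4 := (s1 _ _ _).trans (s2 _ _ _)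
  have q431 : e x4 x3 x1 = e x1 x3 x4 := (s2 _ _ _).trans ((s1 _ _ _).trans (s2 _ _ _))
  have q243 : e x2 x4 x3 = e x2 x3 x4 := s2 _ _ _
  have q324 : e x3 x2 x4 = e x2 x3 x4 := s1 _ _ _
  have q342 : e x3 x4 x2 = e x2 x3 x4 := (s2 _ _ _).trans (s1 _ _ _)
  have q423 : e x4 x2 x3 = e x2 x3 x4 := (s1 _ _ _).trans (s2 _ _ _)
  have q432 : e x4 x3 x2 = e x2 x3 x4 := (s2 _ _ _).trans ((s1 _ _ _).trans (s2 _ _ _))
  simp only [M30, S30, mg, q021, q102, q120, q201, q210, q031, q103, q130, q301, q310, q041, q104, q140, q401, q410,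
    q032, q203, q230, q302, q320, q042, q204, q240, q402, q420, q043, q304, q340, q403, q430,
    q132, q213, q231, q312, q321, q142, q214, q241, q412, q421, q143, q314, q341, q413, q431,
    q243, q324, q342, q423, q432]

/-- The inequality for all states with the given colours. -/
def chkM (ind : Bool) (val : ℕ → ℕ → ℕ → ℕ) (mv : ℕ → ℕ → ℕ → ℕ → ℕ → ℕ → ℕ → ℕ → ℕ → ℕ → ℕ)
    (W K C0 C1 C2 C3 C4 : ℕ) : Bool :=
  b2 (ind && inn C0 C1 C2) fun b012 =>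
  b2 (ind && inn C0 C1 C3) fun b013 =>
  b2 (ind && inn C0 C2 C3) fun b023 =>
  b2 (ind && inn C1 C2 C3) fun b123 =>
  (k4 b012 b013 b023 b123 || (
  b2 (ind && inn C0 C1 C4) fun b014 =>
  b2 (ind && inn C0 C2 C4) fun b024 =>
  b2 (ind && inn C1 C2 C4) fun b124 =>
  (k4 b012 b014 b024 b124 || (
  b2 (ind && inn C0 C3 C4) fun b034 =>
  b2 (ind && inn C1 C3 C4) fun b134 =>
  (k4 b013 b014 b034 b134 || (
  b2 (ind && inn C2 C3 C4) fun b234 =>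
  (k4 b023 b024 b034 b234 || (
  (k4 b123 b124 b134 b234 || (
  Nat.ble (Nat.add (F10 val W C0 C1 C2 C3 C4 b012 b013 b014 b023 b024 b034 b123 b124 b134 b234)
    (M30 mv C0 C1 C2 C3 C4 b012 b013 b014 b023 b024 b034 b123 b124 b134 b234)) K))))))))))

theorem chkM_sound (ind : Bool) (val : ℕ → ℕ → ℕ → ℕ) (mv : ℕ → ℕ → ℕ → ℕ → ℕ → ℕ → ℕ → ℕ → ℕ → ℕ → ℕ)
    (W K C0 C1 C2 C3 C4 b012 b013 b014 b023 b024 b034 b123 b124 b134 b234 : ℕ)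
    (h : chkM ind val mv W K C0 C1 C2 C3 C4 = true)
    (h012 : b012 ≤ 1) (i012 : (ind && inn C0 C1 C2) = true → b012 = 0)
    (h013 : b013 ≤ 1) (i013 : (ind && inn C0 C1 C3) = true → b013 = 0)
    (h023 : b023 ≤ 1) (i023 : (ind && inn C0 C2 C3) = true → b023 = 0)
    (h123 : b123 ≤ 1) (i123 : (ind && inn C1 C2 C3) = true → b123 = 0)
    (h014 : b014 ≤ 1) (i014 : (ind && inn C0 C1 C4) = true → b014 = 0)
    (h024 : b024 ≤ 1) (i024 : (ind && inn C0 C2 C4) = true → b024 = 0)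
    (h124 : b124 ≤ 1) (i124 : (ind && inn C1 C2 C4) = true → b124 = 0)
    (h034 : b034 ≤ 1) (i034 : (ind && inn C0 C3 C4) = true → b034 = 0)
    (h134 : b134 ≤ 1) (i134 : (ind && inn C1 C3 C4) = true → b134 = 0)
    (h234 : b234 ≤ 1) (i234 : (ind && inn C2 C3 C4) = true → b234 = 0)
    (k0123 : ¬ k4 b012 b013 b023 b123 = true)
    (k0124 : ¬ k4 b012 b014 b024 b124 = true)
    (k0134 : ¬ k4 b013 b014 b034 b134 = true)
    (k0234 : ¬ k4 b023 b024 b034 b234 = true)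
    (k1234 : ¬ k4 b123 b124 b134 b234 = true) :
    F10 val W C0 C1 C2 C3 C4 b012 b013 b014 b023 b024 b034 b123 b124 b134 b234 +
      M30 mv C0 C1 C2 C3 C4 b012 b013 b014 b023 b024 b034 b123 b124 b134 b234 ≤ K := by
  unfold chkM at h
  replace h := b2_elim h h012 i012
  replace h := b2_elim h h013 i013
  replace h := b2_elim h h023 i023
  replace h := b2_elim h h123 i123
  replace h := or_elim' h k0123
  replace h := b2_elim h h014 i014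
  replace h := b2_elim h h024 i024
  replace h := b2_elim h h124 i124
  replace h := or_elim' h k0124
  replace h := b2_elim h h034 i034
  replace h := b2_elim h h134 i134
  replace h := or_elim' h k0134
  replace h := b2_elim h h234 i234
  replace h := or_elim' h k0234
  replace h := or_elim' h k1234
  exact Nat.le_of_ble_eq_true h

end Pool.Agent.Y439.Col
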