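import Pool.Agent.Y439.Col.MFunc

set_option autoImplicit false

/-!
The inequality obtained from a certificate with multipliers.
-/

namespace Pool.Agent.Y439.Col
open Finset

/-- Symmetry of the multiplier terms in the marked pair and in the two other vertices. -/
def symOK (mv : ℕ → ℕ → ℕ → ℕ → ℕ → ℕ → ℕ → ℕ → ℕ → ℕ → ℕ) : Bool :=
  allb 3 fun x => allb 3 fun y => allb 3 fun u => allb 3 fun w => allb 3 fun z =>
  allb 2 fun b1 => allb 2 fun b2 => allb 2 fun b3 => allb 2 fun b4 => allb 2 fun e =>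
    Nat.beq (mv x y u w z b1 b2 b3 b4 e) (mv y x u w z b1 b2 b4 b3 e) &&
    Nat.beq (mv x y u w z b1 b2 b3 b4 e) (mv x y w u z b2 b1 b3 b4 e)

theorem symOK_elim {mv : ℕ → ℕ → ℕ → ℕ → ℕ → ℕ → ℕ → ℕ → ℕ → ℕ → ℕ} (h : symOK mv = true)
    {x y u w z b1 b2 b3 b4 e : ℕ} (hx : x < 3) (hy : y < 3) (hu : u < 3) (hw : w < 3) (hz : z < 3)
    (h1 : b1 ≤ 1) (h2 : b2 ≤ 1) (h3 : b3 ≤ 1) (h4 : b4 ≤ 1) (he : e ≤ 1) :
    mv x y u w z b1 b2 b3 b4 e = mv y x u w z b1 b2 b4 b3 e ∧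
    mv x y u w z b1 b2 b3 b4 e = mv x y w u z b2 b1 b3 b4 e := by
  have g := allb_elim (allb_elim (allb_elim (allb_elim (allb_elim (allb_elim (allb_elim (allb_elim
    (allb_elim (allb_elim h x hx) y hy) u hu) w hw) z hz) b1 (by omega)) b2 (by omega)) b3
    (by omega)) b4 (by omega)) e (by omega)
  rw [Bool.and_eq_true] at g
  exact ⟨Nat.eq_of_beq_eq_true g.1, Nat.eq_of_beq_eq_true g.2⟩

def facZ (p q r s : ℕ) : ℕ → ℤ
  | 1 => p
  | 2 => -q
  | 3 => r
  | 4 => -s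
  | _ => 0

theorem mk'_cast (O p q r s t : ℕ) (h1 : t * q ≤ O) (h2 : t * s ≤ O) (k : ℕ) :
    ((mk' O p q r s t k : ℕ) : ℤ) = O + t * facZ p q r s k := by
  unfold mk' facZ
  split
  · show ((O + t * p : ℕ) : ℤ) = _
    push_cast; ring
  · show ((O - t * q : ℕ) : ℤ) = _
    rw [Nat.cast_sub h1]
    push_cast; ring
  · show ((O + t * r : ℕ) : ℤ) = _
    push_cast; ring
  · show ((O - t * s : ℕ) : ℤ) = _
    rw [Nat.cast_sub h2]
    push_cast; ring
  · simp

theorem facZ_kind (p q r s x y z e : ℕ) (hx : x < 3) (hy : y < 3) (hz : z < 3) (he : e ≤ 1) :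
    facZ p q r s (kind (rc x y) (rc x z) e) =
      if x = y then (if z = x then (r : ℤ) - (r + s) * e else 0)
      else (if z ≠ x ∧ z ≠ y then (p + q : ℤ) * e - q else 0) := by
  have he' : e = 0 ∨ e = 1 := by omega
  have hx' : x = 0 ∨ x = 1 ∨ x = 2 := by omega
  have hy' : y = 0 ∨ y = 1 ∨ y = 2 := by omega
  have hz' : z = 0 ∨ z = 1 ∨ z = 2 := by omega
  rcases hx' with rfl | rfl | rfl <;> rcases hy' with rfl | rfl | rfl <;>
    rcases hz' with rfl | rfl | rfl <;> rcases he' with rfl | rfl <;>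
    simp [rc, kind, facZ]

variable {V : Type*} [Fintype V]

/-- The number of `z` in the class of `x` with `x y z` an edge. -/
def din (c : V → ℕ) (e : V → V → V → ℕ) (x y : V) : ℕ := ∑ z, if c z = c x then e x y z else 0

/-- The number of vertices in the class of `x`. -/
def vin (c : V → ℕ) (x : V) : ℕ := ∑ z, if c z = c x then 1 else 0

/-- The number of `z` in neither the class of `x` nor that of `y` with `x y z` an edge. -/
def dth (c : V → ℕ) (e : V → V → V → ℕ) (x y : V) : ℕ :=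
  ∑ z, if c z ≠ c x ∧ c z ≠ c y then e x y z else 0

/-- The number of vertices in neither the class of `x` nor that of `y`. -/
def vth (c : V → ℕ) (x y : V) : ℕ := ∑ z, if c z ≠ c x ∧ c z ≠ c y then 1 else 0

/-- The deficiency of a pair. -/
def dfc (p q r s : ℕ) (c : V → ℕ) (e : V → V → V → ℕ) (x y : V) : ℕ :=
  if c x = c y then (r + s) * din c e x y - r * vin c x else q * vth c x y - (p + q) * dth c e x y

theorem cast_sub_ge (a b : ℕ) : (a : ℤ) - b ≤ ((a - b : ℕ) : ℤ) := by omega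

theorem fac_sum (p q r s : ℕ) (c : V → ℕ) (hc : ∀ x, c x < 3) (e : V → V → V → ℕ)
    (e1 : ∀ x y z, e x y z ≤ 1) (x y : V) :
    -((dfc p q r s c e x y : ℕ) : ℤ) ≤
      ∑ z, facZ p q r s (kind (rc (c x) (c y)) (rc (c x) (c z)) (e x y z)) := by
  simp only [fun z => facZ_kind p q r s (c x) (c y) (c z) (e x y z) (hc x) (hc y) (hc z) (e1 x y z)]
  unfold dfc
  by_cases h : c x = c y
  · simp only [if_pos h]
    have e2 : ∑ z, (if c z = c x then (r : ℤ) - (r + s) * e x y z else 0) =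
        (r : ℤ) * vin c x - (r + s) * din c e x y := by
      unfold vin din
      push_cast
      rw [mul_sum, mul_sum, ← sum_sub_distrib]
      refine sum_congr rfl fun z _ => ?_
      split_ifs <;> simp
    rw [e2]
    have h3 := cast_sub_ge ((r + s) * din c e x y) (r * vin c x)
    push_cast at h3
    linarith
  · simp only [if_neg h]
    have e2 : ∑ z, (if c z ≠ c x ∧ c z ≠ c y then (p + q : ℤ) * e x y z - q else 0) =
        (p + q : ℤ) * dth c e x y - q * vth c x y := by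
      unfold vth dth
      push_cast
      rw [mul_sum, mul_sum, ← sum_sub_distrib]
      refine sum_congr rfl fun z _ => ?_
      split_ifs <;> simp
    rw [e2]
    have h3 := cast_sub_ge (q * vth c x y) ((p + q) * dth c e x y)
    push_cast at h3
    linarith

theorem mg_sum (mt : ℕ → ℕ) (O T p q r s : ℕ) (hT : ∀ i < 432, mt i ≤ T) (hq : T * q ≤ O)
    (hs : T * s ≤ O) (c : V → ℕ) (hc : ∀ x, c x < 3) (e : V → V → V → ℕ)
    (e1 : ∀ x y z, e x y z ≤ 1) :
    O * Fintype.card V ^ 5 ≤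
      ∑ x : Fin 5 → V, mg (mq mt O p q r s) c e (x 0) (x 1) (x 2) (x 3) (x 4) +
        T * (Fintype.card V ^ 2 * ∑ x, ∑ y, dfc p q r s c e x y) := by
  rw [sum_five]
  have h : ∀ x y u w : V, O * Fintype.card V ≤
      ∑ z, mg (mq mt O p q r s) c e x y u w z + T * dfc p q r s c e x y := by
    intro x y u w
    set i := mix (rc (c x) (c y)) (rc (c x) (c u)) (rc (c x) (c w)) (e x y u) (e x y w) (e x u w)
      (e y u w) with hi
    have hi432 : i < 432 := by
      have a1 := rc_lt (c x) (c y)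
      have a2 := rc_lt (c x) (c u)
      have a3 := rc_lt (c x) (c w)
      have a4 := e1 x y u
      have a5 := e1 x y w
      have a6 := e1 x u w
      have a7 := e1 y u w
      show 16 * (3 * (3 * rc (c x) (c y) + rc (c x) (c u)) + rc (c x) (c w)) +
        ((e x y u + 2 * e x y w) + (4 * e x u w + 8 * e y u w)) < 432
      omega
    have ht := hT i hi432
    have hq' : mt i * q ≤ O := (Nat.mul_le_mul_right q ht).trans hq
    have hs' : mt i * s ≤ O := (Nat.mul_le_mul_right s ht).trans hs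
    have h1 : ∀ z, ((mg (mq mt O p q r s) c e x y u w z : ℕ) : ℤ) =
        O + mt i * facZ p q r s (kind (rc (c x) (c y)) (rc (c x) (c z)) (e x y z)) := fun z =>
      mk'_cast O p q r s (mt i) hq' hs' _
    have h2 := fac_sum p q r s c hc e e1 x y
    have h3 : ((∑ z, mg (mq mt O p q r s) c e x y u w z : ℕ) : ℤ) = O * Fintype.card V +
        mt i * ∑ z, facZ p q r s (kind (rc (c x) (c y)) (rc (c x) (c z)) (e x y z)) := by
      push_cast
      simp only [h1, sum_add_distrib, sum_const, card_univ, nsmul_eq_mul, mul_sum]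
      ring
    have h4 : (0 : ℤ) ≤ mt i := Int.natCast_nonneg _
    have h5 : ((mt i : ℕ) : ℤ) ≤ T := by exact_mod_cast ht
    have h6 : (0 : ℤ) ≤ ((dfc p q r s c e x y : ℕ) : ℤ) := Int.natCast_nonneg _
    have h7 : ((O * Fintype.card V : ℕ) : ℤ) ≤
        ((∑ z, mg (mq mt O p q r s) c e x y u w z + T * dfc p q r s c e x y : ℕ) : ℤ) := by
      rw [Nat.cast_add, h3]
      push_cast
      have h8 := mul_le_mul_of_nonneg_left h2 h4
      have h9 := mul_le_mul_of_nonneg_right h5 h6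
      linarith
    exact_mod_cast h7
  calc O * Fintype.card V ^ 5
      = ∑ _x : V, ∑ _y : V, ∑ _u : V, ∑ _w : V, O * Fintype.card V := by
        simp only [sum_const, card_univ, smul_eq_mul]; ring
    _ ≤ ∑ x : V, ∑ y : V, ∑ u : V, ∑ w : V,
        (∑ z, mg (mq mt O p q r s) c e x y u w z + T * dfc p q r s c e x y) :=
        sum_le_sum fun x _ => sum_le_sum fun y _ => sum_le_sum fun u _ => sum_le_sum fun w _ =>
          h x y u w
    _ = _ := by
        simp only [sum_add_distrib, sum_const, card_univ, smul_eq_mul, mul_sum]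
        congr 1
        refine sum_congr rfl fun x _ => sum_congr rfl fun y _ => ?_
        ring

variable {val : ℕ → ℕ → ℕ → ℕ} {rows : ℕ → List (List ℤ)} {OFF : ℕ}

/-- The pointwise inequality. -/
theorem keyM (hG : Good val rows OFF) (ind : Bool) (W K : ℕ)
    (mv : ℕ → ℕ → ℕ → ℕ → ℕ → ℕ → ℕ → ℕ → ℕ → ℕ → ℕ) (hmv : symOK mv = true)
    (hchk : ∀ C0 C1 C2 C3 C4 : ℕ, C0 ≤ C1 → C1 ≤ C2 → C2 ≤ C3 → C3 ≤ C4 → C4 < 3 →
      chkM ind val mv W K C0 C1 C2 C3 C4 = true)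
    (c : V → ℕ) (hc : ∀ x, c x < 3) (e : V → V → V → ℕ) (e1 : ∀ x y z, e x y z ≤ 1)
    (s1 : ∀ x y z, e x y z = e y x z) (s2 : ∀ x y z, e x y z = e x z y)
    (hin : ind = true → ∀ x y z, c x = c y → c y = c z → e x y z = 0)
    (hK : ∀ x y z w, e x y z = 0 ∨ e x y w = 0 ∨ e x z w = 0 ∨ e y z w = 0)
    (x0 x1 x2 x3 x4 : V) :
    S60 (v3 val c e) x0 x1 x2 x3 x4 + S15 (v1 val c e) x0 x1 x2 x3 x4 +
      9 * W * S10 e x0 x1 x2 x3 x4 + S30 (mg mv c e) x0 x1 x2 x3 x4 ≤ K := by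
  have hv3 : ∀ a b d u v, v3 val c e a b d u v = v3 val c e a b d v u := fun a b d u v =>
    hG.comm (ty_lt _ _ _ _ (e1 _ _ _)) (f3_lt _ _ _ _ _ (e1 _ _ _) (e1 _ _ _) (e1 _ _ _))
      (f3_lt _ _ _ _ _ (e1 _ _ _) (e1 _ _ _) (e1 _ _ _))
  have hk1 : ∀ a y z u w, v1 val c e a y z u w = v1 val c e a z y u w := fun a y z u w => by
    unfold v1 w1
    rw [f1_comm (c a) (c y) (c z), s2 a y z]
  have hk2 : ∀ a y z u w, v1 val c e a y z u w = v1 val c e a y z w u := fun a y z u w => by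
    unfold v1 w1
    rw [f1_comm (c a) (c u) (c w), s2 a u w]
  have hk3 : ∀ a y z u w, v1 val c e a y z u w = v1 val c e a u w y z := fun a y z u w =>
    hG.comm (by norm_num) (f1_lt _ _ _ _ (e1 _ _ _)) (f1_lt _ _ _ _ (e1 _ _ _))
  have hm1 : ∀ x y u w z, mg mv c e x y u w z = mg mv c e y x u w z := fun x y u w z => by
    unfold mg
    rw [(symOK_elim hmv (hc x) (hc y) (hc u) (hc w) (hc z) (e1 x y u) (e1 x y w) (e1 x u w)
      (e1 y u w) (e1 x y z)).1, s1 x y u, s1 x y w, s1 x y z]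
  have hm2 : ∀ x y u w z, mg mv c e x y u w z = mg mv c e x y w u z := fun x y u w z => by
    unfold mg
    rw [(symOK_elim hmv (hc x) (hc y) (hc u) (hc w) (hc z) (e1 x y u) (e1 x y w) (e1 x u w)
      (e1 y u w) (e1 x y z)).2, s2 x u w, s2 y u w]
  revert x0 x1 x2 x3 x4
  apply wlog5 c
  · intro x0 x1 x2 x3 x4 h
    rwa [S60_sw0 _ hv3, S15_sw0 _ hk1 hk2 hk3, S10_sw0 _ s1 s2, S30_sw0 _ hm1 hm2] at h
  · intro x0 x1 x2 x3 x4 h
    rwa [S60_sw1 _ hv3, S15_sw1 _ hk1 hk2 hk3, S10_sw1 _ s1 s2, S30_sw1 _ hm1 hm2] at h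
  · intro x0 x1 x2 x3 x4 h
    rwa [S60_sw2 _ hv3, S15_sw2 _ hk1 hk2 hk3, S10_sw2 _ s1 s2, S30_sw2 _ hm1 hm2] at h
  · intro x0 x1 x2 x3 x4 h
    rwa [S60_sw3 _ hv3, S15_sw3 _ hk1 hk2 hk3, S10_sw3 _ s1 s2, S30_sw3 _ hm1 hm2] at h
  · intro x0 x1 x2 x3 x4 c01 c12 c23 c34
    rw [← F10_eq val W c e s1 s2, ← M30_eq mv c e s1 s2]
    have inn_of : ∀ x y z : V, (ind && inn (c x) (c y) (c z)) = true → e x y z = 0 := by
      intro x y z h
      rw [Bool.and_eq_true] at h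
      obtain ⟨h1, h2⟩ := h
      unfold inn at h2
      rw [Bool.and_eq_true] at h2
      exact hin h1 x y z (Nat.eq_of_beq_eq_true h2.1) (Nat.eq_of_beq_eq_true h2.2)
    have k4_of : ∀ x y z w : V, ¬ k4 (e x y z) (e x y w) (e x z w) (e y z w) = true := by
      intro x y z w h
      unfold k4 at h
      have h1 := Nat.eq_of_beq_eq_true h
      have h2 : (e x y z * e x y w) * (e x z w * e y z w) = 1 := h1
      rcases hK x y z w with h3 | h3 | h3 | h3 <;> rw [h3] at h2 <;> simp at h2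
    exact chkM_sound ind val mv W K _ _ _ _ _ _ _ _ _ _ _ _ _ _ _
      (hchk _ _ _ _ _ c01 c12 c23 c34 (hc x4))
      (e1 _ _ _) (inn_of _ _ _) (e1 _ _ _) (inn_of _ _ _) (e1 _ _ _) (inn_of _ _ _)
      (e1 _ _ _) (inn_of _ _ _) (e1 _ _ _) (inn_of _ _ _) (e1 _ _ _) (inn_of _ _ _)
      (e1 _ _ _) (inn_of _ _ _) (e1 _ _ _) (inn_of _ _ _) (e1 _ _ _) (inn_of _ _ _)
      (e1 _ _ _) (inn_of _ _ _)
      (k4_of _ _ _ _) (k4_of _ _ _ _) (k4_of _ _ _ _) (k4_of _ _ _ _) (k4_of _ _ _ _)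

/-- The main inequality. -/
theorem mainM (hG : Good val rows OFF) (ind : Bool) (W : ℕ) (mt : ℕ → ℕ) (O T p q r s : ℕ)
    (hT : ∀ i < 432, mt i ≤ T) (hq : T * q ≤ O) (hs : T * s ≤ O)
    (hmv : symOK (mq mt O p q r s) = true)
    (hchk : ∀ C0 C1 C2 C3 C4 : ℕ, C0 ≤ C1 → C1 ≤ C2 → C2 ≤ C3 → C3 ≤ C4 → C4 < 3 →
      chkM ind val (mq mt O p q r s) W (50 * W + 75 * OFF + 30 * O) C0 C1 C2 C3 C4 = true)
    (c : V → ℕ) (hc : ∀ x, c x < 3) (e : V → V → V → ℕ) (e1 : ∀ x y z, e x y z ≤ 1)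
    (s1 : ∀ x y z, e x y z = e y x z) (s2 : ∀ x y z, e x y z = e x z y)
    (hin : ind = true → ∀ x y z, c x = c y → c y = c z → e x y z = 0)
    (hK : ∀ x y z w, e x y z = 0 ∨ e x y w = 0 ∨ e x z w = 0 ∨ e y z w = 0) :
    90 * W * (Fintype.card V ^ 2 * ∑ a, ∑ b, ∑ d, e a b d) ≤
      50 * W * Fintype.card V ^ 5 +
        30 * (T * (Fintype.card V ^ 2 * ∑ x, ∑ y, dfc p q r s c e x y)) := by
  have hsum : ∑ x : Fin 5 → V, (S60 (v3 val c e) (x 0) (x 1) (x 2) (x 3) (x 4) +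
      S15 (v1 val c e) (x 0) (x 1) (x 2) (x 3) (x 4) + 9 * W * S10 e (x 0) (x 1) (x 2) (x 3) (x 4) +
      S30 (mg (mq mt O p q r s) c e) (x 0) (x 1) (x 2) (x 3) (x 4)) ≤
      ∑ _x : Fin 5 → V, (50 * W + 75 * OFF + 30 * O) :=
    sum_le_sum fun x _ => keyM hG ind W _ _ hmv hchk c hc e e1 s1 s2 hin hK _ _ _ _ _
  rw [sum_add_distrib, sum_add_distrib, sum_add_distrib, ← mul_sum, sum_S60, sum_S15,
    sum_S10, sum_S30, e_sum, sum_const, card_univ, smul_eq_mul, Fintype.card_fun,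
    Fintype.card_fin] at hsum
  have h3 := v3_sum hG c e e1
  have h1 := v1_sum hG c e e1
  have hm := mg_sum mt O T p q r s hT hq hs c hc e e1
  nlinarith [hsum, h3, h1, hm]

end Pool.Agent.Y439.Col
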