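import Pool.Agent.Y439.Col.Func

set_option autoImplicit false

/-!
The inequality for three-coloured 3-graphs obtained from a certificate.
-/

namespace Pool.Agent.Y439.Col
open Finset

/-- Sums over 5-tuples as iterated sums. -/
theorem sum_five {V : Type*} [Fintype V] (f : V → V → V → V → V → ℕ) :
    ∑ x : Fin 5 → V, f (x 0) (x 1) (x 2) (x 3) (x 4) =
      ∑ a, ∑ b, ∑ d, ∑ u, ∑ v, f a b d u v := by
  have step : ∀ (n : ℕ) (g : (Fin (n + 1) → V) → ℕ),
      ∑ x : Fin (n + 1) → V, g x = ∑ a, ∑ y : Fin n → V, g (Fin.cons a y) := by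
    intro n g
    rw [← Fintype.sum_prod_type']
    exact (Fintype.sum_equiv (Fin.consEquiv fun _ => V) _ _ (fun _ => rfl)).symm
  rw [step 4]
  refine sum_congr rfl fun a _ => ?_
  rw [step 3]
  refine sum_congr rfl fun b _ => ?_
  rw [step 2]
  refine sum_congr rfl fun d _ => ?_
  rw [step 1]
  refine sum_congr rfl fun u _ => ?_
  rw [step 0]
  refine sum_congr rfl fun v _ => ?_
  rw [Fintype.sum_unique]
  rfl

structure Good (val : ℕ → ℕ → ℕ → ℕ) (rows : ℕ → List (List ℤ)) (OFF : ℕ) : Prop where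
  hval : ∀ t < 19, ∀ f < 24, ∀ g < 24, (val t f g : ℤ) = ent (rows t) f g + OFF
  hpsd : ∀ t < 19, psd 24 1 (rows t) = true

variable {val : ℕ → ℕ → ℕ → ℕ} {rows : ℕ → List (List ℤ)} {OFF : ℕ}

theorem Good.comm (hG : Good val rows OFF) {t f g : ℕ} (ht : t < 19) (hf : f < 24) (hg : g < 24) :
    val t f g = val t g f := by
  have h1 := hG.hval t ht f hf g hg
  have h2 := hG.hval t ht g hg f hf
  rw [ent_comm] at h2
  have : (val t f g : ℤ) = val t g f := by rw [h1, h2]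
  exact_mod_cast this

theorem Good.sum_ge (hG : Good val rows OFF) {Y : Type*} [Fintype Y] (t : ℕ) (ht : t < 19)
    (fl : Y → ℕ) (hf : ∀ y, fl y < 24) :
    OFF * Fintype.card Y ^ 2 ≤ ∑ y, ∑ z, val t (fl y) (fl z) := by
  have h := sum_nonneg_of_psd (univ : Finset Y) fl 24 (rows t) (hG.hpsd t ht)
  have e : ∑ y, ∑ z, ((val t (fl y) (fl z) : ℕ) : ℤ) =
      ∑ y, ∑ z, ent (rows t) (fl y) (fl z) + OFF * Fintype.card Y ^ 2 := by
    have : ∀ y z, ((val t (fl y) (fl z) : ℕ) : ℤ) = ent (rows t) (fl y) (fl z) + OFF :=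
      fun y z => hG.hval t ht _ (hf y) _ (hf z)
    simp only [this, sum_add_distrib, sum_const, card_univ, nsmul_eq_mul]
    ring
  have h2 : ((OFF * Fintype.card Y ^ 2 : ℕ) : ℤ) ≤ ((∑ y, ∑ z, val t (fl y) (fl z) : ℕ) : ℤ) := by
    push_cast
    rw [e]
    linarith
  exact_mod_cast h2

variable {V : Type*} [Fintype V]

theorem v3_sum (hG : Good val rows OFF) (c : V → ℕ) (e : V → V → V → ℕ)
    (e1 : ∀ x y z, e x y z ≤ 1) :
    OFF * Fintype.card V ^ 5 ≤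
      ∑ x : Fin 5 → V, v3 val c e (x 0) (x 1) (x 2) (x 3) (x 4) := by
  rw [sum_five]
  have h : ∀ a b d : V, OFF * Fintype.card V ^ 2 ≤ ∑ u, ∑ v, v3 val c e a b d u v := by
    intro a b d
    exact hG.sum_ge (ty (c a) (c b) (c d) (e a b d)) (ty_lt _ _ _ _ (e1 _ _ _))
      (fun u => f3 (c a) (c u) (e a b u) (e a d u) (e b d u))
      (fun u => f3_lt _ _ _ _ _ (e1 _ _ _) (e1 _ _ _) (e1 _ _ _))
  calc OFF * Fintype.card V ^ 5
      = ∑ _a : V, ∑ _b : V, ∑ _d : V, OFF * Fintype.card V ^ 2 := by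
        simp only [sum_const, card_univ, smul_eq_mul]; ring
    _ ≤ _ := sum_le_sum fun a _ => sum_le_sum fun b _ => sum_le_sum fun d _ => h a b d

theorem v1_sum (hG : Good val rows OFF) (c : V → ℕ) (e : V → V → V → ℕ)
    (e1 : ∀ x y z, e x y z ≤ 1) :
    OFF * Fintype.card V ^ 5 ≤
      ∑ x : Fin 5 → V, v1 val c e (x 0) (x 1) (x 2) (x 3) (x 4) := by
  rw [sum_five]
  have h : ∀ a : V, OFF * Fintype.card V ^ 4 ≤ ∑ y, ∑ z, ∑ u, ∑ w, v1 val c e a y z u w := by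
    intro a
    have h1 := hG.sum_ge (Y := V × V) 18 (by norm_num)
      (fun p => f1 (c a) (c p.1) (c p.2) (e a p.1 p.2)) (fun p => f1_lt _ _ _ _ (e1 _ _ _))
    rw [Fintype.card_prod] at h1
    have h2 : ∑ y : V × V, ∑ z : V × V, val 18 (f1 (c a) (c y.1) (c y.2) (e a y.1 y.2))
        (f1 (c a) (c z.1) (c z.2) (e a z.1 z.2)) = ∑ y, ∑ z, ∑ u, ∑ w, v1 val c e a y z u w := by
      rw [Fintype.sum_prod_type]
      refine sum_congr rfl fun y _ => sum_congr rfl fun z _ => ?_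
      rw [Fintype.sum_prod_type]
      rfl
    rw [h2] at h1
    calc OFF * Fintype.card V ^ 4 = OFF * (Fintype.card V * Fintype.card V) ^ 2 := by ring
      _ ≤ _ := h1
  calc OFF * Fintype.card V ^ 5 = ∑ _a : V, OFF * Fintype.card V ^ 4 := by
        simp only [sum_const, card_univ, smul_eq_mul]; ring
    _ ≤ _ := sum_le_sum fun a _ => h a

theorem e_sum (e : V → V → V → ℕ) :
    ∑ x : Fin 5 → V, e (x 0) (x 1) (x 2) = Fintype.card V ^ 2 * ∑ a, ∑ b, ∑ d, e a b d := by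
  rw [sum_five (fun a b d _ _ => e a b d)]
  simp only [sum_const, card_univ, smul_eq_mul, mul_sum]
  refine sum_congr rfl fun a _ => sum_congr rfl fun b _ => sum_congr rfl fun d _ => ?_
  ring

/-- The main inequality. -/
theorem main (hG : Good val rows OFF) (ind : Bool) (W lam : ℕ) (pt : Pat)
    (hchk : ∀ C0 C1 C2 C3 C4 : ℕ, C0 ≤ C1 → C1 ≤ C2 → C2 ≤ C3 → C3 ≤ C4 → C4 < 3 →
      chk ind val W (50 * W + 75 * OFF) lam pt C0 C1 C2 C3 C4 = true)
    (c : V → ℕ) (hc : ∀ x, c x < 3) (e : V → V → V → ℕ) (e1 : ∀ x y z, e x y z ≤ 1)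
    (s1 : ∀ x y z, e x y z = e y x z) (s2 : ∀ x y z, e x y z = e x z y)
    (hin : ind = true → ∀ x y z, c x = c y → c y = c z → e x y z = 0)
    (hK : ∀ x y z w, e x y z = 0 ∨ e x y w = 0 ∨ e x z w = 0 ∨ e y z w = 0) :
    90 * W * (Fintype.card V ^ 2 * ∑ a, ∑ b, ∑ d, e a b d) ≤
      50 * W * Fintype.card V ^ 5 +
        120 * lam * ∑ x : Fin 5 → V, pg pt c e (x 0) (x 1) (x 2) (x 3) (x 4) := by
  -- the pointwise inequality
  have key : ∀ x0 x1 x2 x3 x4 : V,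
      S60 (v3 val c e) x0 x1 x2 x3 x4 + S15 (v1 val c e) x0 x1 x2 x3 x4 +
        9 * W * S10 e x0 x1 x2 x3 x4 ≤
      (50 * W + 75 * OFF) + lam * S120 (pg pt c e) x0 x1 x2 x3 x4 := by
    have hv3 : ∀ a b d u v, v3 val c e a b d u v = v3 val c e a b d v u := fun a b d u v =>
      hG.comm (ty_lt _ _ _ _ (e1 _ _ _)) (f3_lt _ _ _ _ _ (e1 _ _ _) (e1 _ _ _) (e1 _ _ _))
        (f3_lt _ _ _ _ _ (e1 _ _ _) (e1 _ _ _) (e1 _ _ _))
    have hk1 : ∀ a y z u w, v1 val c e a y z u w = v1 val c e a z y u w := fun a y z u w => by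
      unfold v1 w1
      rw [f1_comm (c a) (c y) (c z), s2 a y z]
    have hk2 : ∀ a y z u w, v1 val c e a y z u w = v1 val c e a y z w u := fun a y z u w => by
      unfold v1 w1
      rw [f1_comm (c a) (c u) (c w), s2 a u w]
    have hk3 : ∀ a y z u w, v1 val c e a y z u w = v1 val c e a u w y z := fun a y z u w =>
      hG.comm (by norm_num) (f1_lt _ _ _ _ (e1 _ _ _)) (f1_lt _ _ _ _ (e1 _ _ _))
    apply wlog5 c
    · intro x0 x1 x2 x3 x4 h
      rwa [S60_sw0 _ hv3, S15_sw0 _ hk1 hk2 hk3, S10_sw0 _ s1 s2, S120_sw0] at h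
    · intro x0 x1 x2 x3 x4 h
      rwa [S60_sw1 _ hv3, S15_sw1 _ hk1 hk2 hk3, S10_sw1 _ s1 s2, S120_sw1] at h
    · intro x0 x1 x2 x3 x4 h
      rwa [S60_sw2 _ hv3, S15_sw2 _ hk1 hk2 hk3, S10_sw2 _ s1 s2, S120_sw2] at h
    · intro x0 x1 x2 x3 x4 h
      rwa [S60_sw3 _ hv3, S15_sw3 _ hk1 hk2 hk3, S10_sw3 _ s1 s2, S120_sw3] at h
    · intro x0 x1 x2 x3 x4 c01 c12 c23 c34
      rw [← F10_eq val W c e s1 s2, ← P10_eq pt c e s1 s2]
      have inn_of : ∀ x y z : V, (ind && inn (c x) (c y) (c z)) = true → e x y z = 0 := by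
        intro x y z h
        rw [Bool.and_eq_true] at h
        obtain ⟨h1, h2⟩ := h
        unfold inn at h2
        rw [Bool.and_eq_true] at h2
        exact hin h1 x y z (Nat.eq_of_beq_eq_true h2.1) (Nat.eq_of_beq_eq_true h2.2)
      have k4_of : ∀ x y z w : V, ¬ k4 (e x y z) (e x y w) (e x z w) (e y z w) = true := by
        intro x y z w h
        unfold k4 at h
        have h1 := Nat.eq_of_beq_eq_true h
        have h2 : (e x y z * e x y w) * (e x z w * e y z w) = 1 := h1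
        rcases hK x y z w with h3 | h3 | h3 | h3 <;> rw [h3] at h2 <;> simp at h2
      exact chk_sound ind val W (50 * W + 75 * OFF) lam pt _ _ _ _ _ _ _ _ _ _ _ _ _ _ _
        (hchk _ _ _ _ _ c01 c12 c23 c34 (hc x4))
        (e1 _ _ _) (inn_of _ _ _) (e1 _ _ _) (inn_of _ _ _) (e1 _ _ _) (inn_of _ _ _)
        (e1 _ _ _) (inn_of _ _ _) (e1 _ _ _) (inn_of _ _ _) (e1 _ _ _) (inn_of _ _ _)
        (e1 _ _ _) (inn_of _ _ _) (e1 _ _ _) (inn_of _ _ _) (e1 _ _ _) (inn_of _ _ _)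
        (e1 _ _ _) (inn_of _ _ _)
        (k4_of _ _ _ _) (k4_of _ _ _ _) (k4_of _ _ _ _) (k4_of _ _ _ _) (k4_of _ _ _ _)
  -- summation
  have hsum : ∑ x : Fin 5 → V, (S60 (v3 val c e) (x 0) (x 1) (x 2) (x 3) (x 4) +
      S15 (v1 val c e) (x 0) (x 1) (x 2) (x 3) (x 4) + 9 * W * S10 e (x 0) (x 1) (x 2) (x 3) (x 4)) ≤
      ∑ x : Fin 5 → V, ((50 * W + 75 * OFF) +
        lam * S120 (pg pt c e) (x 0) (x 1) (x 2) (x 3) (x 4)) :=
    sum_le_sum fun x _ => key _ _ _ _ _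
  rw [sum_add_distrib, sum_add_distrib, sum_add_distrib, ← mul_sum, ← mul_sum, sum_S60, sum_S15,
    sum_S10, sum_S120, e_sum, sum_const, card_univ, smul_eq_mul, Fintype.card_fun,
    Fintype.card_fin] at hsum
  have h3 := v3_sum hG c e e1
  have h1 := v1_sum hG c e e1
  nlinarith [hsum, h3, h1]

end Pool.Agent.Y439.Col
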