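import Pool.Agent.Y439.Col.BMain

set_option autoImplicit false

/-!
Certificates for one-sided conditions: upper bounds on the codegrees into the later class of a pair
from two classes and on the codegrees inside the classes (partly generated).
-/

namespace Pool.Agent.Y439.Col
open Finset

/-- Kind of a vertex `z` relative to a pair `x y`: 1 and 2 for a non-edge and an edge in the later
class of a pair from two classes, 3 and 4 for a non-edge and an edge inside the class of a pair. -/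
def kindB : ℕ → ℕ → ℕ → ℕ
  | 0, 0, 0 => 3
  | 0, 0, _ + 1 => 4
  | 1, 1, 0 => 1
  | 1, 1, _ + 1 => 2
  | 2, 0, 0 => 1
  | 2, 0, _ + 1 => 2
  | _, _, _ => 0

def mqB (mt : ℕ → ℕ) (O p q r s cx cy cu cw cz b1 b2 b3 b4 e : ℕ) : ℕ :=
  mk' O p q r s (mt (mix (rc cx cy) (rc cx cu) (rc cx cw) b1 b2 b3 b4))
    (kindB (rc cx cy) (rc cx cz) e)

/-- The later one of two classes. -/
def ltr (x y : ℕ) : ℕ := if rc x y = 1 then y else x

theorem facZ_kindB (p q r s x y z e : ℕ) (hx : x < 3) (hy : y < 3) (hz : z < 3) (he : e ≤ 1) :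
    facZ p q r s (kindB (rc x y) (rc x z) e) =
      if x = y then (if z = ltr x y then (r : ℤ) - (r + s) * e else 0)
      else (if z = ltr x y then (p : ℤ) - (p + q) * e else 0) := by
  have he' : e = 0 ∨ e = 1 := by omega
  have hx' : x = 0 ∨ x = 1 ∨ x = 2 := by omega
  have hy' : y = 0 ∨ y = 1 ∨ y = 2 := by omega
  have hz' : z = 0 ∨ z = 1 ∨ z = 2 := by omega
  rcases hx' with rfl | rfl | rfl <;> rcases hy' with rfl | rfl | rfl <;>
    rcases hz' with rfl | rfl | rfl <;> rcases he' with rfl | rfl <;>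
    simp [rc, kindB, facZ, ltr]

variable {V : Type*} [Fintype V]

/-- The number of `z` in the later class of `x`, `y` with `x y z` an edge. -/
def dlt (c : V → ℕ) (e : V → V → V → ℕ) (x y : V) : ℕ :=
  ∑ z, if c z = ltr (c x) (c y) then e x y z else 0

/-- The number of vertices in the later class of `x`, `y`. -/
def vlt (c : V → ℕ) (x y : V) : ℕ := ∑ z, if c z = ltr (c x) (c y) then 1 else 0

/-- The deficiency of a pair. -/
def dfcB (p q r s : ℕ) (c : V → ℕ) (e : V → V → V → ℕ) (x y : V) : ℕ :=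
  if c x = c y then (r + s) * dlt c e x y - r * vlt c x y
    else (p + q) * dlt c e x y - p * vlt c x y

theorem fac_sumB (p q r s : ℕ) (c : V → ℕ) (hc : ∀ x, c x < 3) (e : V → V → V → ℕ)
    (e1 : ∀ x y z, e x y z ≤ 1) (x y : V) :
    -((dfcB p q r s c e x y : ℕ) : ℤ) ≤
      ∑ z, facZ p q r s (kindB (rc (c x) (c y)) (rc (c x) (c z)) (e x y z)) := by
  simp only [fun z => facZ_kindB p q r s (c x) (c y) (c z) (e x y z) (hc x) (hc y) (hc z) (e1 x y z)]
  unfold dfcB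
  have key : ∀ a b : ℕ, ∑ z, (if c z = ltr (c x) (c y) then (a : ℤ) - (a + b) * e x y z else 0) =
      (a : ℤ) * vlt c x y - (a + b) * dlt c e x y := by
    intro a b
    unfold vlt dlt
    push_cast
    rw [mul_sum, mul_sum, ← sum_sub_distrib]
    refine sum_congr rfl fun z _ => ?_
    split_ifs <;> simp
  by_cases h : c x = c y
  · simp only [if_pos h]
    rw [key r s]
    have h3 := cast_sub_ge ((r + s) * dlt c e x y) (r * vlt c x y)
    push_cast at h3
    linarith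
  · simp only [if_neg h]
    rw [key p q]
    have h3 := cast_sub_ge ((p + q) * dlt c e x y) (p * vlt c x y)
    push_cast at h3
    linarith

theorem mg_sumB (mt : ℕ → ℕ) (O T p q r s : ℕ) (hT : ∀ i < 432, mt i ≤ T) (hq : T * q ≤ O)
    (hs : T * s ≤ O) (c : V → ℕ) (hc : ∀ x, c x < 3) (e : V → V → V → ℕ)
    (e1 : ∀ x y z, e x y z ≤ 1) :
    O * Fintype.card V ^ 5 ≤
      ∑ x : Fin 5 → V, mg (mqB mt O p q r s) c e (x 0) (x 1) (x 2) (x 3) (x 4) +
        T * (Fintype.card V ^ 2 * ∑ x, ∑ y, dfcB p q r s c e x y) := by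
  rw [sum_five]
  have h : ∀ x y u w : V, O * Fintype.card V ≤
      ∑ z, mg (mqB mt O p q r s) c e x y u w z + T * dfcB p q r s c e x y := by
    intro x y u w
    set i := mix (rc (c x) (c y)) (rc (c x) (c u)) (rc (c x) (c w)) (e x y u) (e x y w) (e x u w)
      (e y u w) with hi
    have hi432 : i < 432 := by
      have a1 := rc_lt (c x) (c y)
      have a2 := rc_lt (c x) (c u)
      have a3 := rc_lt (c x) (c w)
      have a4 := e1 x y u
      have a5 := e1 x y w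
      have a6 := e1 x u w
      have a7 := e1 y u w
      show 16 * (3 * (3 * rc (c x) (c y) + rc (c x) (c u)) + rc (c x) (c w)) +
        ((e x y u + 2 * e x y w) + (4 * e x u w + 8 * e y u w)) < 432
      omega
    have ht := hT i hi432
    have hq' : mt i * q ≤ O := (Nat.mul_le_mul_right q ht).trans hq
    have hs' : mt i * s ≤ O := (Nat.mul_le_mul_right s ht).trans hs
    have h1 : ∀ z, ((mg (mqB mt O p q r s) c e x y u w z : ℕ) : ℤ) =
        O + mt i * facZ p q r s (kindB (rc (c x) (c y)) (rc (c x) (c z)) (e x y z)) := fun z =>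
      mk'_cast O p q r s (mt i) hq' hs' _
    have h2 := fac_sumB p q r s c hc e e1 x y
    have h3 : ((∑ z, mg (mqB mt O p q r s) c e x y u w z : ℕ) : ℤ) = O * Fintype.card V +
        mt i * ∑ z, facZ p q r s (kindB (rc (c x) (c y)) (rc (c x) (c z)) (e x y z)) := by
      push_cast
      simp only [h1, sum_add_distrib, sum_const, card_univ, nsmul_eq_mul, mul_sum]
      ring
    have h4 : (0 : ℤ) ≤ mt i := Int.natCast_nonneg _
    have h5 : ((mt i : ℕ) : ℤ) ≤ T := by exact_mod_cast ht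
    have h6 : (0 : ℤ) ≤ ((dfcB p q r s c e x y : ℕ) : ℤ) := Int.natCast_nonneg _
    have h7 : ((O * Fintype.card V : ℕ) : ℤ) ≤
        ((∑ z, mg (mqB mt O p q r s) c e x y u w z + T * dfcB p q r s c e x y : ℕ) : ℤ) := by
      rw [Nat.cast_add, h3]
      push_cast
      have h8 := mul_le_mul_of_nonneg_left h2 h4
      have h9 := mul_le_mul_of_nonneg_right h5 h6
      linarith
    exact_mod_cast h7
  calc O * Fintype.card V ^ 5
      = ∑ _x : V, ∑ _y : V, ∑ _u : V, ∑ _w : V, O * Fintype.card V := by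
        simp only [sum_const, card_univ, smul_eq_mul]; ring
    _ ≤ ∑ x : V, ∑ y : V, ∑ u : V, ∑ w : V,
        (∑ z, mg (mqB mt O p q r s) c e x y u w z + T * dfcB p q r s c e x y) :=
        sum_le_sum fun x _ => sum_le_sum fun y _ => sum_le_sum fun u _ => sum_le_sum fun w _ =>
          h x y u w
    _ = _ := by
        simp only [sum_add_distrib, sum_const, card_univ, smul_eq_mul, mul_sum]
        congr 1
        refine sum_congr rfl fun x _ => sum_congr rfl fun y _ => ?_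
        ring

/-- The inequality for all states with the given colours, with margin `g` except for those of
Turán's construction. -/
def chkT (ind : Bool) (val : ℕ → ℕ → ℕ → ℕ) (mv : ℕ → ℕ → ℕ → ℕ → ℕ → ℕ → ℕ → ℕ → ℕ → ℕ → ℕ)
    (W K g C0 C1 C2 C3 C4 : ℕ) : Bool :=
  b2 (ind && inn C0 C1 C2) fun b012 =>
  b2 (ind && inn C0 C1 C3) fun b013 =>
  b2 (ind && inn C0 C2 C3) fun b023 =>
  b2 (ind && inn C1 C2 C3) fun b123 =>
  (k4 b012 b013 b023 b123 || (
  b2 (ind && inn C0 C1 C4) fun b014 =>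
  b2 (ind && inn C0 C2 C4) fun b024 =>
  b2 (ind && inn C1 C2 C4) fun b124 =>
  (k4 b012 b014 b024 b124 || (
  b2 (ind && inn C0 C3 C4) fun b034 =>
  b2 (ind && inn C1 C3 C4) fun b134 =>
  (k4 b013 b014 b034 b134 || (
  b2 (ind && inn C2 C3 C4) fun b234 =>
  (k4 b023 b024 b034 b234 || (
  (k4 b123 b124 b134 b234 || (
  Nat.ble (Nat.add (Nat.add (F10 val W C0 C1 C2 C3 C4 b012 b013 b014 b023 b024 b034 b123 b124 b134 b234)
    (M30 mv C0 C1 C2 C3 C4 b012 b013 b014 b023 b024 b034 b123 b124 b134 b234))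
    (Nat.mul g (sg (W10 C0 C1 C2 C3 C4 b012 b013 b014 b023 b024 b034 b123 b124 b134 b234)))) K))))))))))

theorem chkT_sound (ind : Bool) (val : ℕ → ℕ → ℕ → ℕ) (mv : ℕ → ℕ → ℕ → ℕ → ℕ → ℕ → ℕ → ℕ → ℕ → ℕ → ℕ)
    (W K g C0 C1 C2 C3 C4 b012 b013 b014 b023 b024 b034 b123 b124 b134 b234 : ℕ)
    (h : chkT ind val mv W K g C0 C1 C2 C3 C4 = true)
    (h012 : b012 ≤ 1) (i012 : (ind && inn C0 C1 C2) = true → b012 = 0)
    (h013 : b013 ≤ 1) (i013 : (ind && inn C0 C1 C3) = true → b013 = 0)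
    (h023 : b023 ≤ 1) (i023 : (ind && inn C0 C2 C3) = true → b023 = 0)
    (h123 : b123 ≤ 1) (i123 : (ind && inn C1 C2 C3) = true → b123 = 0)
    (h014 : b014 ≤ 1) (i014 : (ind && inn C0 C1 C4) = true → b014 = 0)
    (h024 : b024 ≤ 1) (i024 : (ind && inn C0 C2 C4) = true → b024 = 0)
    (h124 : b124 ≤ 1) (i124 : (ind && inn C1 C2 C4) = true → b124 = 0)
    (h034 : b034 ≤ 1) (i034 : (ind && inn C0 C3 C4) = true → b034 = 0)
    (h134 : b134 ≤ 1) (i134 : (ind && inn C1 C3 C4) = true → b134 = 0)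
    (h234 : b234 ≤ 1) (i234 : (ind && inn C2 C3 C4) = true → b234 = 0)
    (k0123 : ¬ k4 b012 b013 b023 b123 = true)
    (k0124 : ¬ k4 b012 b014 b024 b124 = true)
    (k0134 : ¬ k4 b013 b014 b034 b134 = true)
    (k0234 : ¬ k4 b023 b024 b034 b234 = true)
    (k1234 : ¬ k4 b123 b124 b134 b234 = true) :
    F10 val W C0 C1 C2 C3 C4 b012 b013 b014 b023 b024 b034 b123 b124 b134 b234 +
      M30 mv C0 C1 C2 C3 C4 b012 b013 b014 b023 b024 b034 b123 b124 b134 b234 +
      g * sg (W10 C0 C1 C2 C3 C4 b012 b013 b014 b023 b024 b034 b123 b124 b134 b234) ≤ K := by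
  unfold chkT at h
  replace h := b2_elim h h012 i012
  replace h := b2_elim h h013 i013
  replace h := b2_elim h h023 i023
  replace h := b2_elim h h123 i123
  replace h := or_elim' h k0123
  replace h := b2_elim h h014 i014
  replace h := b2_elim h h024 i024
  replace h := b2_elim h h124 i124
  replace h := or_elim' h k0124
  replace h := b2_elim h h034 i034
  replace h := b2_elim h h134 i134
  replace h := or_elim' h k0134
  replace h := b2_elim h h234 i234
  replace h := or_elim' h k0234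
  replace h := or_elim' h k1234
  exact Nat.le_of_ble_eq_true h

variable {val : ℕ → ℕ → ℕ → ℕ} {rows : ℕ → List (List ℤ)} {OFF : ℕ}

/-- The pointwise inequality with margin. -/
theorem keyT (hG : Good val rows OFF) (ind : Bool) (W K g : ℕ)
    (mv : ℕ → ℕ → ℕ → ℕ → ℕ → ℕ → ℕ → ℕ → ℕ → ℕ → ℕ) (hmv : symOK mv = true)
    (hchk : ∀ C0 C1 C2 C3 C4 : ℕ, C0 ≤ C1 → C1 ≤ C2 → C2 ≤ C3 → C3 ≤ C4 → C4 < 3 →
      chkT ind val mv W K g C0 C1 C2 C3 C4 = true)
    (c : V → ℕ) (hc : ∀ x, c x < 3) (e : V → V → V → ℕ) (e1 : ∀ x y z, e x y z ≤ 1)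
    (s1 : ∀ x y z, e x y z = e y x z) (s2 : ∀ x y z, e x y z = e x z y)
    (hin : ind = true → ∀ x y z, c x = c y → c y = c z → e x y z = 0)
    (hK : ∀ x y z w, e x y z = 0 ∨ e x y w = 0 ∨ e x z w = 0 ∨ e y z w = 0)
    (x0 x1 x2 x3 x4 : V) :
    S60 (v3 val c e) x0 x1 x2 x3 x4 + S15 (v1 val c e) x0 x1 x2 x3 x4 +
      9 * W * S10 e x0 x1 x2 x3 x4 + S30 (mg mv c e) x0 x1 x2 x3 x4 +
      g * sg (S10 (wg c e) x0 x1 x2 x3 x4) ≤ K := by
  have hv3 : ∀ a b d u v, v3 val c e a b d u v = v3 val c e a b d v u := fun a b d u v =>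
    hG.comm (ty_lt _ _ _ _ (e1 _ _ _)) (f3_lt _ _ _ _ _ (e1 _ _ _) (e1 _ _ _) (e1 _ _ _))
      (f3_lt _ _ _ _ _ (e1 _ _ _) (e1 _ _ _) (e1 _ _ _))
  have hk1 : ∀ a y z u w, v1 val c e a y z u w = v1 val c e a z y u w := fun a y z u w => by
    unfold v1 w1
    rw [f1_comm (c a) (c y) (c z), s2 a y z]
  have hk2 : ∀ a y z u w, v1 val c e a y z u w = v1 val c e a y z w u := fun a y z u w => by
    unfold v1 w1
    rw [f1_comm (c a) (c u) (c w), s2 a u w]
  have hk3 : ∀ a y z u w, v1 val c e a y z u w = v1 val c e a u w y z := fun a y z u w =>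
    hG.comm (by norm_num) (f1_lt _ _ _ _ (e1 _ _ _)) (f1_lt _ _ _ _ (e1 _ _ _))
  have hm1 : ∀ x y u w z, mg mv c e x y u w z = mg mv c e y x u w z := fun x y u w z => by
    unfold mg
    rw [(symOK_elim hmv (hc x) (hc y) (hc u) (hc w) (hc z) (e1 x y u) (e1 x y w) (e1 x u w)
      (e1 y u w) (e1 x y z)).1, s1 x y u, s1 x y w, s1 x y z]
  have hm2 : ∀ x y u w z, mg mv c e x y u w z = mg mv c e x y w u z := fun x y u w z => by
    unfold mg
    rw [(symOK_elim hmv (hc x) (hc y) (hc u) (hc w) (hc z) (e1 x y u) (e1 x y w) (e1 x u w)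
      (e1 y u w) (e1 x y z)).2, s2 x u w, s2 y u w]
  have t1 : ∀ x y z, wg c e x y z = wg c e y x z := fun x y z => by
    unfold wg
    rw [(wf_sym (hc x) (hc y) (hc z)).1, s1 x y z]
  have t2 : ∀ x y z, wg c e x y z = wg c e x z y := fun x y z => by
    unfold wg
    rw [(wf_sym (hc x) (hc y) (hc z)).2, s2 x y z]
  revert x0 x1 x2 x3 x4
  apply wlog5 c

  · intro x0 x1 x2 x3 x4 h
    rwa [S60_sw0 _ hv3, S15_sw0 _ hk1 hk2 hk3, S10_sw0 _ s1 s2, S30_sw0 _ hm1 hm2, S10_sw0 _ t1 t2] at h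
  · intro x0 x1 x2 x3 x4 h
    rwa [S60_sw1 _ hv3, S15_sw1 _ hk1 hk2 hk3, S10_sw1 _ s1 s2, S30_sw1 _ hm1 hm2, S10_sw1 _ t1 t2] at h
  · intro x0 x1 x2 x3 x4 h
    rwa [S60_sw2 _ hv3, S15_sw2 _ hk1 hk2 hk3, S10_sw2 _ s1 s2, S30_sw2 _ hm1 hm2, S10_sw2 _ t1 t2] at h
  · intro x0 x1 x2 x3 x4 h
    rwa [S60_sw3 _ hv3, S15_sw3 _ hk1 hk2 hk3, S10_sw3 _ s1 s2, S30_sw3 _ hm1 hm2, S10_sw3 _ t1 t2] at h
  · intro x0 x1 x2 x3 x4 c01 c12 c23 c34
    rw [← F10_eq val W c e s1 s2, ← M30_eq mv c e s1 s2]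
    have inn_of : ∀ x y z : V, (ind && inn (c x) (c y) (c z)) = true → e x y z = 0 := by
      intro x y z h
      rw [Bool.and_eq_true] at h
      obtain ⟨h1, h2⟩ := h
      unfold inn at h2
      rw [Bool.and_eq_true] at h2
      exact hin h1 x y z (Nat.eq_of_beq_eq_true h2.1) (Nat.eq_of_beq_eq_true h2.2)
    have k4_of : ∀ x y z w : V, ¬ k4 (e x y z) (e x y w) (e x z w) (e y z w) = true := by
      intro x y z w h
      unfold k4 at h
      have h1 := Nat.eq_of_beq_eq_true h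
      have h2 : (e x y z * e x y w) * (e x z w * e y z w) = 1 := h1
      rcases hK x y z w with h3 | h3 | h3 | h3 <;> rw [h3] at h2 <;> simp at h2
    exact chkT_sound ind val mv W K g _ _ _ _ _ _ _ _ _ _ _ _ _ _ _
      (hchk _ _ _ _ _ c01 c12 c23 c34 (hc x4))
      (e1 _ _ _) (inn_of _ _ _) (e1 _ _ _) (inn_of _ _ _) (e1 _ _ _) (inn_of _ _ _)
      (e1 _ _ _) (inn_of _ _ _) (e1 _ _ _) (inn_of _ _ _) (e1 _ _ _) (inn_of _ _ _)
      (e1 _ _ _) (inn_of _ _ _) (e1 _ _ _) (inn_of _ _ _) (e1 _ _ _) (inn_of _ _ _)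
      (e1 _ _ _) (inn_of _ _ _)
      (k4_of _ _ _ _) (k4_of _ _ _ _) (k4_of _ _ _ _) (k4_of _ _ _ _) (k4_of _ _ _ _)

/-- The number of triples which are wrong for Turán's construction, by 5-tuples. -/
theorem wrong_le (c : V → ℕ) (e : V → V → V → ℕ) :
    Fintype.card V ^ 2 * ∑ a, ∑ b, ∑ d, wg c e a b d ≤
      ∑ x : Fin 5 → V, sg (S10 (wg c e) (x 0) (x 1) (x 2) (x 3) (x 4)) := by
  rw [← e_sum (fun a b d => wg c e a b d)]
  refine sum_le_sum fun x _ => ?_
  have a1 : wg c e (x 0) (x 1) (x 2) ≤ 1 := by unfold wg wf; split_ifs <;> omega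
  have a3 : wg c e (x 0) (x 1) (x 2) ≤ S10 (wg c e) (x 0) (x 1) (x 2) (x 3) (x 4) := by
    unfold S10; omega
  show wg c e (x 0) (x 1) (x 2) ≤ 1 - (1 - S10 (wg c e) (x 0) (x 1) (x 2) (x 3) (x 4))
  omega

/-- The inequality with the number of wrong triples. -/
theorem mainT (hG : Good val rows OFF) (ind : Bool) (W g : ℕ) (mt : ℕ → ℕ) (O T p q r s : ℕ)
    (hT : ∀ i < 432, mt i ≤ T) (hq : T * q ≤ O) (hs : T * s ≤ O)
    (hmv : symOK (mqB mt O p q r s) = true)
    (hchk : ∀ C0 C1 C2 C3 C4 : ℕ, C0 ≤ C1 → C1 ≤ C2 → C2 ≤ C3 → C3 ≤ C4 → C4 < 3 →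
      chkT ind val (mqB mt O p q r s) W (50 * W + 75 * OFF + 30 * O) g C0 C1 C2 C3 C4 = true)
    (c : V → ℕ) (hc : ∀ x, c x < 3) (e : V → V → V → ℕ) (e1 : ∀ x y z, e x y z ≤ 1)
    (s1 : ∀ x y z, e x y z = e y x z) (s2 : ∀ x y z, e x y z = e x z y)
    (hin : ind = true → ∀ x y z, c x = c y → c y = c z → e x y z = 0)
    (hK : ∀ x y z w, e x y z = 0 ∨ e x y w = 0 ∨ e x z w = 0 ∨ e y z w = 0) :
    90 * W * (Fintype.card V ^ 2 * ∑ a, ∑ b, ∑ d, e a b d) +
      g * (Fintype.card V ^ 2 * ∑ a, ∑ b, ∑ d, wg c e a b d) ≤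
      50 * W * Fintype.card V ^ 5 +
        30 * (T * (Fintype.card V ^ 2 * ∑ x, ∑ y, dfcB p q r s c e x y)) := by
  have hsum : ∑ x : Fin 5 → V, (S60 (v3 val c e) (x 0) (x 1) (x 2) (x 3) (x 4) +
      S15 (v1 val c e) (x 0) (x 1) (x 2) (x 3) (x 4) + 9 * W * S10 e (x 0) (x 1) (x 2) (x 3) (x 4) +
      S30 (mg (mqB mt O p q r s) c e) (x 0) (x 1) (x 2) (x 3) (x 4) +
      g * sg (S10 (wg c e) (x 0) (x 1) (x 2) (x 3) (x 4))) ≤
      ∑ _x : Fin 5 → V, (50 * W + 75 * OFF + 30 * O) :=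
    sum_le_sum fun x _ => keyT hG ind W _ g _ hmv hchk c hc e e1 s1 s2 hin hK _ _ _ _ _
  rw [sum_add_distrib, sum_add_distrib, sum_add_distrib, sum_add_distrib, ← mul_sum, ← mul_sum,
    sum_S60, sum_S15, sum_S10, sum_S30, e_sum, sum_const, card_univ, smul_eq_mul, Fintype.card_fun,
    Fintype.card_fin] at hsum
  have h3 := v3_sum hG c e e1
  have h1 := v1_sum hG c e e1
  have hm := mg_sumB mt O T p q r s hT hq hs c hc e e1
  have hw := Nat.mul_le_mul_left g (wrong_le c e)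
  nlinarith [hsum, h3, h1, hm, hw]

end Pool.Agent.Y439.Col
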