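import Pool.Agent.Y439.Col.NMain

set_option autoImplicit false

/-!
Certificates for linear conditions at the pairs: the codegree into the later class is compared with
the size of this class and with the codegree into the next class.
-/

namespace Pool.Agent.Y439.Col
open Finset

def mk2 (O p q r s l m t : ℕ) : ℕ → ℕ
  | 1 => Nat.add O (Nat.mul t p)
  | 2 => Nat.sub O (Nat.mul t q)
  | 3 => Nat.add O (Nat.mul t r)
  | 4 => Nat.sub O (Nat.mul t s)
  | 5 => Nat.add O (Nat.mul t l)
  | 6 => Nat.add O (Nat.mul t m)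
  | _ => O

def facW (p q r s l m : ℕ) : ℕ → ℤ
  | 1 => p
  | 2 => -q
  | 3 => r
  | 4 => -s
  | 5 => l
  | 6 => m
  | _ => 0

theorem mk2_cast (O p q r s l m t : ℕ) (h1 : t * q ≤ O) (h2 : t * s ≤ O) (k : ℕ) :
    ((mk2 O p q r s l m t k : ℕ) : ℤ) = O + t * facW p q r s l m k := by
  unfold mk2 facW
  split
  · show ((O + t * p : ℕ) : ℤ) = _
    push_cast; ring
  · show ((O - t * q : ℕ) : ℤ) = _
    rw [Nat.cast_sub h1]
    push_cast; ring
  · show ((O + t * r : ℕ) : ℤ) = _
    push_cast; ring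
  · show ((O - t * s : ℕ) : ℤ) = _
    rw [Nat.cast_sub h2]
    push_cast; ring
  · show ((O + t * l : ℕ) : ℤ) = _
    push_cast; ring
  · show ((O + t * m : ℕ) : ℤ) = _
    push_cast; ring
  · simp

/-- Kind of a vertex `z` relative to a pair `x y`: 1 and 2 for a non-edge and an edge in the later
class of a pair from two classes, 3 and 4 for a non-edge and an edge inside the class of a pair, 5
and 6 for edges in the class after the later one. -/
def kindC : ℕ → ℕ → ℕ → ℕ
  | 0, 0, 0 => 3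
  | 0, 0, _ + 1 => 4
  | 0, 1, _ + 1 => 6
  | 1, 1, 0 => 1
  | 1, 1, _ + 1 => 2
  | 1, 2, _ + 1 => 5
  | 2, 0, 0 => 1
  | 2, 0, _ + 1 => 2
  | 2, 1, _ + 1 => 5
  | _, _, _ => 0

def mqC (mt : ℕ → ℕ) (O p q r s l m cx cy cu cw cz b1 b2 b3 b4 e : ℕ) : ℕ :=
  mk2 O p q r s l m (mt (mix (rc cx cy) (rc cx cu) (rc cx cw) b1 b2 b3 b4))
    (kindC (rc cx cy) (rc cx cz) e)

/-- The class after the later one of two classes. -/
def nxt (x y : ℕ) : ℕ := (ltr x y + 1) % 3

theorem facW_kindC (p q r s l m x y z e : ℕ) (hx : x < 3) (hy : y < 3) (hz : z < 3) (he : e ≤ 1) :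
    facW p q r s l m (kindC (rc x y) (rc x z) e) =
      if x = y then (if z = ltr x y then (r : ℤ) - (r + s) * e else 0) +
        (if z = nxt x y then (m : ℤ) * e else 0)
      else (if z = ltr x y then (p : ℤ) - (p + q) * e else 0) +
        (if z = nxt x y then (l : ℤ) * e else 0) := by
  have he' : e = 0 ∨ e = 1 := by omega
  have hx' : x = 0 ∨ x = 1 ∨ x = 2 := by omega
  have hy' : y = 0 ∨ y = 1 ∨ y = 2 := by omega
  have hz' : z = 0 ∨ z = 1 ∨ z = 2 := by omega
  rcases hx' with rfl | rfl | rfl <;> rcases hy' with rfl | rfl | rfl <;>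
    rcases hz' with rfl | rfl | rfl <;> rcases he' with rfl | rfl <;>
    simp [rc, kindC, facW, ltr, nxt]

variable {V : Type*} [Fintype V]

/-- The number of `z` in the class after the later class of `x`, `y` with `x y z` an edge. -/
def dnx (c : V → ℕ) (e : V → V → V → ℕ) (x y : V) : ℕ :=
  ∑ z, if c z = nxt (c x) (c y) then e x y z else 0

/-- The deficiency of a pair. -/
def dfcC (p q r s l m : ℕ) (c : V → ℕ) (e : V → V → V → ℕ) (x y : V) : ℕ :=
  if c x = c y then (r + s) * dlt c e x y - (r * vlt c x y + m * dnx c e x y)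
    else (p + q) * dlt c e x y - (p * vlt c x y + l * dnx c e x y)

theorem fac_sumC (p q r s l m : ℕ) (c : V → ℕ) (hc : ∀ x, c x < 3) (e : V → V → V → ℕ)
    (e1 : ∀ x y z, e x y z ≤ 1) (x y : V) :
    -((dfcC p q r s l m c e x y : ℕ) : ℤ) ≤
      ∑ z, facW p q r s l m (kindC (rc (c x) (c y)) (rc (c x) (c z)) (e x y z)) := by
  simp only [fun z => facW_kindC p q r s l m (c x) (c y) (c z) (e x y z) (hc x) (hc y) (hc z)
    (e1 x y z)]
  unfold dfcC
  have key : ∀ a b k : ℕ, ∑ z, ((if c z = ltr (c x) (c y) then (a : ℤ) - (a + b) * e x y z else 0) +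
      (if c z = nxt (c x) (c y) then (k : ℤ) * e x y z else 0)) =
      (a : ℤ) * vlt c x y - (a + b) * dlt c e x y + k * dnx c e x y := by
    intro a b k
    unfold vlt dlt dnx
    push_cast
    rw [mul_sum, mul_sum, mul_sum, ← sum_sub_distrib, ← sum_add_distrib]
    refine sum_congr rfl fun z _ => ?_
    split_ifs <;> simp
  by_cases h : c x = c y
  · simp only [if_pos h]
    rw [key r s m]
    have h3 := cast_sub_ge ((r + s) * dlt c e x y) (r * vlt c x y + m * dnx c e x y)
    push_cast at h3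
    linarith
  · simp only [if_neg h]
    rw [key p q l]
    have h3 := cast_sub_ge ((p + q) * dlt c e x y) (p * vlt c x y + l * dnx c e x y)
    push_cast at h3
    linarith

theorem mg_sumC (mt : ℕ → ℕ) (O T p q r s l m : ℕ) (hT : ∀ i < 432, mt i ≤ T) (hq : T * q ≤ O)
    (hs : T * s ≤ O) (c : V → ℕ) (hc : ∀ x, c x < 3) (e : V → V → V → ℕ)
    (e1 : ∀ x y z, e x y z ≤ 1) :
    O * Fintype.card V ^ 5 ≤
      ∑ x : Fin 5 → V, mg (mqC mt O p q r s l m) c e (x 0) (x 1) (x 2) (x 3) (x 4) +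
        T * (Fintype.card V ^ 2 * ∑ x, ∑ y, dfcC p q r s l m c e x y) := by
  rw [sum_five]
  have h : ∀ x y u w : V, O * Fintype.card V ≤
      ∑ z, mg (mqC mt O p q r s l m) c e x y u w z + T * dfcC p q r s l m c e x y := by
    intro x y u w
    set i := mix (rc (c x) (c y)) (rc (c x) (c u)) (rc (c x) (c w)) (e x y u) (e x y w) (e x u w)
      (e y u w) with hi
    have hi432 : i < 432 := by
      have a1 := rc_lt (c x) (c y)
      have a2 := rc_lt (c x) (c u)
      have a3 := rc_lt (c x) (c w)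
      have a4 := e1 x y u
      have a5 := e1 x y w
      have a6 := e1 x u w
      have a7 := e1 y u w
      show 16 * (3 * (3 * rc (c x) (c y) + rc (c x) (c u)) + rc (c x) (c w)) +
        ((e x y u + 2 * e x y w) + (4 * e x u w + 8 * e y u w)) < 432
      omega
    have ht := hT i hi432
    have hq' : mt i * q ≤ O := (Nat.mul_le_mul_right q ht).trans hq
    have hs' : mt i * s ≤ O := (Nat.mul_le_mul_right s ht).trans hs
    have h1 : ∀ z, ((mg (mqC mt O p q r s l m) c e x y u w z : ℕ) : ℤ) =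
        O + mt i * facW p q r s l m (kindC (rc (c x) (c y)) (rc (c x) (c z)) (e x y z)) := fun z =>
      mk2_cast O p q r s l m (mt i) hq' hs' _
    have h2 := fac_sumC p q r s l m c hc e e1 x y
    have h3 : ((∑ z, mg (mqC mt O p q r s l m) c e x y u w z : ℕ) : ℤ) = O * Fintype.card V +
        mt i * ∑ z, facW p q r s l m (kindC (rc (c x) (c y)) (rc (c x) (c z)) (e x y z)) := by
      push_cast
      simp only [h1, sum_add_distrib, sum_const, card_univ, nsmul_eq_mul, mul_sum]
      ring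
    have h4 : (0 : ℤ) ≤ mt i := Int.natCast_nonneg _
    have h5 : ((mt i : ℕ) : ℤ) ≤ T := by exact_mod_cast ht
    have h6 : (0 : ℤ) ≤ ((dfcC p q r s l m c e x y : ℕ) : ℤ) := Int.natCast_nonneg _
    have h7 : ((O * Fintype.card V : ℕ) : ℤ) ≤
        ((∑ z, mg (mqC mt O p q r s l m) c e x y u w z + T * dfcC p q r s l m c e x y : ℕ) : ℤ) := by
      rw [Nat.cast_add, h3]
      push_cast
      have h8 := mul_le_mul_of_nonneg_left h2 h4
      have h9 := mul_le_mul_of_nonneg_right h5 h6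
      linarith
    exact_mod_cast h7
  calc O * Fintype.card V ^ 5
      = ∑ _x : V, ∑ _y : V, ∑ _u : V, ∑ _w : V, O * Fintype.card V := by
        simp only [sum_const, card_univ, smul_eq_mul]; ring
    _ ≤ ∑ x : V, ∑ y : V, ∑ u : V, ∑ w : V,
        (∑ z, mg (mqC mt O p q r s l m) c e x y u w z + T * dfcC p q r s l m c e x y) :=
        sum_le_sum fun x _ => sum_le_sum fun y _ => sum_le_sum fun u _ => sum_le_sum fun w _ =>
          h x y u w
    _ = _ := by
        simp only [sum_add_distrib, sum_const, card_univ, smul_eq_mul, mul_sum]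
        congr 1
        refine sum_congr rfl fun x _ => sum_congr rfl fun y _ => ?_
        ring

variable {val : ℕ → ℕ → ℕ → ℕ} {rows : ℕ → List (List ℤ)} {OFF : ℕ}

/-- The inequality with the number of wrong triples. -/
theorem mainC (hG : Good val rows OFF) (W g : ℕ) (mt : ℕ → ℕ) (O T p q r s l m : ℕ)
    (hT : ∀ i < 432, mt i ≤ T) (hq : T * q ≤ O) (hs : T * s ≤ O)
    (hmv : symOK (mqC mt O p q r s l m) = true)
    (hchk : ∀ C0 C1 C2 C3 C4 : ℕ, C0 ≤ C1 → C1 ≤ C2 → C2 ≤ C3 → C3 ≤ C4 → C4 < 3 →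
      chkT false val (mqC mt O p q r s l m) W (50 * W + 75 * OFF + 30 * O) g C0 C1 C2 C3 C4 = true)
    (c : V → ℕ) (hc : ∀ x, c x < 3) (e : V → V → V → ℕ) (e1 : ∀ x y z, e x y z ≤ 1)
    (s1 : ∀ x y z, e x y z = e y x z) (s2 : ∀ x y z, e x y z = e x z y)
    (hK : ∀ x y z w, e x y z = 0 ∨ e x y w = 0 ∨ e x z w = 0 ∨ e y z w = 0) :
    90 * W * (Fintype.card V ^ 2 * ∑ a, ∑ b, ∑ d, e a b d) +
      g * (Fintype.card V ^ 2 * ∑ a, ∑ b, ∑ d, wg c e a b d) ≤
      50 * W * Fintype.card V ^ 5 +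
        30 * (T * (Fintype.card V ^ 2 * ∑ x, ∑ y, dfcC p q r s l m c e x y)) := by
  have hsum : ∑ x : Fin 5 → V, (S60 (v3 val c e) (x 0) (x 1) (x 2) (x 3) (x 4) +
      S15 (v1 val c e) (x 0) (x 1) (x 2) (x 3) (x 4) + 9 * W * S10 e (x 0) (x 1) (x 2) (x 3) (x 4) +
      S30 (mg (mqC mt O p q r s l m) c e) (x 0) (x 1) (x 2) (x 3) (x 4) +
      g * sg (S10 (wg c e) (x 0) (x 1) (x 2) (x 3) (x 4))) ≤
      ∑ _x : Fin 5 → V, (50 * W + 75 * OFF + 30 * O) :=
    sum_le_sum fun x _ => keyT hG false W _ g _ hmv hchk c hc e e1 s1 s2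
      (fun h => absurd h (by decide)) hK _ _ _ _ _
  rw [sum_add_distrib, sum_add_distrib, sum_add_distrib, sum_add_distrib, ← mul_sum, ← mul_sum,
    sum_S60, sum_S15, sum_S10, sum_S30, e_sum, sum_const, card_univ, smul_eq_mul, Fintype.card_fun,
    Fintype.card_fin] at hsum
  have h3 := v3_sum hG c e e1
  have h1 := v1_sum hG c e e1
  have hm := mg_sumC mt O T p q r s l m hT hq hs c hc e e1
  have hw := Nat.mul_le_mul_left g (wrong_le c e)
  nlinarith [hsum, h3, h1, hm, hw]

end Pool.Agent.Y439.Col
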