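import Mathlib

set_option autoImplicit false

/-!
Positive semidefinite integer matrices: a kernel check by fraction-free elimination for symmetric
matrices given by the rows of their upper triangles, and the resulting inequality for double sums.
-/

namespace Pool.Agent.Y439.Col

def dotf : List ℤ → ℕ → (ℕ → ℤ) → ℤ
  | [], _, _ => 0
  | a :: t, k, v => a * v k + dotf t (k + 1) v

/-- The bilinear form of the symmetric matrix with the given upper triangular rows. -/
def bil : List (List ℤ) → ℕ → (ℕ → ℤ) → (ℕ → ℤ) → ℤ
  | [], _, _, _ => 0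
  | [] :: rs, k, u, v => bil rs (k + 1) u v
  | (p :: t) :: rs, k, u, v =>
      p * u k * v k + u k * dotf t (k + 1) v + v k * dotf t (k + 1) u + bil rs (k + 1) u v

def elimRow (p q ti : ℤ) : List ℤ → List ℤ → List ℤ
  | m :: ms, tj :: ts => (p * m - ti * tj) / q :: elimRow p q ti ms ts
  | _, _ => []

def okRow (p q ti : ℤ) : List ℤ → List ℤ → Bool
  | m :: ms, tj :: ts =>
      decide (q * ((p * m - ti * tj) / q) = p * m - ti * tj) && okRow p q ti ms ts
  | [], [] => true
  | _, _ => false

def elimRows (p q : ℤ) : List ℤ → List (List ℤ) → List (List ℤ)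
  | ti :: ts, r :: rs => elimRow p q ti r (ti :: ts) :: elimRows p q ts rs
  | _, _ => []

def okRows (p q : ℤ) : List ℤ → List (List ℤ) → Bool
  | ti :: ts, r :: rs => okRow p q ti r (ti :: ts) && okRows p q ts rs
  | [], [] => true
  | _, _ => false

def psd : ℕ → ℤ → List (List ℤ) → Bool
  | _, _, [] => true
  | 0, _, _ :: _ => false
  | _ + 1, _, [] :: _ => false
  | k + 1, q, (p :: t) :: rs =>
      if p = 0 then (t.all fun a => decide (a = 0)) && psd k q rs
      else decide (0 < p) && okRows p q t rs && psd k p (elimRows p q t rs)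

theorem dotf_elimRow (p q ti : ℤ) (v : ℕ → ℤ) : ∀ (ms ts : List ℤ) (k : ℕ),
    okRow p q ti ms ts = true →
      q * dotf (elimRow p q ti ms ts) k v = p * dotf ms k v - ti * dotf ts k v
  | [], [], k, _ => by simp [elimRow, dotf]
  | [], _ :: _, k, h => by simp [okRow] at h
  | _ :: _, [], k, h => by simp [okRow] at h
  | m :: ms, tj :: ts, k, h => by
      simp only [okRow, Bool.and_eq_true, decide_eq_true_eq] at h
      have ih := dotf_elimRow p q ti v ms ts (k + 1) h.2
      simp only [elimRow, dotf]
      linear_combination (v k) * h.1 + ih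

theorem bil_elimRows (p q : ℤ) (v : ℕ → ℤ) : ∀ (t : List ℤ) (rs : List (List ℤ)) (k : ℕ),
    okRows p q t rs = true →
      q * bil (elimRows p q t rs) k v v = p * bil rs k v v - dotf t k v ^ 2
  | [], [], k, _ => by simp [elimRows, bil, dotf]
  | [], _ :: _, k, h => by simp [okRows] at h
  | _ :: _, [], k, h => by simp [okRows] at h
  | ti :: ts, [] :: rs, k, h => by simp [okRows, okRow] at h
  | ti :: ts, (m :: ms) :: rs, k, h => by
      simp only [okRows, okRow, Bool.and_eq_true, decide_eq_true_eq] at h
      have ih := bil_elimRows p q v ts rs (k + 1) h.2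
      have h2 := dotf_elimRow p q ti v ms ts (k + 1) h.1.2
      have h1 := h.1.1
      simp only [elimRows, elimRow, bil, dotf]
      linear_combination (v k) ^ 2 * h1 + 2 * (v k) * h2 + ih

theorem dotf_zero (v : ℕ → ℤ) : ∀ (t : List ℤ) (k : ℕ), (t.all fun a => decide (a = 0)) = true →
    dotf t k v = 0
  | [], _, _ => rfl
  | a :: t, k, h => by
      simp only [List.all_cons, Bool.and_eq_true, decide_eq_true_eq] at h
      simp only [dotf, h.1, dotf_zero v t (k + 1) h.2]
      ring

theorem psd_sound (v : ℕ → ℤ) : ∀ (k : ℕ) (q : ℤ) (rows : List (List ℤ)) (j : ℕ),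
    0 < q → psd k q rows = true → 0 ≤ bil rows j v v
  | k, q, [], j, _, _ => by simp [bil]
  | 0, q, r :: rs, j, _, h => by simp [psd] at h
  | k + 1, q, [] :: rs, j, _, h => by simp [psd] at h
  | k + 1, q, (p :: t) :: rs, j, hq, h => by
      rw [psd] at h
      by_cases hp : p = 0
      · rw [if_pos hp, Bool.and_eq_true] at h
        have h1 := dotf_zero v t (j + 1) h.1
        have h2 := psd_sound v k q rs (j + 1) hq h.2
        simp only [bil, hp, h1]
        linarith
      · rw [if_neg hp, Bool.and_eq_true, Bool.and_eq_true, decide_eq_true_eq] at h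
        obtain ⟨⟨h0, h1⟩, h2⟩ := h
        have h3 := psd_sound v k p (elimRows p q t rs) (j + 1) h0 h2
        have h4 := bil_elimRows p q v t rs (j + 1) h1
        have h5 : 0 ≤ p * (bil ((p :: t) :: rs) j v v) := by
          have e : p * (bil ((p :: t) :: rs) j v v) =
              (p * v j + dotf t (j + 1) v) ^ 2 + q * bil (elimRows p q t rs) (j + 1) v v := by
            rw [h4]
            simp only [bil]
            ring
          rw [e]
          have := mul_nonneg hq.le h3
          positivity
        exact nonneg_of_mul_nonneg_right h5 h0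

/-- Entries of the symmetric matrix. -/
def ent : List (List ℤ) → ℕ → ℕ → ℤ
  | [], _, _ => 0
  | r :: _, 0, g => r.getD g 0
  | r :: _, f + 1, 0 => r.getD (f + 1) 0
  | _ :: rs, f + 1, g + 1 => ent rs f g

theorem ent_comm : ∀ (rows : List (List ℤ)) (f g : ℕ), ent rows f g = ent rows g f
  | [], f, g => by simp [ent]
  | r :: rs, 0, 0 => rfl
  | r :: rs, 0, g + 1 => by simp [ent]
  | r :: rs, f + 1, 0 => by simp [ent]
  | r :: rs, f + 1, g + 1 => by simpa [ent] using ent_comm rs f g

def delta (f : ℕ) : ℕ → ℤ := fun i => if i = f then 1 else 0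

theorem dotf_delta_lt : ∀ (t : List ℤ) (k f : ℕ), f < k → dotf t k (delta f) = 0
  | [], _, _, _ => rfl
  | a :: t, k, f, h => by
      simp only [dotf, delta, if_neg (show ¬ k = f by omega)]
      rw [dotf_delta_lt t (k + 1) f (by omega)]
      ring

theorem dotf_delta : ∀ (t : List ℤ) (k g : ℕ), dotf t k (delta (k + g)) = t.getD g 0
  | [], _, _ => by simp [dotf]
  | a :: t, k, 0 => by
      simp only [dotf, Nat.add_zero]
      rw [dotf_delta_lt t (k + 1) k (by omega)]
      simp [delta]
  | a :: t, k, g + 1 => by
      have h := dotf_delta t (k + 1) g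
      rw [show k + 1 + g = k + (g + 1) by ring] at h
      simp only [dotf]
      rw [h]
      simp [delta]

theorem bil_delta_lt : ∀ (rs : List (List ℤ)) (j f : ℕ) (v : ℕ → ℤ), f < j →
    bil rs j (delta f) v = 0 := by
  intro rs
  induction rs with
  | nil => intros; simp [bil]
  | cons r rs ih =>
    intro j f v hf
    cases r with
    | nil => simpa [bil] using ih (j + 1) f v (by omega)
    | cons p t =>
      simp only [bil]
      rw [ih (j + 1) f v (by omega), dotf_delta_lt t (j + 1) f (by omega)]
      simp [delta, show ¬ j = f by omega]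

theorem bil_delta_lt' : ∀ (rs : List (List ℤ)) (j f : ℕ) (v : ℕ → ℤ), f < j →
    bil rs j v (delta f) = 0 := by
  intro rs
  induction rs with
  | nil => intros; simp [bil]
  | cons r rs ih =>
    intro j f v hf
    cases r with
    | nil => simpa [bil] using ih (j + 1) f v (by omega)
    | cons p t =>
      simp only [bil]
      rw [ih (j + 1) f v (by omega), dotf_delta_lt t (j + 1) f (by omega)]
      simp [delta, show ¬ j = f by omega]

theorem bil_delta : ∀ (rows : List (List ℤ)) (k f g : ℕ),
    bil rows k (delta (k + f)) (delta (k + g)) = ent rows f g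
  | [], _, _, _ => by simp [bil, ent]
  | [] :: rs, k, 0, 0 => by
      have := bil_delta_lt
      simp only [bil, ent, Nat.add_zero]
      rw [this rs (k + 1) k _ (by omega)]
      simp
  | [] :: rs, k, 0, g + 1 => by
      have := bil_delta_lt
      simp only [bil, ent, Nat.add_zero]
      rw [this rs (k + 1) k _ (by omega)]
      simp
  | [] :: rs, k, f + 1, 0 => by
      have := bil_delta_lt'
      simp only [bil, ent, Nat.add_zero]
      rw [this rs (k + 1) k _ (by omega)]
      simp
  | [] :: rs, k, f + 1, g + 1 => by
      have h := bil_delta rs (k + 1) f g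
      rw [show k + 1 + f = k + (f + 1) by ring, show k + 1 + g = k + (g + 1) by ring] at h
      simp only [bil, ent]
      exact h
  | (p :: t) :: rs, k, 0, g => by
      have := bil_delta_lt
      simp only [bil, Nat.add_zero]
      rw [this rs (k + 1) k _ (by omega), dotf_delta_lt t (k + 1) k (by omega)]
      cases g with
      | zero =>
        simp only [Nat.add_zero]
        rw [dotf_delta_lt t (k + 1) k (by omega)]
        simp [ent, delta]
      | succ g =>
        have h := dotf_delta t (k + 1) g
        rw [show k + 1 + g = k + (g + 1) by ring] at h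
        rw [h]
        simp [ent, delta]
  | (p :: t) :: rs, k, f + 1, 0 => by
      have := bil_delta_lt'
      have h := dotf_delta t (k + 1) f
      rw [show k + 1 + f = k + (f + 1) by ring] at h
      simp only [bil, Nat.add_zero]
      rw [this rs (k + 1) k _ (by omega), dotf_delta_lt t (k + 1) k (by omega), h]
      simp [ent, delta]
  | (p :: t) :: rs, k, f + 1, g + 1 => by
      have h := bil_delta rs (k + 1) f g
      rw [show k + 1 + f = k + (f + 1) by ring, show k + 1 + g = k + (g + 1) by ring] at h
      simp only [bil, ent]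
      rw [h]
      simp [delta]

theorem dotf_add {Y : Type*} (s : Finset Y) (u : Y → ℕ → ℤ) : ∀ (t : List ℤ) (k : ℕ),
    dotf t k (fun i => ∑ y ∈ s, u y i) = ∑ y ∈ s, dotf t k (u y)
  | [], _ => by simp [dotf]
  | a :: t, k => by
      simp only [dotf]
      rw [dotf_add s u t (k + 1), Finset.mul_sum, Finset.sum_add_distrib]

theorem bil_comm (u v : ℕ → ℤ) : ∀ (rows : List (List ℤ)) (k : ℕ),
    bil rows k u v = bil rows k v u
  | [], _ => by simp [bil]
  | [] :: rs, k => by simp only [bil]; exact bil_comm u v rs (k + 1)
  | (p :: t) :: rs, k => by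
      simp only [bil]
      rw [bil_comm u v rs (k + 1)]
      ring

theorem bil_sum {Y : Type*} (s : Finset Y) (u : Y → ℕ → ℤ) (v : ℕ → ℤ) :
    ∀ (rows : List (List ℤ)) (k : ℕ),
    bil rows k (fun i => ∑ y ∈ s, u y i) v = ∑ y ∈ s, bil rows k (u y) v
  | [], _ => by simp [bil]
  | [] :: rs, k => by simp only [bil]; exact bil_sum s u v rs (k + 1)
  | (p :: t) :: rs, k => by
      simp only [bil]
      rw [bil_sum s u v rs (k + 1), dotf_add]
      simp only [Finset.sum_add_distrib, Finset.sum_mul, Finset.mul_sum]

/-- For a positive semidefinite matrix the double sum of the entries over any family of indices is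
nonnegative. -/
theorem sum_nonneg_of_psd {Y : Type*} (s : Finset Y) (fl : Y → ℕ) (K : ℕ)
    (rows : List (List ℤ)) (h : psd K 1 rows = true) :
    0 ≤ ∑ y ∈ s, ∑ z ∈ s, ent rows (fl y) (fl z) := by
  have h1 := psd_sound (fun i => ∑ y ∈ s, delta (fl y) i) K 1 rows 0 one_pos h
  rw [bil_sum] at h1
  have e : ∀ y, bil rows 0 (delta (fl y)) (fun i => ∑ z ∈ s, delta (fl z) i) =
      ∑ z ∈ s, ent rows (fl y) (fl z) := by
    intro y
    rw [bil_comm, bil_sum]
    refine Finset.sum_congr rfl fun z _ => ?_
    have := bil_delta rows 0 (fl z) (fl y)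
    simp only [Nat.zero_add] at this
    rw [this, ent_comm]
  simp only [e] at h1
  exact h1

end Pool.Agent.Y439.Col
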