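import Pool.Agent.Y439.Col.Psd

set_option autoImplicit false

/-!
Symmetrised sums over the five entries of a 5-tuple (generated), their invariance under adjacent
transpositions, and their sums over all 5-tuples.
-/

namespace Pool.Agent.Y439.Col
open Finset

/-- Sum over the ordered triples of positions, the other two positions in increasing order. -/
def S60 {α : Type*} (h : α → α → α → α → α → ℕ) (x0 x1 x2 x3 x4 : α) : ℕ :=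
    (h x0 x1 x2 x3 x4 + h x0 x1 x3 x2 x4 + h x0 x1 x4 x2 x3 + h x0 x2 x1 x3 x4 +
     h x0 x2 x3 x1 x4 + h x0 x2 x4 x1 x3 + h x0 x3 x1 x2 x4 + h x0 x3 x2 x1 x4 +
     h x0 x3 x4 x1 x2 + h x0 x4 x1 x2 x3 + h x0 x4 x2 x1 x3 + h x0 x4 x3 x1 x2) +
    (h x1 x0 x2 x3 x4 + h x1 x0 x3 x2 x4 + h x1 x0 x4 x2 x3 + h x1 x2 x0 x3 x4 +
     h x1 x2 x3 x0 x4 + h x1 x2 x4 x0 x3 + h x1 x3 x0 x2 x4 + h x1 x3 x2 x0 x4 +
     h x1 x3 x4 x0 x2 + h x1 x4 x0 x2 x3 + h x1 x4 x2 x0 x3 + h x1 x4 x3 x0 x2) +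
    (h x2 x0 x1 x3 x4 + h x2 x0 x3 x1 x4 + h x2 x0 x4 x1 x3 + h x2 x1 x0 x3 x4 +
     h x2 x1 x3 x0 x4 + h x2 x1 x4 x0 x3 + h x2 x3 x0 x1 x4 + h x2 x3 x1 x0 x4 +
     h x2 x3 x4 x0 x1 + h x2 x4 x0 x1 x3 + h x2 x4 x1 x0 x3 + h x2 x4 x3 x0 x1) +
    (h x3 x0 x1 x2 x4 + h x3 x0 x2 x1 x4 + h x3 x0 x4 x1 x2 + h x3 x1 x0 x2 x4 +
     h x3 x1 x2 x0 x4 + h x3 x1 x4 x0 x2 + h x3 x2 x0 x1 x4 + h x3 x2 x1 x0 x4 +
     h x3 x2 x4 x0 x1 + h x3 x4 x0 x1 x2 + h x3 x4 x1 x0 x2 + h x3 x4 x2 x0 x1) +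
    (h x4 x0 x1 x2 x3 + h x4 x0 x2 x1 x3 + h x4 x0 x3 x1 x2 + h x4 x1 x0 x2 x3 +
     h x4 x1 x2 x0 x3 + h x4 x1 x3 x0 x2 + h x4 x2 x0 x1 x3 + h x4 x2 x1 x0 x3 +
     h x4 x2 x3 x0 x1 + h x4 x3 x0 x1 x2 + h x4 x3 x1 x0 x2 + h x4 x3 x2 x0 x1)

/-- Sum over a position and the three pairings of the others. -/
def S15 {α : Type*} (h : α → α → α → α → α → ℕ) (x0 x1 x2 x3 x4 : α) : ℕ :=
    h x0 x1 x2 x3 x4 + h x0 x1 x3 x2 x4 + h x0 x1 x4 x2 x3 + h x1 x0 x2 x3 x4 +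
    h x1 x0 x3 x2 x4 + h x1 x0 x4 x2 x3 + h x2 x0 x1 x3 x4 + h x2 x0 x3 x1 x4 +
    h x2 x0 x4 x1 x3 + h x3 x0 x1 x2 x4 + h x3 x0 x2 x1 x4 + h x3 x0 x4 x1 x2 +
    h x4 x0 x1 x2 x3 + h x4 x0 x2 x1 x3 + h x4 x0 x3 x1 x2

/-- Sum over the triples of positions. -/
def S10 {α : Type*} (e : α → α → α → ℕ) (x0 x1 x2 x3 x4 : α) : ℕ :=
    e x0 x1 x2 + e x0 x1 x3 + e x0 x1 x4 + e x0 x2 x3 + e x0 x2 x4 + e x0 x3 x4 + e x1 x2 x3 +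
    e x1 x2 x4 + e x1 x3 x4 + e x2 x3 x4

/-- Sum over all permutations. -/
def S120 {α : Type*} (h : α → α → α → α → α → ℕ) (x0 x1 x2 x3 x4 : α) : ℕ :=
    (h x0 x1 x2 x3 x4 + h x0 x1 x2 x4 x3 + h x0 x1 x3 x2 x4 + h x0 x1 x3 x4 x2 +
     h x0 x1 x4 x2 x3 + h x0 x1 x4 x3 x2 + h x0 x2 x1 x3 x4 + h x0 x2 x1 x4 x3 +
     h x0 x2 x3 x1 x4 + h x0 x2 x3 x4 x1 + h x0 x2 x4 x1 x3 + h x0 x2 x4 x3 x1) +
    (h x0 x3 x1 x2 x4 + h x0 x3 x1 x4 x2 + h x0 x3 x2 x1 x4 + h x0 x3 x2 x4 x1 +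
     h x0 x3 x4 x1 x2 + h x0 x3 x4 x2 x1 + h x0 x4 x1 x2 x3 + h x0 x4 x1 x3 x2 +
     h x0 x4 x2 x1 x3 + h x0 x4 x2 x3 x1 + h x0 x4 x3 x1 x2 + h x0 x4 x3 x2 x1) +
    (h x1 x0 x2 x3 x4 + h x1 x0 x2 x4 x3 + h x1 x0 x3 x2 x4 + h x1 x0 x3 x4 x2 +
     h x1 x0 x4 x2 x3 + h x1 x0 x4 x3 x2 + h x1 x2 x0 x3 x4 + h x1 x2 x0 x4 x3 +
     h x1 x2 x3 x0 x4 + h x1 x2 x3 x4 x0 + h x1 x2 x4 x0 x3 + h x1 x2 x4 x3 x0) +
    (h x1 x3 x0 x2 x4 + h x1 x3 x0 x4 x2 + h x1 x3 x2 x0 x4 + h x1 x3 x2 x4 x0 +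
     h x1 x3 x4 x0 x2 + h x1 x3 x4 x2 x0 + h x1 x4 x0 x2 x3 + h x1 x4 x0 x3 x2 +
     h x1 x4 x2 x0 x3 + h x1 x4 x2 x3 x0 + h x1 x4 x3 x0 x2 + h x1 x4 x3 x2 x0) +
    (h x2 x0 x1 x3 x4 + h x2 x0 x1 x4 x3 + h x2 x0 x3 x1 x4 + h x2 x0 x3 x4 x1 +
     h x2 x0 x4 x1 x3 + h x2 x0 x4 x3 x1 + h x2 x1 x0 x3 x4 + h x2 x1 x0 x4 x3 +
     h x2 x1 x3 x0 x4 + h x2 x1 x3 x4 x0 + h x2 x1 x4 x0 x3 + h x2 x1 x4 x3 x0) +
    (h x2 x3 x0 x1 x4 + h x2 x3 x0 x4 x1 + h x2 x3 x1 x0 x4 + h x2 x3 x1 x4 x0 +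
     h x2 x3 x4 x0 x1 + h x2 x3 x4 x1 x0 + h x2 x4 x0 x1 x3 + h x2 x4 x0 x3 x1 +
     h x2 x4 x1 x0 x3 + h x2 x4 x1 x3 x0 + h x2 x4 x3 x0 x1 + h x2 x4 x3 x1 x0) +
    (h x3 x0 x1 x2 x4 + h x3 x0 x1 x4 x2 + h x3 x0 x2 x1 x4 + h x3 x0 x2 x4 x1 +
     h x3 x0 x4 x1 x2 + h x3 x0 x4 x2 x1 + h x3 x1 x0 x2 x4 + h x3 x1 x0 x4 x2 +
     h x3 x1 x2 x0 x4 + h x3 x1 x2 x4 x0 + h x3 x1 x4 x0 x2 + h x3 x1 x4 x2 x0) +
    (h x3 x2 x0 x1 x4 + h x3 x2 x0 x4 x1 + h x3 x2 x1 x0 x4 + h x3 x2 x1 x4 x0 +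
     h x3 x2 x4 x0 x1 + h x3 x2 x4 x1 x0 + h x3 x4 x0 x1 x2 + h x3 x4 x0 x2 x1 +
     h x3 x4 x1 x0 x2 + h x3 x4 x1 x2 x0 + h x3 x4 x2 x0 x1 + h x3 x4 x2 x1 x0) +
    (h x4 x0 x1 x2 x3 + h x4 x0 x1 x3 x2 + h x4 x0 x2 x1 x3 + h x4 x0 x2 x3 x1 +
     h x4 x0 x3 x1 x2 + h x4 x0 x3 x2 x1 + h x4 x1 x0 x2 x3 + h x4 x1 x0 x3 x2 +
     h x4 x1 x2 x0 x3 + h x4 x1 x2 x3 x0 + h x4 x1 x3 x0 x2 + h x4 x1 x3 x2 x0) +
    (h x4 x2 x0 x1 x3 + h x4 x2 x0 x3 x1 + h x4 x2 x1 x0 x3 + h x4 x2 x1 x3 x0 +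
     h x4 x2 x3 x0 x1 + h x4 x2 x3 x1 x0 + h x4 x3 x0 x1 x2 + h x4 x3 x0 x2 x1 +
     h x4 x3 x1 x0 x2 + h x4 x3 x1 x2 x0 + h x4 x3 x2 x0 x1 + h x4 x3 x2 x1 x0)

theorem S60_sw0 {α : Type*} (h : α → α → α → α → α → ℕ)
    (hs : ∀ a b d u v, h a b d u v = h a b d v u) (x0 x1 x2 x3 x4 : α) :
    S60 h x1 x0 x2 x3 x4 = S60 h x0 x1 x2 x3 x4 := by
  simp only [S60, fun a b d => hs a b d x1 x0]
  ring

theorem S15_sw0 {α : Type*} (h : α → α → α → α → α → ℕ)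
    (h1 : ∀ a y z u w, h a y z u w = h a z y u w) (h2 : ∀ a y z u w, h a y z u w = h a y z w u)
    (h3 : ∀ a y z u w, h a y z u w = h a u w y z) (x0 x1 x2 x3 x4 : α) :
    S15 h x1 x0 x2 x3 x4 = S15 h x0 x1 x2 x3 x4 := by
  simp only [S15, fun a u w => h1 a x1 x0 u w, fun a y z => h2 a y z x1 x0,
    fun a y z => h3 a x1 y x0 z]
  ring

theorem S10_sw0 {α : Type*} (e : α → α → α → ℕ)
    (h1 : ∀ a b d, e a b d = e b a d) (h2 : ∀ a b d, e a b d = e a d b) (x0 x1 x2 x3 x4 : α) :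
    S10 e x1 x0 x2 x3 x4 = S10 e x0 x1 x2 x3 x4 := by
  simp only [S10, fun a => h1 x1 x0 a, fun a => h2 a x1 x0]
  ring

theorem S120_sw0 {α : Type*} (h : α → α → α → α → α → ℕ) (x0 x1 x2 x3 x4 : α) :
    S120 h x1 x0 x2 x3 x4 = S120 h x0 x1 x2 x3 x4 := by
  simp only [S120]
  ring

theorem S60_sw1 {α : Type*} (h : α → α → α → α → α → ℕ)
    (hs : ∀ a b d u v, h a b d u v = h a b d v u) (x0 x1 x2 x3 x4 : α) :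
    S60 h x0 x2 x1 x3 x4 = S60 h x0 x1 x2 x3 x4 := by
  simp only [S60, fun a b d => hs a b d x2 x1]
  ring

theorem S15_sw1 {α : Type*} (h : α → α → α → α → α → ℕ)
    (h1 : ∀ a y z u w, h a y z u w = h a z y u w) (h2 : ∀ a y z u w, h a y z u w = h a y z w u)
    (h3 : ∀ a y z u w, h a y z u w = h a u w y z) (x0 x1 x2 x3 x4 : α) :
    S15 h x0 x2 x1 x3 x4 = S15 h x0 x1 x2 x3 x4 := by
  simp only [S15, fun a u w => h1 a x2 x1 u w, fun a y z => h2 a y z x2 x1,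
    fun a y z => h3 a x2 y x1 z]
  ring

theorem S10_sw1 {α : Type*} (e : α → α → α → ℕ)
    (h1 : ∀ a b d, e a b d = e b a d) (h2 : ∀ a b d, e a b d = e a d b) (x0 x1 x2 x3 x4 : α) :
    S10 e x0 x2 x1 x3 x4 = S10 e x0 x1 x2 x3 x4 := by
  simp only [S10, fun a => h1 x2 x1 a, fun a => h2 a x2 x1]
  ring

theorem S120_sw1 {α : Type*} (h : α → α → α → α → α → ℕ) (x0 x1 x2 x3 x4 : α) :
    S120 h x0 x2 x1 x3 x4 = S120 h x0 x1 x2 x3 x4 := by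
  simp only [S120]
  ring

theorem S60_sw2 {α : Type*} (h : α → α → α → α → α → ℕ)
    (hs : ∀ a b d u v, h a b d u v = h a b d v u) (x0 x1 x2 x3 x4 : α) :
    S60 h x0 x1 x3 x2 x4 = S60 h x0 x1 x2 x3 x4 := by
  simp only [S60, fun a b d => hs a b d x3 x2]
  ring

theorem S15_sw2 {α : Type*} (h : α → α → α → α → α → ℕ)
    (h1 : ∀ a y z u w, h a y z u w = h a z y u w) (h2 : ∀ a y z u w, h a y z u w = h a y z w u)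
    (h3 : ∀ a y z u w, h a y z u w = h a u w y z) (x0 x1 x2 x3 x4 : α) :
    S15 h x0 x1 x3 x2 x4 = S15 h x0 x1 x2 x3 x4 := by
  simp only [S15, fun a u w => h1 a x3 x2 u w, fun a y z => h2 a y z x3 x2,
    fun a y z => h3 a x3 y x2 z]
  ring

theorem S10_sw2 {α : Type*} (e : α → α → α → ℕ)
    (h1 : ∀ a b d, e a b d = e b a d) (h2 : ∀ a b d, e a b d = e a d b) (x0 x1 x2 x3 x4 : α) :
    S10 e x0 x1 x3 x2 x4 = S10 e x0 x1 x2 x3 x4 := by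
  simp only [S10, fun a => h1 x3 x2 a, fun a => h2 a x3 x2]
  ring

theorem S120_sw2 {α : Type*} (h : α → α → α → α → α → ℕ) (x0 x1 x2 x3 x4 : α) :
    S120 h x0 x1 x3 x2 x4 = S120 h x0 x1 x2 x3 x4 := by
  simp only [S120]
  ring

theorem S60_sw3 {α : Type*} (h : α → α → α → α → α → ℕ)
    (hs : ∀ a b d u v, h a b d u v = h a b d v u) (x0 x1 x2 x3 x4 : α) :
    S60 h x0 x1 x2 x4 x3 = S60 h x0 x1 x2 x3 x4 := by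
  simp only [S60, fun a b d => hs a b d x4 x3]
  ring

theorem S15_sw3 {α : Type*} (h : α → α → α → α → α → ℕ)
    (h1 : ∀ a y z u w, h a y z u w = h a z y u w) (h2 : ∀ a y z u w, h a y z u w = h a y z w u)
    (h3 : ∀ a y z u w, h a y z u w = h a u w y z) (x0 x1 x2 x3 x4 : α) :
    S15 h x0 x1 x2 x4 x3 = S15 h x0 x1 x2 x3 x4 := by
  simp only [S15, fun a u w => h1 a x4 x3 u w, fun a y z => h2 a y z x4 x3,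
    fun a y z => h3 a x4 y x3 z]
  ring

theorem S10_sw3 {α : Type*} (e : α → α → α → ℕ)
    (h1 : ∀ a b d, e a b d = e b a d) (h2 : ∀ a b d, e a b d = e a d b) (x0 x1 x2 x3 x4 : α) :
    S10 e x0 x1 x2 x4 x3 = S10 e x0 x1 x2 x3 x4 := by
  simp only [S10, fun a => h1 x4 x3 a, fun a => h2 a x4 x3]
  ring

theorem S120_sw3 {α : Type*} (h : α → α → α → α → α → ℕ) (x0 x1 x2 x3 x4 : α) :
    S120 h x0 x1 x2 x4 x3 = S120 h x0 x1 x2 x3 x4 := by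
  simp only [S120]
  ring

theorem reidx {V : Type*} [Fintype V] (f : (Fin 5 → V) → ℕ) (p : Fin 5 → Fin 5)
    (hp : Function.Injective p) : ∑ x : Fin 5 → V, f (fun i => x (p i)) = ∑ x, f x := by
  have hb : Function.Bijective p := Finite.injective_iff_bijective.1 hp
  exact Fintype.sum_equiv (Equiv.arrowCongr (Equiv.ofBijective p hb).symm (Equiv.refl V)) _ _
    (fun x => by
      congr 1)

theorem sum_S60 {V : Type*} [Fintype V] (h : V → V → V → V → V → ℕ) :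
    ∑ x : Fin 5 → V, S60 h (x 0) (x 1) (x 2) (x 3) (x 4) =
      60 * ∑ x : Fin 5 → V, h (x 0) (x 1) (x 2) (x 3) (x 4) := by
  have r := fun (p : Fin 5 → Fin 5) (hp : Function.Injective p) =>
    reidx (fun x : Fin 5 → V => h (x 0) (x 1) (x 2) (x 3) (x 4)) p hp
  have h0 : ∑ x : Fin 5 → V, h (x 0) (x 1) (x 2) (x 3) (x 4) =
      ∑ x : Fin 5 → V, h (x 0) (x 1) (x 2) (x 3) (x 4) := r ![0,1,2,3,4] (by decide)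
  have h1 : ∑ x : Fin 5 → V, h (x 0) (x 1) (x 3) (x 2) (x 4) =
      ∑ x : Fin 5 → V, h (x 0) (x 1) (x 2) (x 3) (x 4) := r ![0,1,3,2,4] (by decide)
  have h2 : ∑ x : Fin 5 → V, h (x 0) (x 1) (x 4) (x 2) (x 3) =
      ∑ x : Fin 5 → V, h (x 0) (x 1) (x 2) (x 3) (x 4) := r ![0,1,4,2,3] (by decide)
  have h3 : ∑ x : Fin 5 → V, h (x 0) (x 2) (x 1) (x 3) (x 4) =
      ∑ x : Fin 5 → V, h (x 0) (x 1) (x 2) (x 3) (x 4) := r ![0,2,1,3,4] (by decide)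
  have h4 : ∑ x : Fin 5 → V, h (x 0) (x 2) (x 3) (x 1) (x 4) =
      ∑ x : Fin 5 → V, h (x 0) (x 1) (x 2) (x 3) (x 4) := r ![0,2,3,1,4] (by decide)
  have h5 : ∑ x : Fin 5 → V, h (x 0) (x 2) (x 4) (x 1) (x 3) =
      ∑ x : Fin 5 → V, h (x 0) (x 1) (x 2) (x 3) (x 4) := r ![0,2,4,1,3] (by decide)
  have h6 : ∑ x : Fin 5 → V, h (x 0) (x 3) (x 1) (x 2) (x 4) =
      ∑ x : Fin 5 → V, h (x 0) (x 1) (x 2) (x 3) (x 4) := r ![0,3,1,2,4] (by decide)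
  have h7 : ∑ x : Fin 5 → V, h (x 0) (x 3) (x 2) (x 1) (x 4) =
      ∑ x : Fin 5 → V, h (x 0) (x 1) (x 2) (x 3) (x 4) := r ![0,3,2,1,4] (by decide)
  have h8 : ∑ x : Fin 5 → V, h (x 0) (x 3) (x 4) (x 1) (x 2) =
      ∑ x : Fin 5 → V, h (x 0) (x 1) (x 2) (x 3) (x 4) := r ![0,3,4,1,2] (by decide)
  have h9 : ∑ x : Fin 5 → V, h (x 0) (x 4) (x 1) (x 2) (x 3) =
      ∑ x : Fin 5 → V, h (x 0) (x 1) (x 2) (x 3) (x 4) := r ![0,4,1,2,3] (by decide)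
  have h10 : ∑ x : Fin 5 → V, h (x 0) (x 4) (x 2) (x 1) (x 3) =
      ∑ x : Fin 5 → V, h (x 0) (x 1) (x 2) (x 3) (x 4) := r ![0,4,2,1,3] (by decide)
  have h11 : ∑ x : Fin 5 → V, h (x 0) (x 4) (x 3) (x 1) (x 2) =
      ∑ x : Fin 5 → V, h (x 0) (x 1) (x 2) (x 3) (x 4) := r ![0,4,3,1,2] (by decide)
  have h12 : ∑ x : Fin 5 → V, h (x 1) (x 0) (x 2) (x 3) (x 4) =
      ∑ x : Fin 5 → V, h (x 0) (x 1) (x 2) (x 3) (x 4) := r ![1,0,2,3,4] (by decide)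
  have h13 : ∑ x : Fin 5 → V, h (x 1) (x 0) (x 3) (x 2) (x 4) =
      ∑ x : Fin 5 → V, h (x 0) (x 1) (x 2) (x 3) (x 4) := r ![1,0,3,2,4] (by decide)
  have h14 : ∑ x : Fin 5 → V, h (x 1) (x 0) (x 4) (x 2) (x 3) =
      ∑ x : Fin 5 → V, h (x 0) (x 1) (x 2) (x 3) (x 4) := r ![1,0,4,2,3] (by decide)
  have h15 : ∑ x : Fin 5 → V, h (x 1) (x 2) (x 0) (x 3) (x 4) =
      ∑ x : Fin 5 → V, h (x 0) (x 1) (x 2) (x 3) (x 4) := r ![1,2,0,3,4] (by decide)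
  have h16 : ∑ x : Fin 5 → V, h (x 1) (x 2) (x 3) (x 0) (x 4) =
      ∑ x : Fin 5 → V, h (x 0) (x 1) (x 2) (x 3) (x 4) := r ![1,2,3,0,4] (by decide)
  have h17 : ∑ x : Fin 5 → V, h (x 1) (x 2) (x 4) (x 0) (x 3) =
      ∑ x : Fin 5 → V, h (x 0) (x 1) (x 2) (x 3) (x 4) := r ![1,2,4,0,3] (by decide)
  have h18 : ∑ x : Fin 5 → V, h (x 1) (x 3) (x 0) (x 2) (x 4) =
      ∑ x : Fin 5 → V, h (x 0) (x 1) (x 2) (x 3) (x 4) := r ![1,3,0,2,4] (by decide)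
  have h19 : ∑ x : Fin 5 → V, h (x 1) (x 3) (x 2) (x 0) (x 4) =
      ∑ x : Fin 5 → V, h (x 0) (x 1) (x 2) (x 3) (x 4) := r ![1,3,2,0,4] (by decide)
  have h20 : ∑ x : Fin 5 → V, h (x 1) (x 3) (x 4) (x 0) (x 2) =
      ∑ x : Fin 5 → V, h (x 0) (x 1) (x 2) (x 3) (x 4) := r ![1,3,4,0,2] (by decide)
  have h21 : ∑ x : Fin 5 → V, h (x 1) (x 4) (x 0) (x 2) (x 3) =
      ∑ x : Fin 5 → V, h (x 0) (x 1) (x 2) (x 3) (x 4) := r ![1,4,0,2,3] (by decide)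
  have h22 : ∑ x : Fin 5 → V, h (x 1) (x 4) (x 2) (x 0) (x 3) =
      ∑ x : Fin 5 → V, h (x 0) (x 1) (x 2) (x 3) (x 4) := r ![1,4,2,0,3] (by decide)
  have h23 : ∑ x : Fin 5 → V, h (x 1) (x 4) (x 3) (x 0) (x 2) =
      ∑ x : Fin 5 → V, h (x 0) (x 1) (x 2) (x 3) (x 4) := r ![1,4,3,0,2] (by decide)
  have h24 : ∑ x : Fin 5 → V, h (x 2) (x 0) (x 1) (x 3) (x 4) =
      ∑ x : Fin 5 → V, h (x 0) (x 1) (x 2) (x 3) (x 4) := r ![2,0,1,3,4] (by decide)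
  have h25 : ∑ x : Fin 5 → V, h (x 2) (x 0) (x 3) (x 1) (x 4) =
      ∑ x : Fin 5 → V, h (x 0) (x 1) (x 2) (x 3) (x 4) := r ![2,0,3,1,4] (by decide)
  have h26 : ∑ x : Fin 5 → V, h (x 2) (x 0) (x 4) (x 1) (x 3) =
      ∑ x : Fin 5 → V, h (x 0) (x 1) (x 2) (x 3) (x 4) := r ![2,0,4,1,3] (by decide)
  have h27 : ∑ x : Fin 5 → V, h (x 2) (x 1) (x 0) (x 3) (x 4) =
      ∑ x : Fin 5 → V, h (x 0) (x 1) (x 2) (x 3) (x 4) := r ![2,1,0,3,4] (by decide)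
  have h28 : ∑ x : Fin 5 → V, h (x 2) (x 1) (x 3) (x 0) (x 4) =
      ∑ x : Fin 5 → V, h (x 0) (x 1) (x 2) (x 3) (x 4) := r ![2,1,3,0,4] (by decide)
  have h29 : ∑ x : Fin 5 → V, h (x 2) (x 1) (x 4) (x 0) (x 3) =
      ∑ x : Fin 5 → V, h (x 0) (x 1) (x 2) (x 3) (x 4) := r ![2,1,4,0,3] (by decide)
  have h30 : ∑ x : Fin 5 → V, h (x 2) (x 3) (x 0) (x 1) (x 4) =
      ∑ x : Fin 5 → V, h (x 0) (x 1) (x 2) (x 3) (x 4) := r ![2,3,0,1,4] (by decide)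
  have h31 : ∑ x : Fin 5 → V, h (x 2) (x 3) (x 1) (x 0) (x 4) =
      ∑ x : Fin 5 → V, h (x 0) (x 1) (x 2) (x 3) (x 4) := r ![2,3,1,0,4] (by decide)
  have h32 : ∑ x : Fin 5 → V, h (x 2) (x 3) (x 4) (x 0) (x 1) =
      ∑ x : Fin 5 → V, h (x 0) (x 1) (x 2) (x 3) (x 4) := r ![2,3,4,0,1] (by decide)
  have h33 : ∑ x : Fin 5 → V, h (x 2) (x 4) (x 0) (x 1) (x 3) =
      ∑ x : Fin 5 → V, h (x 0) (x 1) (x 2) (x 3) (x 4) := r ![2,4,0,1,3] (by decide)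
  have h34 : ∑ x : Fin 5 → V, h (x 2) (x 4) (x 1) (x 0) (x 3) =
      ∑ x : Fin 5 → V, h (x 0) (x 1) (x 2) (x 3) (x 4) := r ![2,4,1,0,3] (by decide)
  have h35 : ∑ x : Fin 5 → V, h (x 2) (x 4) (x 3) (x 0) (x 1) =
      ∑ x : Fin 5 → V, h (x 0) (x 1) (x 2) (x 3) (x 4) := r ![2,4,3,0,1] (by decide)
  have h36 : ∑ x : Fin 5 → V, h (x 3) (x 0) (x 1) (x 2) (x 4) =
      ∑ x : Fin 5 → V, h (x 0) (x 1) (x 2) (x 3) (x 4) := r ![3,0,1,2,4] (by decide)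
  have h37 : ∑ x : Fin 5 → V, h (x 3) (x 0) (x 2) (x 1) (x 4) =
      ∑ x : Fin 5 → V, h (x 0) (x 1) (x 2) (x 3) (x 4) := r ![3,0,2,1,4] (by decide)
  have h38 : ∑ x : Fin 5 → V, h (x 3) (x 0) (x 4) (x 1) (x 2) =
      ∑ x : Fin 5 → V, h (x 0) (x 1) (x 2) (x 3) (x 4) := r ![3,0,4,1,2] (by decide)
  have h39 : ∑ x : Fin 5 → V, h (x 3) (x 1) (x 0) (x 2) (x 4) =
      ∑ x : Fin 5 → V, h (x 0) (x 1) (x 2) (x 3) (x 4) := r ![3,1,0,2,4] (by decide)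
  have h40 : ∑ x : Fin 5 → V, h (x 3) (x 1) (x 2) (x 0) (x 4) =
      ∑ x : Fin 5 → V, h (x 0) (x 1) (x 2) (x 3) (x 4) := r ![3,1,2,0,4] (by decide)
  have h41 : ∑ x : Fin 5 → V, h (x 3) (x 1) (x 4) (x 0) (x 2) =
      ∑ x : Fin 5 → V, h (x 0) (x 1) (x 2) (x 3) (x 4) := r ![3,1,4,0,2] (by decide)
  have h42 : ∑ x : Fin 5 → V, h (x 3) (x 2) (x 0) (x 1) (x 4) =
      ∑ x : Fin 5 → V, h (x 0) (x 1) (x 2) (x 3) (x 4) := r ![3,2,0,1,4] (by decide)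
  have h43 : ∑ x : Fin 5 → V, h (x 3) (x 2) (x 1) (x 0) (x 4) =
      ∑ x : Fin 5 → V, h (x 0) (x 1) (x 2) (x 3) (x 4) := r ![3,2,1,0,4] (by decide)
  have h44 : ∑ x : Fin 5 → V, h (x 3) (x 2) (x 4) (x 0) (x 1) =
      ∑ x : Fin 5 → V, h (x 0) (x 1) (x 2) (x 3) (x 4) := r ![3,2,4,0,1] (by decide)
  have h45 : ∑ x : Fin 5 → V, h (x 3) (x 4) (x 0) (x 1) (x 2) =
      ∑ x : Fin 5 → V, h (x 0) (x 1) (x 2) (x 3) (x 4) := r ![3,4,0,1,2] (by decide)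
  have h46 : ∑ x : Fin 5 → V, h (x 3) (x 4) (x 1) (x 0) (x 2) =
      ∑ x : Fin 5 → V, h (x 0) (x 1) (x 2) (x 3) (x 4) := r ![3,4,1,0,2] (by decide)
  have h47 : ∑ x : Fin 5 → V, h (x 3) (x 4) (x 2) (x 0) (x 1) =
      ∑ x : Fin 5 → V, h (x 0) (x 1) (x 2) (x 3) (x 4) := r ![3,4,2,0,1] (by decide)
  have h48 : ∑ x : Fin 5 → V, h (x 4) (x 0) (x 1) (x 2) (x 3) =
      ∑ x : Fin 5 → V, h (x 0) (x 1) (x 2) (x 3) (x 4) := r ![4,0,1,2,3] (by decide)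
  have h49 : ∑ x : Fin 5 → V, h (x 4) (x 0) (x 2) (x 1) (x 3) =
      ∑ x : Fin 5 → V, h (x 0) (x 1) (x 2) (x 3) (x 4) := r ![4,0,2,1,3] (by decide)
  have h50 : ∑ x : Fin 5 → V, h (x 4) (x 0) (x 3) (x 1) (x 2) =
      ∑ x : Fin 5 → V, h (x 0) (x 1) (x 2) (x 3) (x 4) := r ![4,0,3,1,2] (by decide)
  have h51 : ∑ x : Fin 5 → V, h (x 4) (x 1) (x 0) (x 2) (x 3) =
      ∑ x : Fin 5 → V, h (x 0) (x 1) (x 2) (x 3) (x 4) := r ![4,1,0,2,3] (by decide)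
  have h52 : ∑ x : Fin 5 → V, h (x 4) (x 1) (x 2) (x 0) (x 3) =
      ∑ x : Fin 5 → V, h (x 0) (x 1) (x 2) (x 3) (x 4) := r ![4,1,2,0,3] (by decide)
  have h53 : ∑ x : Fin 5 → V, h (x 4) (x 1) (x 3) (x 0) (x 2) =
      ∑ x : Fin 5 → V, h (x 0) (x 1) (x 2) (x 3) (x 4) := r ![4,1,3,0,2] (by decide)
  have h54 : ∑ x : Fin 5 → V, h (x 4) (x 2) (x 0) (x 1) (x 3) =
      ∑ x : Fin 5 → V, h (x 0) (x 1) (x 2) (x 3) (x 4) := r ![4,2,0,1,3] (by decide)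
  have h55 : ∑ x : Fin 5 → V, h (x 4) (x 2) (x 1) (x 0) (x 3) =
      ∑ x : Fin 5 → V, h (x 0) (x 1) (x 2) (x 3) (x 4) := r ![4,2,1,0,3] (by decide)
  have h56 : ∑ x : Fin 5 → V, h (x 4) (x 2) (x 3) (x 0) (x 1) =
      ∑ x : Fin 5 → V, h (x 0) (x 1) (x 2) (x 3) (x 4) := r ![4,2,3,0,1] (by decide)
  have h57 : ∑ x : Fin 5 → V, h (x 4) (x 3) (x 0) (x 1) (x 2) =
      ∑ x : Fin 5 → V, h (x 0) (x 1) (x 2) (x 3) (x 4) := r ![4,3,0,1,2] (by decide)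
  have h58 : ∑ x : Fin 5 → V, h (x 4) (x 3) (x 1) (x 0) (x 2) =
      ∑ x : Fin 5 → V, h (x 0) (x 1) (x 2) (x 3) (x 4) := r ![4,3,1,0,2] (by decide)
  have h59 : ∑ x : Fin 5 → V, h (x 4) (x 3) (x 2) (x 0) (x 1) =
      ∑ x : Fin 5 → V, h (x 0) (x 1) (x 2) (x 3) (x 4) := r ![4,3,2,0,1] (by decide)
  simp only [S60, sum_add_distrib]
  simp only [h0, h1, h2, h3, h4, h5, h6, h7, h8, h9, h10, h11, h12, h13, h14, h15, h16, h17, h18, h19, h20, h21, h22, h23, h24, h25, h26, h27, h28, h29, h30, h31, h32, h33, h34, h35, h36, h37, h38, h39, h40, h41, h42, h43, h44, h45, h46, h47, h48, h49, h50, h51, h52, h53, h54, h55, h56, h57, h58, h59]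
  ring

theorem sum_S15 {V : Type*} [Fintype V] (h : V → V → V → V → V → ℕ) :
    ∑ x : Fin 5 → V, S15 h (x 0) (x 1) (x 2) (x 3) (x 4) =
      15 * ∑ x : Fin 5 → V, h (x 0) (x 1) (x 2) (x 3) (x 4) := by
  have r := fun (p : Fin 5 → Fin 5) (hp : Function.Injective p) =>
    reidx (fun x : Fin 5 → V => h (x 0) (x 1) (x 2) (x 3) (x 4)) p hp
  have h0 : ∑ x : Fin 5 → V, h (x 0) (x 1) (x 2) (x 3) (x 4) =
      ∑ x : Fin 5 → V, h (x 0) (x 1) (x 2) (x 3) (x 4) := r ![0,1,2,3,4] (by decide)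
  have h1 : ∑ x : Fin 5 → V, h (x 0) (x 1) (x 3) (x 2) (x 4) =
      ∑ x : Fin 5 → V, h (x 0) (x 1) (x 2) (x 3) (x 4) := r ![0,1,3,2,4] (by decide)
  have h2 : ∑ x : Fin 5 → V, h (x 0) (x 1) (x 4) (x 2) (x 3) =
      ∑ x : Fin 5 → V, h (x 0) (x 1) (x 2) (x 3) (x 4) := r ![0,1,4,2,3] (by decide)
  have h3 : ∑ x : Fin 5 → V, h (x 1) (x 0) (x 2) (x 3) (x 4) =
      ∑ x : Fin 5 → V, h (x 0) (x 1) (x 2) (x 3) (x 4) := r ![1,0,2,3,4] (by decide)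
  have h4 : ∑ x : Fin 5 → V, h (x 1) (x 0) (x 3) (x 2) (x 4) =
      ∑ x : Fin 5 → V, h (x 0) (x 1) (x 2) (x 3) (x 4) := r ![1,0,3,2,4] (by decide)
  have h5 : ∑ x : Fin 5 → V, h (x 1) (x 0) (x 4) (x 2) (x 3) =
      ∑ x : Fin 5 → V, h (x 0) (x 1) (x 2) (x 3) (x 4) := r ![1,0,4,2,3] (by decide)
  have h6 : ∑ x : Fin 5 → V, h (x 2) (x 0) (x 1) (x 3) (x 4) =
      ∑ x : Fin 5 → V, h (x 0) (x 1) (x 2) (x 3) (x 4) := r ![2,0,1,3,4] (by decide)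
  have h7 : ∑ x : Fin 5 → V, h (x 2) (x 0) (x 3) (x 1) (x 4) =
      ∑ x : Fin 5 → V, h (x 0) (x 1) (x 2) (x 3) (x 4) := r ![2,0,3,1,4] (by decide)
  have h8 : ∑ x : Fin 5 → V, h (x 2) (x 0) (x 4) (x 1) (x 3) =
      ∑ x : Fin 5 → V, h (x 0) (x 1) (x 2) (x 3) (x 4) := r ![2,0,4,1,3] (by decide)
  have h9 : ∑ x : Fin 5 → V, h (x 3) (x 0) (x 1) (x 2) (x 4) =
      ∑ x : Fin 5 → V, h (x 0) (x 1) (x 2) (x 3) (x 4) := r ![3,0,1,2,4] (by decide)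
  have h10 : ∑ x : Fin 5 → V, h (x 3) (x 0) (x 2) (x 1) (x 4) =
      ∑ x : Fin 5 → V, h (x 0) (x 1) (x 2) (x 3) (x 4) := r ![3,0,2,1,4] (by decide)
  have h11 : ∑ x : Fin 5 → V, h (x 3) (x 0) (x 4) (x 1) (x 2) =
      ∑ x : Fin 5 → V, h (x 0) (x 1) (x 2) (x 3) (x 4) := r ![3,0,4,1,2] (by decide)
  have h12 : ∑ x : Fin 5 → V, h (x 4) (x 0) (x 1) (x 2) (x 3) =
      ∑ x : Fin 5 → V, h (x 0) (x 1) (x 2) (x 3) (x 4) := r ![4,0,1,2,3] (by decide)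
  have h13 : ∑ x : Fin 5 → V, h (x 4) (x 0) (x 2) (x 1) (x 3) =
      ∑ x : Fin 5 → V, h (x 0) (x 1) (x 2) (x 3) (x 4) := r ![4,0,2,1,3] (by decide)
  have h14 : ∑ x : Fin 5 → V, h (x 4) (x 0) (x 3) (x 1) (x 2) =
      ∑ x : Fin 5 → V, h (x 0) (x 1) (x 2) (x 3) (x 4) := r ![4,0,3,1,2] (by decide)
  simp only [S15, sum_add_distrib]
  simp only [h0, h1, h2, h3, h4, h5, h6, h7, h8, h9, h10, h11, h12, h13, h14]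
  ring

theorem sum_S120 {V : Type*} [Fintype V] (h : V → V → V → V → V → ℕ) :
    ∑ x : Fin 5 → V, S120 h (x 0) (x 1) (x 2) (x 3) (x 4) =
      120 * ∑ x : Fin 5 → V, h (x 0) (x 1) (x 2) (x 3) (x 4) := by
  have r := fun (p : Fin 5 → Fin 5) (hp : Function.Injective p) =>
    reidx (fun x : Fin 5 → V => h (x 0) (x 1) (x 2) (x 3) (x 4)) p hp
  have h0 : ∑ x : Fin 5 → V, h (x 0) (x 1) (x 2) (x 3) (x 4) =
      ∑ x : Fin 5 → V, h (x 0) (x 1) (x 2) (x 3) (x 4) := r ![0,1,2,3,4] (by decide)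
  have h1 : ∑ x : Fin 5 → V, h (x 0) (x 1) (x 2) (x 4) (x 3) =
      ∑ x : Fin 5 → V, h (x 0) (x 1) (x 2) (x 3) (x 4) := r ![0,1,2,4,3] (by decide)
  have h2 : ∑ x : Fin 5 → V, h (x 0) (x 1) (x 3) (x 2) (x 4) =
      ∑ x : Fin 5 → V, h (x 0) (x 1) (x 2) (x 3) (x 4) := r ![0,1,3,2,4] (by decide)
  have h3 : ∑ x : Fin 5 → V, h (x 0) (x 1) (x 3) (x 4) (x 2) =
      ∑ x : Fin 5 → V, h (x 0) (x 1) (x 2) (x 3) (x 4) := r ![0,1,3,4,2] (by decide)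
  have h4 : ∑ x : Fin 5 → V, h (x 0) (x 1) (x 4) (x 2) (x 3) =
      ∑ x : Fin 5 → V, h (x 0) (x 1) (x 2) (x 3) (x 4) := r ![0,1,4,2,3] (by decide)
  have h5 : ∑ x : Fin 5 → V, h (x 0) (x 1) (x 4) (x 3) (x 2) =
      ∑ x : Fin 5 → V, h (x 0) (x 1) (x 2) (x 3) (x 4) := r ![0,1,4,3,2] (by decide)
  have h6 : ∑ x : Fin 5 → V, h (x 0) (x 2) (x 1) (x 3) (x 4) =
      ∑ x : Fin 5 → V, h (x 0) (x 1) (x 2) (x 3) (x 4) := r ![0,2,1,3,4] (by decide)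
  have h7 : ∑ x : Fin 5 → V, h (x 0) (x 2) (x 1) (x 4) (x 3) =
      ∑ x : Fin 5 → V, h (x 0) (x 1) (x 2) (x 3) (x 4) := r ![0,2,1,4,3] (by decide)
  have h8 : ∑ x : Fin 5 → V, h (x 0) (x 2) (x 3) (x 1) (x 4) =
      ∑ x : Fin 5 → V, h (x 0) (x 1) (x 2) (x 3) (x 4) := r ![0,2,3,1,4] (by decide)
  have h9 : ∑ x : Fin 5 → V, h (x 0) (x 2) (x 3) (x 4) (x 1) =
      ∑ x : Fin 5 → V, h (x 0) (x 1) (x 2) (x 3) (x 4) := r ![0,2,3,4,1] (by decide)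
  have h10 : ∑ x : Fin 5 → V, h (x 0) (x 2) (x 4) (x 1) (x 3) =
      ∑ x : Fin 5 → V, h (x 0) (x 1) (x 2) (x 3) (x 4) := r ![0,2,4,1,3] (by decide)
  have h11 : ∑ x : Fin 5 → V, h (x 0) (x 2) (x 4) (x 3) (x 1) =
      ∑ x : Fin 5 → V, h (x 0) (x 1) (x 2) (x 3) (x 4) := r ![0,2,4,3,1] (by decide)
  have h12 : ∑ x : Fin 5 → V, h (x 0) (x 3) (x 1) (x 2) (x 4) =
      ∑ x : Fin 5 → V, h (x 0) (x 1) (x 2) (x 3) (x 4) := r ![0,3,1,2,4] (by decide)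
  have h13 : ∑ x : Fin 5 → V, h (x 0) (x 3) (x 1) (x 4) (x 2) =
      ∑ x : Fin 5 → V, h (x 0) (x 1) (x 2) (x 3) (x 4) := r ![0,3,1,4,2] (by decide)
  have h14 : ∑ x : Fin 5 → V, h (x 0) (x 3) (x 2) (x 1) (x 4) =
      ∑ x : Fin 5 → V, h (x 0) (x 1) (x 2) (x 3) (x 4) := r ![0,3,2,1,4] (by decide)
  have h15 : ∑ x : Fin 5 → V, h (x 0) (x 3) (x 2) (x 4) (x 1) =
      ∑ x : Fin 5 → V, h (x 0) (x 1) (x 2) (x 3) (x 4) := r ![0,3,2,4,1] (by decide)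
  have h16 : ∑ x : Fin 5 → V, h (x 0) (x 3) (x 4) (x 1) (x 2) =
      ∑ x : Fin 5 → V, h (x 0) (x 1) (x 2) (x 3) (x 4) := r ![0,3,4,1,2] (by decide)
  have h17 : ∑ x : Fin 5 → V, h (x 0) (x 3) (x 4) (x 2) (x 1) =
      ∑ x : Fin 5 → V, h (x 0) (x 1) (x 2) (x 3) (x 4) := r ![0,3,4,2,1] (by decide)
  have h18 : ∑ x : Fin 5 → V, h (x 0) (x 4) (x 1) (x 2) (x 3) =
      ∑ x : Fin 5 → V, h (x 0) (x 1) (x 2) (x 3) (x 4) := r ![0,4,1,2,3] (by decide)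
  have h19 : ∑ x : Fin 5 → V, h (x 0) (x 4) (x 1) (x 3) (x 2) =
      ∑ x : Fin 5 → V, h (x 0) (x 1) (x 2) (x 3) (x 4) := r ![0,4,1,3,2] (by decide)
  have h20 : ∑ x : Fin 5 → V, h (x 0) (x 4) (x 2) (x 1) (x 3) =
      ∑ x : Fin 5 → V, h (x 0) (x 1) (x 2) (x 3) (x 4) := r ![0,4,2,1,3] (by decide)
  have h21 : ∑ x : Fin 5 → V, h (x 0) (x 4) (x 2) (x 3) (x 1) =
      ∑ x : Fin 5 → V, h (x 0) (x 1) (x 2) (x 3) (x 4) := r ![0,4,2,3,1] (by decide)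
  have h22 : ∑ x : Fin 5 → V, h (x 0) (x 4) (x 3) (x 1) (x 2) =
      ∑ x : Fin 5 → V, h (x 0) (x 1) (x 2) (x 3) (x 4) := r ![0,4,3,1,2] (by decide)
  have h23 : ∑ x : Fin 5 → V, h (x 0) (x 4) (x 3) (x 2) (x 1) =
      ∑ x : Fin 5 → V, h (x 0) (x 1) (x 2) (x 3) (x 4) := r ![0,4,3,2,1] (by decide)
  have h24 : ∑ x : Fin 5 → V, h (x 1) (x 0) (x 2) (x 3) (x 4) =
      ∑ x : Fin 5 → V, h (x 0) (x 1) (x 2) (x 3) (x 4) := r ![1,0,2,3,4] (by decide)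
  have h25 : ∑ x : Fin 5 → V, h (x 1) (x 0) (x 2) (x 4) (x 3) =
      ∑ x : Fin 5 → V, h (x 0) (x 1) (x 2) (x 3) (x 4) := r ![1,0,2,4,3] (by decide)
  have h26 : ∑ x : Fin 5 → V, h (x 1) (x 0) (x 3) (x 2) (x 4) =
      ∑ x : Fin 5 → V, h (x 0) (x 1) (x 2) (x 3) (x 4) := r ![1,0,3,2,4] (by decide)
  have h27 : ∑ x : Fin 5 → V, h (x 1) (x 0) (x 3) (x 4) (x 2) =
      ∑ x : Fin 5 → V, h (x 0) (x 1) (x 2) (x 3) (x 4) := r ![1,0,3,4,2] (by decide)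
  have h28 : ∑ x : Fin 5 → V, h (x 1) (x 0) (x 4) (x 2) (x 3) =
      ∑ x : Fin 5 → V, h (x 0) (x 1) (x 2) (x 3) (x 4) := r ![1,0,4,2,3] (by decide)
  have h29 : ∑ x : Fin 5 → V, h (x 1) (x 0) (x 4) (x 3) (x 2) =
      ∑ x : Fin 5 → V, h (x 0) (x 1) (x 2) (x 3) (x 4) := r ![1,0,4,3,2] (by decide)
  have h30 : ∑ x : Fin 5 → V, h (x 1) (x 2) (x 0) (x 3) (x 4) =
      ∑ x : Fin 5 → V, h (x 0) (x 1) (x 2) (x 3) (x 4) := r ![1,2,0,3,4] (by decide)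
  have h31 : ∑ x : Fin 5 → V, h (x 1) (x 2) (x 0) (x 4) (x 3) =
      ∑ x : Fin 5 → V, h (x 0) (x 1) (x 2) (x 3) (x 4) := r ![1,2,0,4,3] (by decide)
  have h32 : ∑ x : Fin 5 → V, h (x 1) (x 2) (x 3) (x 0) (x 4) =
      ∑ x : Fin 5 → V, h (x 0) (x 1) (x 2) (x 3) (x 4) := r ![1,2,3,0,4] (by decide)
  have h33 : ∑ x : Fin 5 → V, h (x 1) (x 2) (x 3) (x 4) (x 0) =
      ∑ x : Fin 5 → V, h (x 0) (x 1) (x 2) (x 3) (x 4) := r ![1,2,3,4,0] (by decide)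
  have h34 : ∑ x : Fin 5 → V, h (x 1) (x 2) (x 4) (x 0) (x 3) =
      ∑ x : Fin 5 → V, h (x 0) (x 1) (x 2) (x 3) (x 4) := r ![1,2,4,0,3] (by decide)
  have h35 : ∑ x : Fin 5 → V, h (x 1) (x 2) (x 4) (x 3) (x 0) =
      ∑ x : Fin 5 → V, h (x 0) (x 1) (x 2) (x 3) (x 4) := r ![1,2,4,3,0] (by decide)
  have h36 : ∑ x : Fin 5 → V, h (x 1) (x 3) (x 0) (x 2) (x 4) =
      ∑ x : Fin 5 → V, h (x 0) (x 1) (x 2) (x 3) (x 4) := r ![1,3,0,2,4] (by decide)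
  have h37 : ∑ x : Fin 5 → V, h (x 1) (x 3) (x 0) (x 4) (x 2) =
      ∑ x : Fin 5 → V, h (x 0) (x 1) (x 2) (x 3) (x 4) := r ![1,3,0,4,2] (by decide)
  have h38 : ∑ x : Fin 5 → V, h (x 1) (x 3) (x 2) (x 0) (x 4) =
      ∑ x : Fin 5 → V, h (x 0) (x 1) (x 2) (x 3) (x 4) := r ![1,3,2,0,4] (by decide)
  have h39 : ∑ x : Fin 5 → V, h (x 1) (x 3) (x 2) (x 4) (x 0) =
      ∑ x : Fin 5 → V, h (x 0) (x 1) (x 2) (x 3) (x 4) := r ![1,3,2,4,0] (by decide)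
  have h40 : ∑ x : Fin 5 → V, h (x 1) (x 3) (x 4) (x 0) (x 2) =
      ∑ x : Fin 5 → V, h (x 0) (x 1) (x 2) (x 3) (x 4) := r ![1,3,4,0,2] (by decide)
  have h41 : ∑ x : Fin 5 → V, h (x 1) (x 3) (x 4) (x 2) (x 0) =
      ∑ x : Fin 5 → V, h (x 0) (x 1) (x 2) (x 3) (x 4) := r ![1,3,4,2,0] (by decide)
  have h42 : ∑ x : Fin 5 → V, h (x 1) (x 4) (x 0) (x 2) (x 3) =
      ∑ x : Fin 5 → V, h (x 0) (x 1) (x 2) (x 3) (x 4) := r ![1,4,0,2,3] (by decide)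
  have h43 : ∑ x : Fin 5 → V, h (x 1) (x 4) (x 0) (x 3) (x 2) =
      ∑ x : Fin 5 → V, h (x 0) (x 1) (x 2) (x 3) (x 4) := r ![1,4,0,3,2] (by decide)
  have h44 : ∑ x : Fin 5 → V, h (x 1) (x 4) (x 2) (x 0) (x 3) =
      ∑ x : Fin 5 → V, h (x 0) (x 1) (x 2) (x 3) (x 4) := r ![1,4,2,0,3] (by decide)
  have h45 : ∑ x : Fin 5 → V, h (x 1) (x 4) (x 2) (x 3) (x 0) =
      ∑ x : Fin 5 → V, h (x 0) (x 1) (x 2) (x 3) (x 4) := r ![1,4,2,3,0] (by decide)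
  have h46 : ∑ x : Fin 5 → V, h (x 1) (x 4) (x 3) (x 0) (x 2) =
      ∑ x : Fin 5 → V, h (x 0) (x 1) (x 2) (x 3) (x 4) := r ![1,4,3,0,2] (by decide)
  have h47 : ∑ x : Fin 5 → V, h (x 1) (x 4) (x 3) (x 2) (x 0) =
      ∑ x : Fin 5 → V, h (x 0) (x 1) (x 2) (x 3) (x 4) := r ![1,4,3,2,0] (by decide)
  have h48 : ∑ x : Fin 5 → V, h (x 2) (x 0) (x 1) (x 3) (x 4) =
      ∑ x : Fin 5 → V, h (x 0) (x 1) (x 2) (x 3) (x 4) := r ![2,0,1,3,4] (by decide)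
  have h49 : ∑ x : Fin 5 → V, h (x 2) (x 0) (x 1) (x 4) (x 3) =
      ∑ x : Fin 5 → V, h (x 0) (x 1) (x 2) (x 3) (x 4) := r ![2,0,1,4,3] (by decide)
  have h50 : ∑ x : Fin 5 → V, h (x 2) (x 0) (x 3) (x 1) (x 4) =
      ∑ x : Fin 5 → V, h (x 0) (x 1) (x 2) (x 3) (x 4) := r ![2,0,3,1,4] (by decide)
  have h51 : ∑ x : Fin 5 → V, h (x 2) (x 0) (x 3) (x 4) (x 1) =
      ∑ x : Fin 5 → V, h (x 0) (x 1) (x 2) (x 3) (x 4) := r ![2,0,3,4,1] (by decide)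
  have h52 : ∑ x : Fin 5 → V, h (x 2) (x 0) (x 4) (x 1) (x 3) =
      ∑ x : Fin 5 → V, h (x 0) (x 1) (x 2) (x 3) (x 4) := r ![2,0,4,1,3] (by decide)
  have h53 : ∑ x : Fin 5 → V, h (x 2) (x 0) (x 4) (x 3) (x 1) =
      ∑ x : Fin 5 → V, h (x 0) (x 1) (x 2) (x 3) (x 4) := r ![2,0,4,3,1] (by decide)
  have h54 : ∑ x : Fin 5 → V, h (x 2) (x 1) (x 0) (x 3) (x 4) =
      ∑ x : Fin 5 → V, h (x 0) (x 1) (x 2) (x 3) (x 4) := r ![2,1,0,3,4] (by decide)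
  have h55 : ∑ x : Fin 5 → V, h (x 2) (x 1) (x 0) (x 4) (x 3) =
      ∑ x : Fin 5 → V, h (x 0) (x 1) (x 2) (x 3) (x 4) := r ![2,1,0,4,3] (by decide)
  have h56 : ∑ x : Fin 5 → V, h (x 2) (x 1) (x 3) (x 0) (x 4) =
      ∑ x : Fin 5 → V, h (x 0) (x 1) (x 2) (x 3) (x 4) := r ![2,1,3,0,4] (by decide)
  have h57 : ∑ x : Fin 5 → V, h (x 2) (x 1) (x 3) (x 4) (x 0) =
      ∑ x : Fin 5 → V, h (x 0) (x 1) (x 2) (x 3) (x 4) := r ![2,1,3,4,0] (by decide)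
  have h58 : ∑ x : Fin 5 → V, h (x 2) (x 1) (x 4) (x 0) (x 3) =
      ∑ x : Fin 5 → V, h (x 0) (x 1) (x 2) (x 3) (x 4) := r ![2,1,4,0,3] (by decide)
  have h59 : ∑ x : Fin 5 → V, h (x 2) (x 1) (x 4) (x 3) (x 0) =
      ∑ x : Fin 5 → V, h (x 0) (x 1) (x 2) (x 3) (x 4) := r ![2,1,4,3,0] (by decide)
  have h60 : ∑ x : Fin 5 → V, h (x 2) (x 3) (x 0) (x 1) (x 4) =
      ∑ x : Fin 5 → V, h (x 0) (x 1) (x 2) (x 3) (x 4) := r ![2,3,0,1,4] (by decide)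
  have h61 : ∑ x : Fin 5 → V, h (x 2) (x 3) (x 0) (x 4) (x 1) =
      ∑ x : Fin 5 → V, h (x 0) (x 1) (x 2) (x 3) (x 4) := r ![2,3,0,4,1] (by decide)
  have h62 : ∑ x : Fin 5 → V, h (x 2) (x 3) (x 1) (x 0) (x 4) =
      ∑ x : Fin 5 → V, h (x 0) (x 1) (x 2) (x 3) (x 4) := r ![2,3,1,0,4] (by decide)
  have h63 : ∑ x : Fin 5 → V, h (x 2) (x 3) (x 1) (x 4) (x 0) =
      ∑ x : Fin 5 → V, h (x 0) (x 1) (x 2) (x 3) (x 4) := r ![2,3,1,4,0] (by decide)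
  have h64 : ∑ x : Fin 5 → V, h (x 2) (x 3) (x 4) (x 0) (x 1) =
      ∑ x : Fin 5 → V, h (x 0) (x 1) (x 2) (x 3) (x 4) := r ![2,3,4,0,1] (by decide)
  have h65 : ∑ x : Fin 5 → V, h (x 2) (x 3) (x 4) (x 1) (x 0) =
      ∑ x : Fin 5 → V, h (x 0) (x 1) (x 2) (x 3) (x 4) := r ![2,3,4,1,0] (by decide)
  have h66 : ∑ x : Fin 5 → V, h (x 2) (x 4) (x 0) (x 1) (x 3) =
      ∑ x : Fin 5 → V, h (x 0) (x 1) (x 2) (x 3) (x 4) := r ![2,4,0,1,3] (by decide)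
  have h67 : ∑ x : Fin 5 → V, h (x 2) (x 4) (x 0) (x 3) (x 1) =
      ∑ x : Fin 5 → V, h (x 0) (x 1) (x 2) (x 3) (x 4) := r ![2,4,0,3,1] (by decide)
  have h68 : ∑ x : Fin 5 → V, h (x 2) (x 4) (x 1) (x 0) (x 3) =
      ∑ x : Fin 5 → V, h (x 0) (x 1) (x 2) (x 3) (x 4) := r ![2,4,1,0,3] (by decide)
  have h69 : ∑ x : Fin 5 → V, h (x 2) (x 4) (x 1) (x 3) (x 0) =
      ∑ x : Fin 5 → V, h (x 0) (x 1) (x 2) (x 3) (x 4) := r ![2,4,1,3,0] (by decide)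
  have h70 : ∑ x : Fin 5 → V, h (x 2) (x 4) (x 3) (x 0) (x 1) =
      ∑ x : Fin 5 → V, h (x 0) (x 1) (x 2) (x 3) (x 4) := r ![2,4,3,0,1] (by decide)
  have h71 : ∑ x : Fin 5 → V, h (x 2) (x 4) (x 3) (x 1) (x 0) =
      ∑ x : Fin 5 → V, h (x 0) (x 1) (x 2) (x 3) (x 4) := r ![2,4,3,1,0] (by decide)
  have h72 : ∑ x : Fin 5 → V, h (x 3) (x 0) (x 1) (x 2) (x 4) =
      ∑ x : Fin 5 → V, h (x 0) (x 1) (x 2) (x 3) (x 4) := r ![3,0,1,2,4] (by decide)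
  have h73 : ∑ x : Fin 5 → V, h (x 3) (x 0) (x 1) (x 4) (x 2) =
      ∑ x : Fin 5 → V, h (x 0) (x 1) (x 2) (x 3) (x 4) := r ![3,0,1,4,2] (by decide)
  have h74 : ∑ x : Fin 5 → V, h (x 3) (x 0) (x 2) (x 1) (x 4) =
      ∑ x : Fin 5 → V, h (x 0) (x 1) (x 2) (x 3) (x 4) := r ![3,0,2,1,4] (by decide)
  have h75 : ∑ x : Fin 5 → V, h (x 3) (x 0) (x 2) (x 4) (x 1) =
      ∑ x : Fin 5 → V, h (x 0) (x 1) (x 2) (x 3) (x 4) := r ![3,0,2,4,1] (by decide)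
  have h76 : ∑ x : Fin 5 → V, h (x 3) (x 0) (x 4) (x 1) (x 2) =
      ∑ x : Fin 5 → V, h (x 0) (x 1) (x 2) (x 3) (x 4) := r ![3,0,4,1,2] (by decide)
  have h77 : ∑ x : Fin 5 → V, h (x 3) (x 0) (x 4) (x 2) (x 1) =
      ∑ x : Fin 5 → V, h (x 0) (x 1) (x 2) (x 3) (x 4) := r ![3,0,4,2,1] (by decide)
  have h78 : ∑ x : Fin 5 → V, h (x 3) (x 1) (x 0) (x 2) (x 4) =
      ∑ x : Fin 5 → V, h (x 0) (x 1) (x 2) (x 3) (x 4) := r ![3,1,0,2,4] (by decide)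
  have h79 : ∑ x : Fin 5 → V, h (x 3) (x 1) (x 0) (x 4) (x 2) =
      ∑ x : Fin 5 → V, h (x 0) (x 1) (x 2) (x 3) (x 4) := r ![3,1,0,4,2] (by decide)
  have h80 : ∑ x : Fin 5 → V, h (x 3) (x 1) (x 2) (x 0) (x 4) =
      ∑ x : Fin 5 → V, h (x 0) (x 1) (x 2) (x 3) (x 4) := r ![3,1,2,0,4] (by decide)
  have h81 : ∑ x : Fin 5 → V, h (x 3) (x 1) (x 2) (x 4) (x 0) =
      ∑ x : Fin 5 → V, h (x 0) (x 1) (x 2) (x 3) (x 4) := r ![3,1,2,4,0] (by decide)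
  have h82 : ∑ x : Fin 5 → V, h (x 3) (x 1) (x 4) (x 0) (x 2) =
      ∑ x : Fin 5 → V, h (x 0) (x 1) (x 2) (x 3) (x 4) := r ![3,1,4,0,2] (by decide)
  have h83 : ∑ x : Fin 5 → V, h (x 3) (x 1) (x 4) (x 2) (x 0) =
      ∑ x : Fin 5 → V, h (x 0) (x 1) (x 2) (x 3) (x 4) := r ![3,1,4,2,0] (by decide)
  have h84 : ∑ x : Fin 5 → V, h (x 3) (x 2) (x 0) (x 1) (x 4) =
      ∑ x : Fin 5 → V, h (x 0) (x 1) (x 2) (x 3) (x 4) := r ![3,2,0,1,4] (by decide)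
  have h85 : ∑ x : Fin 5 → V, h (x 3) (x 2) (x 0) (x 4) (x 1) =
      ∑ x : Fin 5 → V, h (x 0) (x 1) (x 2) (x 3) (x 4) := r ![3,2,0,4,1] (by decide)
  have h86 : ∑ x : Fin 5 → V, h (x 3) (x 2) (x 1) (x 0) (x 4) =
      ∑ x : Fin 5 → V, h (x 0) (x 1) (x 2) (x 3) (x 4) := r ![3,2,1,0,4] (by decide)
  have h87 : ∑ x : Fin 5 → V, h (x 3) (x 2) (x 1) (x 4) (x 0) =
      ∑ x : Fin 5 → V, h (x 0) (x 1) (x 2) (x 3) (x 4) := r ![3,2,1,4,0] (by decide)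
  have h88 : ∑ x : Fin 5 → V, h (x 3) (x 2) (x 4) (x 0) (x 1) =
      ∑ x : Fin 5 → V, h (x 0) (x 1) (x 2) (x 3) (x 4) := r ![3,2,4,0,1] (by decide)
  have h89 : ∑ x : Fin 5 → V, h (x 3) (x 2) (x 4) (x 1) (x 0) =
      ∑ x : Fin 5 → V, h (x 0) (x 1) (x 2) (x 3) (x 4) := r ![3,2,4,1,0] (by decide)
  have h90 : ∑ x : Fin 5 → V, h (x 3) (x 4) (x 0) (x 1) (x 2) =
      ∑ x : Fin 5 → V, h (x 0) (x 1) (x 2) (x 3) (x 4) := r ![3,4,0,1,2] (by decide)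
  have h91 : ∑ x : Fin 5 → V, h (x 3) (x 4) (x 0) (x 2) (x 1) =
      ∑ x : Fin 5 → V, h (x 0) (x 1) (x 2) (x 3) (x 4) := r ![3,4,0,2,1] (by decide)
  have h92 : ∑ x : Fin 5 → V, h (x 3) (x 4) (x 1) (x 0) (x 2) =
      ∑ x : Fin 5 → V, h (x 0) (x 1) (x 2) (x 3) (x 4) := r ![3,4,1,0,2] (by decide)
  have h93 : ∑ x : Fin 5 → V, h (x 3) (x 4) (x 1) (x 2) (x 0) =
      ∑ x : Fin 5 → V, h (x 0) (x 1) (x 2) (x 3) (x 4) := r ![3,4,1,2,0] (by decide)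
  have h94 : ∑ x : Fin 5 → V, h (x 3) (x 4) (x 2) (x 0) (x 1) =
      ∑ x : Fin 5 → V, h (x 0) (x 1) (x 2) (x 3) (x 4) := r ![3,4,2,0,1] (by decide)
  have h95 : ∑ x : Fin 5 → V, h (x 3) (x 4) (x 2) (x 1) (x 0) =
      ∑ x : Fin 5 → V, h (x 0) (x 1) (x 2) (x 3) (x 4) := r ![3,4,2,1,0] (by decide)
  have h96 : ∑ x : Fin 5 → V, h (x 4) (x 0) (x 1) (x 2) (x 3) =
      ∑ x : Fin 5 → V, h (x 0) (x 1) (x 2) (x 3) (x 4) := r ![4,0,1,2,3] (by decide)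
  have h97 : ∑ x : Fin 5 → V, h (x 4) (x 0) (x 1) (x 3) (x 2) =
      ∑ x : Fin 5 → V, h (x 0) (x 1) (x 2) (x 3) (x 4) := r ![4,0,1,3,2] (by decide)
  have h98 : ∑ x : Fin 5 → V, h (x 4) (x 0) (x 2) (x 1) (x 3) =
      ∑ x : Fin 5 → V, h (x 0) (x 1) (x 2) (x 3) (x 4) := r ![4,0,2,1,3] (by decide)
  have h99 : ∑ x : Fin 5 → V, h (x 4) (x 0) (x 2) (x 3) (x 1) =
      ∑ x : Fin 5 → V, h (x 0) (x 1) (x 2) (x 3) (x 4) := r ![4,0,2,3,1] (by decide)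
  have h100 : ∑ x : Fin 5 → V, h (x 4) (x 0) (x 3) (x 1) (x 2) =
      ∑ x : Fin 5 → V, h (x 0) (x 1) (x 2) (x 3) (x 4) := r ![4,0,3,1,2] (by decide)
  have h101 : ∑ x : Fin 5 → V, h (x 4) (x 0) (x 3) (x 2) (x 1) =
      ∑ x : Fin 5 → V, h (x 0) (x 1) (x 2) (x 3) (x 4) := r ![4,0,3,2,1] (by decide)
  have h102 : ∑ x : Fin 5 → V, h (x 4) (x 1) (x 0) (x 2) (x 3) =
      ∑ x : Fin 5 → V, h (x 0) (x 1) (x 2) (x 3) (x 4) := r ![4,1,0,2,3] (by decide)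
  have h103 : ∑ x : Fin 5 → V, h (x 4) (x 1) (x 0) (x 3) (x 2) =
      ∑ x : Fin 5 → V, h (x 0) (x 1) (x 2) (x 3) (x 4) := r ![4,1,0,3,2] (by decide)
  have h104 : ∑ x : Fin 5 → V, h (x 4) (x 1) (x 2) (x 0) (x 3) =
      ∑ x : Fin 5 → V, h (x 0) (x 1) (x 2) (x 3) (x 4) := r ![4,1,2,0,3] (by decide)
  have h105 : ∑ x : Fin 5 → V, h (x 4) (x 1) (x 2) (x 3) (x 0) =
      ∑ x : Fin 5 → V, h (x 0) (x 1) (x 2) (x 3) (x 4) := r ![4,1,2,3,0] (by decide)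
  have h106 : ∑ x : Fin 5 → V, h (x 4) (x 1) (x 3) (x 0) (x 2) =
      ∑ x : Fin 5 → V, h (x 0) (x 1) (x 2) (x 3) (x 4) := r ![4,1,3,0,2] (by decide)
  have h107 : ∑ x : Fin 5 → V, h (x 4) (x 1) (x 3) (x 2) (x 0) =
      ∑ x : Fin 5 → V, h (x 0) (x 1) (x 2) (x 3) (x 4) := r ![4,1,3,2,0] (by decide)
  have h108 : ∑ x : Fin 5 → V, h (x 4) (x 2) (x 0) (x 1) (x 3) =
      ∑ x : Fin 5 → V, h (x 0) (x 1) (x 2) (x 3) (x 4) := r ![4,2,0,1,3] (by decide)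
  have h109 : ∑ x : Fin 5 → V, h (x 4) (x 2) (x 0) (x 3) (x 1) =
      ∑ x : Fin 5 → V, h (x 0) (x 1) (x 2) (x 3) (x 4) := r ![4,2,0,3,1] (by decide)
  have h110 : ∑ x : Fin 5 → V, h (x 4) (x 2) (x 1) (x 0) (x 3) =
      ∑ x : Fin 5 → V, h (x 0) (x 1) (x 2) (x 3) (x 4) := r ![4,2,1,0,3] (by decide)
  have h111 : ∑ x : Fin 5 → V, h (x 4) (x 2) (x 1) (x 3) (x 0) =
      ∑ x : Fin 5 → V, h (x 0) (x 1) (x 2) (x 3) (x 4) := r ![4,2,1,3,0] (by decide)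
  have h112 : ∑ x : Fin 5 → V, h (x 4) (x 2) (x 3) (x 0) (x 1) =
      ∑ x : Fin 5 → V, h (x 0) (x 1) (x 2) (x 3) (x 4) := r ![4,2,3,0,1] (by decide)
  have h113 : ∑ x : Fin 5 → V, h (x 4) (x 2) (x 3) (x 1) (x 0) =
      ∑ x : Fin 5 → V, h (x 0) (x 1) (x 2) (x 3) (x 4) := r ![4,2,3,1,0] (by decide)
  have h114 : ∑ x : Fin 5 → V, h (x 4) (x 3) (x 0) (x 1) (x 2) =
      ∑ x : Fin 5 → V, h (x 0) (x 1) (x 2) (x 3) (x 4) := r ![4,3,0,1,2] (by decide)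
  have h115 : ∑ x : Fin 5 → V, h (x 4) (x 3) (x 0) (x 2) (x 1) =
      ∑ x : Fin 5 → V, h (x 0) (x 1) (x 2) (x 3) (x 4) := r ![4,3,0,2,1] (by decide)
  have h116 : ∑ x : Fin 5 → V, h (x 4) (x 3) (x 1) (x 0) (x 2) =
      ∑ x : Fin 5 → V, h (x 0) (x 1) (x 2) (x 3) (x 4) := r ![4,3,1,0,2] (by decide)
  have h117 : ∑ x : Fin 5 → V, h (x 4) (x 3) (x 1) (x 2) (x 0) =
      ∑ x : Fin 5 → V, h (x 0) (x 1) (x 2) (x 3) (x 4) := r ![4,3,1,2,0] (by decide)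
  have h118 : ∑ x : Fin 5 → V, h (x 4) (x 3) (x 2) (x 0) (x 1) =
      ∑ x : Fin 5 → V, h (x 0) (x 1) (x 2) (x 3) (x 4) := r ![4,3,2,0,1] (by decide)
  have h119 : ∑ x : Fin 5 → V, h (x 4) (x 3) (x 2) (x 1) (x 0) =
      ∑ x : Fin 5 → V, h (x 0) (x 1) (x 2) (x 3) (x 4) := r ![4,3,2,1,0] (by decide)
  simp only [S120, sum_add_distrib]
  simp only [h0, h1, h2, h3, h4, h5, h6, h7, h8, h9, h10, h11, h12, h13, h14, h15, h16, h17, h18, h19, h20, h21, h22, h23, h24, h25, h26, h27, h28, h29, h30, h31, h32, h33, h34, h35, h36, h37, h38, h39, h40, h41, h42, h43, h44, h45, h46, h47, h48, h49, h50, h51, h52, h53, h54, h55, h56, h57, h58, h59, h60, h61, h62, h63, h64, h65, h66, h67, h68, h69, h70, h71, h72, h73, h74, h75, h76, h77, h78, h79, h80, h81, h82, h83, h84, h85, h86, h87, h88, h89, h90, h91, h92, h93, h94, h95, h96,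 h97, h98, h99, h100, h101, h102, h103, h104, h105, h106, h107, h108, h109, h110, h111, h112, h113, h114, h115, h116, h117, h118, h119]
  ring

theorem sum_S10 {V : Type*} [Fintype V] (e : V → V → V → ℕ) :
    ∑ x : Fin 5 → V, S10 e (x 0) (x 1) (x 2) (x 3) (x 4) = 10 * ∑ x : Fin 5 → V, e (x 0) (x 1) (x 2) := by
  have r := fun (p : Fin 5 → Fin 5) (hp : Function.Injective p) =>
    reidx (fun x : Fin 5 → V => e (x 0) (x 1) (x 2)) p hp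
  have h0 : ∑ x : Fin 5 → V, e (x 0) (x 1) (x 2) =
      ∑ x : Fin 5 → V, e (x 0) (x 1) (x 2) := r ![0,1,2,3,4] (by decide)
  have h1 : ∑ x : Fin 5 → V, e (x 0) (x 1) (x 3) =
      ∑ x : Fin 5 → V, e (x 0) (x 1) (x 2) := r ![0,1,3,2,4] (by decide)
  have h2 : ∑ x : Fin 5 → V, e (x 0) (x 1) (x 4) =
      ∑ x : Fin 5 → V, e (x 0) (x 1) (x 2) := r ![0,1,4,2,3] (by decide)
  have h3 : ∑ x : Fin 5 → V, e (x 0) (x 2) (x 3) =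
      ∑ x : Fin 5 → V, e (x 0) (x 1) (x 2) := r ![0,2,3,1,4] (by decide)
  have h4 : ∑ x : Fin 5 → V, e (x 0) (x 2) (x 4) =
      ∑ x : Fin 5 → V, e (x 0) (x 1) (x 2) := r ![0,2,4,1,3] (by decide)
  have h5 : ∑ x : Fin 5 → V, e (x 0) (x 3) (x 4) =
      ∑ x : Fin 5 → V, e (x 0) (x 1) (x 2) := r ![0,3,4,1,2] (by decide)
  have h6 : ∑ x : Fin 5 → V, e (x 1) (x 2) (x 3) =
      ∑ x : Fin 5 → V, e (x 0) (x 1) (x 2) := r ![1,2,3,0,4] (by decide)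
  have h7 : ∑ x : Fin 5 → V, e (x 1) (x 2) (x 4) =
      ∑ x : Fin 5 → V, e (x 0) (x 1) (x 2) := r ![1,2,4,0,3] (by decide)
  have h8 : ∑ x : Fin 5 → V, e (x 1) (x 3) (x 4) =
      ∑ x : Fin 5 → V, e (x 0) (x 1) (x 2) := r ![1,3,4,0,2] (by decide)
  have h9 : ∑ x : Fin 5 → V, e (x 2) (x 3) (x 4) =
      ∑ x : Fin 5 → V, e (x 0) (x 1) (x 2) := r ![2,3,4,0,1] (by decide)
  simp only [S10, sum_add_distrib]
  simp only [h0, h1, h2, h3, h4, h5, h6, h7, h8, h9]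
  ring

/-- A property of 5-tuples that is invariant under adjacent transpositions and holds for tuples
with weakly increasing keys holds for all tuples. -/
theorem wlog5 {α : Type*} (c : α → ℕ) (P : α → α → α → α → α → Prop)
    (h0 : ∀ x0 x1 x2 x3 x4, P x1 x0 x2 x3 x4 → P x0 x1 x2 x3 x4)
    (h1 : ∀ x0 x1 x2 x3 x4, P x0 x2 x1 x3 x4 → P x0 x1 x2 x3 x4)
    (h2 : ∀ x0 x1 x2 x3 x4, P x0 x1 x3 x2 x4 → P x0 x1 x2 x3 x4)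
    (h3 : ∀ x0 x1 x2 x3 x4, P x0 x1 x2 x4 x3 → P x0 x1 x2 x3 x4)
    (hs : ∀ x0 x1 x2 x3 x4, c x0 ≤ c x1 → c x1 ≤ c x2 → c x2 ≤ c x3 → c x3 ≤ c x4 →
      P x0 x1 x2 x3 x4) (x0 x1 x2 x3 x4 : α) : P x0 x1 x2 x3 x4 := by
  -- insert the first entry into the sorted last four
  have a4 : ∀ x0 x1 x2 x3 x4, c x1 ≤ c x2 → c x2 ≤ c x3 → c x3 ≤ c x4 → P x0 x1 x2 x3 x4 := by
    intro x0 x1 x2 x3 x4 a b d
    rcases le_total (c x0) (c x1) with e | e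
    · exact hs _ _ _ _ _ e a b d
    · apply h0
      rcases le_total (c x0) (c x2) with f | f
      · exact hs _ _ _ _ _ e f b d
      · apply h1
        rcases le_total (c x0) (c x3) with g | g
        · exact hs _ _ _ _ _ a f g d
        · apply h2
          rcases le_total (c x0) (c x4) with k | k
          · exact hs _ _ _ _ _ a b g k
          · apply h3
            exact hs _ _ _ _ _ a b d k
  have a3 : ∀ x0 x1 x2 x3 x4, c x2 ≤ c x3 → c x3 ≤ c x4 → P x0 x1 x2 x3 x4 := by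
    intro x0 x1 x2 x3 x4 b d
    rcases le_total (c x1) (c x2) with f | f
    · exact a4 _ _ _ _ _ f b d
    · apply h1
      rcases le_total (c x1) (c x3) with g | g
      · exact a4 _ _ _ _ _ f g d
      · apply h2
        rcases le_total (c x1) (c x4) with k | k
        · exact a4 _ _ _ _ _ b g k
        · apply h3
          exact a4 _ _ _ _ _ b d k
  have a2 : ∀ x0 x1 x2 x3 x4, c x3 ≤ c x4 → P x0 x1 x2 x3 x4 := by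
    intro x0 x1 x2 x3 x4 d
    rcases le_total (c x2) (c x3) with g | g
    · exact a3 _ _ _ _ _ g d
    · apply h2
      rcases le_total (c x2) (c x4) with k | k
      · exact a3 _ _ _ _ _ g k
      · apply h3
        exact a3 _ _ _ _ _ d k
  rcases le_total (c x3) (c x4) with k | k
  · exact a2 _ _ _ _ _ k
  · apply h3
    exact a2 _ _ _ _ _ k

end Pool.Agent.Y439.Col
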