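import Pool.Agent.Y439.Col.Tools

set_option autoImplicit false

/-!
The indicator of the edges of a 3-graph, and the inequality of `Main` for 3-graphs.
-/

namespace Pool.Agent.Y439.Col
open Finset

variable {V : Type} [DecidableEq V]

/-- indicator of the edges -/
def tri (H : Finset (Finset V)) (a b c : V) : ℕ :=
  if ({a, b, c} : Finset V) ∈ H then 1 else 0

theorem tri_le (H : Finset (Finset V)) (a b c : V) : tri H a b c ≤ 1 := by
  unfold tri
  split_ifs <;> simp

theorem tri_eq_one {H : Finset (Finset V)} {a b c : V} :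
    tri H a b c = 1 ↔ ({a, b, c} : Finset V) ∈ H := by
  unfold tri
  split_ifs with h <;> simp [h]

theorem tri_eq_zero {H : Finset (Finset V)} {a b c : V} :
    tri H a b c = 0 ↔ ({a, b, c} : Finset V) ∉ H := by
  unfold tri
  split_ifs with h <;> simp [h]

theorem tri_s1 (H : Finset (Finset V)) (a b c : V) : tri H a b c = tri H b a c := by
  unfold tri
  rw [Finset.insert_comm]

theorem tri_s2 (H : Finset (Finset V)) (a b c : V) : tri H a b c = tri H a c b := by
  unfold tri
  rw [Finset.pair_comm b c]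

theorem distinct_of_mem {H : Finset (Finset V)} (hH : ∀ e ∈ H, e.card = 3) {a b c : V}
    (h : ({a, b, c} : Finset V) ∈ H) : a ≠ b ∧ a ≠ c ∧ b ≠ c := by
  have h3 := hH _ h
  refine ⟨?_, ?_, ?_⟩
  · rintro rfl
    rw [Finset.insert_eq_of_mem (by simp)] at h3
    have := Finset.card_le_two (a := a) (b := c)
    omega
  · rintro rfl
    rw [Finset.insert_eq_of_mem (by simp)] at h3
    have := Finset.card_le_two (a := b) (b := a)
    omega
  · rintro rfl
    have e : ({a, b, b} : Finset V) = {a, b} := by ext t; simp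
    rw [e] at h3
    have := Finset.card_le_two (a := a) (b := b)
    omega

theorem tri_k4 {H : Finset (Finset V)} (hH : ∀ e ∈ H, e.card = 3)
    (hK : ∀ S : Finset V, S.card = 4 → ∃ T ⊆ S, T.card = 3 ∧ T ∉ H) (x y z w : V) :
    tri H x y z = 0 ∨ tri H x y w = 0 ∨ tri H x z w = 0 ∨ tri H y z w = 0 := by
  by_contra hcon
  push Not at hcon
  obtain ⟨h1, h2, h3, h4⟩ := hcon
  have g : ∀ a b c, tri H a b c ≠ 0 → ({a, b, c} : Finset V) ∈ H := by
    intro a b c h
    by_contra h'
    exact h (tri_eq_zero.2 h')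
  have m1 := g _ _ _ h1
  have m2 := g _ _ _ h2
  have m3 := g _ _ _ h3
  have m4 := g _ _ _ h4
  obtain ⟨xy, xz, yz⟩ := distinct_of_mem hH m1
  obtain ⟨_, xw, yw⟩ := distinct_of_mem hH m2
  obtain ⟨_, _, zw⟩ := distinct_of_mem hH m3
  have hc : ({x, y, z, w} : Finset V).card = 4 := by
    rw [card_insert_of_notMem, card_insert_of_notMem, card_insert_of_notMem, card_singleton] <;>
    simp [xy, xz, yz, xw, yw, zw]
  obtain ⟨T, hT, hT3, hTH⟩ := hK _ hc
  have hd : (({x, y, z, w} : Finset V) \ T).card = 1 := by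
    rw [card_sdiff_of_subset hT, hc, hT3]
  obtain ⟨u, hu⟩ := card_eq_one.1 hd
  have hu' : u ∈ ({x, y, z, w} : Finset V) \ T := by rw [hu]; exact mem_singleton_self _
  have hTe : T = ({x, y, z, w} : Finset V).erase u := by
    ext t
    rw [mem_erase]
    constructor
    · intro ht
      refine ⟨?_, hT ht⟩
      rintro rfl
      exact (mem_sdiff.1 hu').2 ht
    · rintro ⟨ht1, ht2⟩
      by_contra ht
      have : t ∈ ({x, y, z, w} : Finset V) \ T := mem_sdiff.2 ⟨ht2, ht⟩
      rw [hu, mem_singleton] at this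
      exact ht1 this
  have hu2 := (mem_sdiff.1 hu').1
  simp only [mem_insert, mem_singleton] at hu2
  apply hTH
  rw [hTe]
  rcases hu2 with rfl | rfl | rfl | rfl
  · have : ({u, y, z, w} : Finset V).erase u = {y, z, w} := by
      ext t; simp only [mem_erase, mem_insert, mem_singleton]
      constructor
      · rintro ⟨h1, h2 | h2 | h2 | h2⟩ <;> simp_all
      · rintro (h2 | h2 | h2) <;> simp_all [Ne.symm]
    rwa [this]
  · have : ({x, u, z, w} : Finset V).erase u = {x, z, w} := by
      ext t; simp only [mem_erase, mem_insert, mem_singleton]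
      constructor
      · rintro ⟨h1, h2 | h2 | h2 | h2⟩ <;> simp_all
      · rintro (h2 | h2 | h2) <;> simp_all [Ne.symm]
    rwa [this]
  · have : ({x, y, u, w} : Finset V).erase u = {x, y, w} := by
      ext t; simp only [mem_erase, mem_insert, mem_singleton]
      constructor
      · rintro ⟨h1, h2 | h2 | h2 | h2⟩ <;> simp_all
      · rintro (h2 | h2 | h2) <;> simp_all [Ne.symm]
    rwa [this]
  · have : ({x, y, z, u} : Finset V).erase u = {x, y, z} := by
      ext t; simp only [mem_erase, mem_insert, mem_singleton]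
      constructor
      · rintro ⟨h1, h2 | h2 | h2 | h2⟩ <;> simp_all
      · rintro (h2 | h2 | h2) <;> simp_all [Ne.symm]
    rwa [this]

theorem tri_inner {H : Finset (Finset V)} {c : V → ℕ}
    (hin : ∀ e ∈ H, ∃ x ∈ e, ∃ y ∈ e, c x ≠ c y) (x y z : V) (h1 : c x = c y) (h2 : c y = c z) :
    tri H x y z = 0 := by
  rw [tri_eq_zero]
  intro h
  obtain ⟨u, hu, v, hv, huv⟩ := hin _ h
  apply huv
  simp only [mem_insert, mem_singleton] at hu hv
  rcases hu with rfl | rfl | rfl <;> rcases hv with rfl | rfl | rfl <;> simp_all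

variable [Fintype V]

theorem six_card_le {H : Finset (Finset V)} (hH : ∀ e ∈ H, e.card = 3) :
    6 * H.card ≤ ∑ a, ∑ b, ∑ c, tri H a b c := by
  set T : Finset (V × V × V) := univ.filter fun t => ({t.1, t.2.1, t.2.2} : Finset V) ∈ H with hT
  have e : ∑ a, ∑ b, ∑ c, tri H a b c = T.card := by
    rw [hT, Finset.card_filter, Fintype.sum_prod_type]
    refine sum_congr rfl fun a _ => ?_
    rw [Fintype.sum_prod_type]
    rfl
  have hfw := card_eq_sum_card_fiberwise (s := T)
    (f := fun t : V × V × V => ({t.1, t.2.1, t.2.2} : Finset V))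
    (t := H) (fun t ht => (mem_filter.mp (mem_coe.mp ht)).2)
  rw [e, hfw, mul_comm, ← smul_eq_mul, ← sum_const]
  refine sum_le_sum fun s hs => ?_
  obtain ⟨x, y, z, hxy, hxz, hyz, rfl⟩ := Finset.card_eq_three.mp (hH s hs)
  have h6 : ({(x, y, z), (x, z, y), (y, x, z), (y, z, x), (z, x, y), (z, y, x)} :
      Finset (V × V × V)).card = 6 := by
    rw [card_insert_of_notMem, card_insert_of_notMem, card_insert_of_notMem,
      card_insert_of_notMem, card_insert_of_notMem, card_singleton] <;>
    simp [hxy, hxz, hyz, hxy.symm, hxz.symm, hyz.symm]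
  rw [← h6]
  have key : ∀ u v w : V, ({u, v, w} : Finset V) = {x, y, z} →
      (u, v, w) ∈ T.filter (fun t : V × V × V => ({t.1, t.2.1, t.2.2} : Finset V) = {x, y, z}) := by
    intro u v w h
    have hm : ({u, v, w} : Finset V) ∈ H := by rw [h]; exact hs
    rw [mem_filter, hT, mem_filter]
    exact ⟨⟨mem_univ _, hm⟩, h⟩
  refine card_le_card ?_
  intro t ht
  simp only [mem_insert, mem_singleton] at ht
  rcases ht with h | h | h | h | h | h <;> rw [h]
  · exact key x y z rfl
  · exact key x z y (by rw [pair_comm z y])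
  · exact key y x z (insert_comm _ _ _)
  · exact key y z x (by rw [pair_comm z x, insert_comm])
  · exact key z x y (by rw [insert_comm z x, pair_comm z y])
  · exact key z y x (by rw [pair_comm y x, insert_comm z x, pair_comm z y])

/-- The inequality of `main` for a 3-graph. -/
theorem main_tri {val : ℕ → ℕ → ℕ → ℕ} {rows : ℕ → List (List ℤ)} {OFF : ℕ}
    (hG : Good val rows OFF) (W lam : ℕ) (pt : Pat)
    (hchk : chkAll true val W (50 * W + 75 * OFF) lam pt = true)
    (H : Finset (Finset V)) (h3 : ∀ e ∈ H, e.card = 3)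
    (hK : ∀ S : Finset V, S.card = 4 → ∃ T ⊆ S, T.card = 3 ∧ T ∉ H)
    (c : V → ℕ) (hc : ∀ x, c x < 3) (hin : ∀ e ∈ H, ∃ x ∈ e, ∃ y ∈ e, c x ≠ c y)
    (P : (Fin 5 → V) → Prop) [DecidablePred P]
    (hP : ∀ x : Fin 5 → V, pg pt c (tri H) (x 0) (x 1) (x 2) (x 3) (x 4) ≤ if P x then 1 else 0) :
    54 * W * H.card * Fintype.card V ^ 2 ≤
      5 * W * Fintype.card V ^ 5 + 12 * lam * (univ.filter P).card := by
  have h := main hG true W lam pt (chk_of_all hchk) c hc (tri H) (tri_le H) (tri_s1 H) (tri_s2 H)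
    (fun _ => tri_inner hin) (tri_k4 h3 hK)
  have h6 := six_card_le h3
  have hP2 : ∑ x : Fin 5 → V, pg pt c (tri H) (x 0) (x 1) (x 2) (x 3) (x 4) ≤
      (univ.filter P).card := by
    rw [card_filter]
    exact sum_le_sum fun x _ => hP x
  have a1 : 90 * W * (Fintype.card V ^ 2 * (6 * H.card)) ≤
      90 * W * (Fintype.card V ^ 2 * ∑ a, ∑ b, ∑ d, tri H a b d) :=
    Nat.mul_le_mul_left _ (Nat.mul_le_mul_left _ h6)
  have a2 := Nat.mul_le_mul_left (120 * lam) hP2
  have a3 : 10 * (54 * W * H.card * Fintype.card V ^ 2) ≤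
      10 * (5 * W * Fintype.card V ^ 5 + 12 * lam * (univ.filter P).card) := by
    calc 10 * (54 * W * H.card * Fintype.card V ^ 2)
        = 90 * W * (Fintype.card V ^ 2 * (6 * H.card)) := by ring
      _ ≤ 50 * W * Fintype.card V ^ 5 + 120 * lam * (univ.filter P).card :=
          a1.trans (h.trans (Nat.add_le_add_left a2 _))
      _ = _ := by ring
  omega

end Pool.Agent.Y439.Col
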